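import Pool.Graph.R_pool_sql_team_seeded_f0cf7b00.H685R2.RK.PolyL

/-!
# The learning algorithm
-/

namespace Pool.Agent.H687.CD

open Pool.Agent.H685R2.VST (tup mem_tup)
open Pool.Agent.H685R2.RK (gb agr subl trL fs tl)

/-- The parity of the values on a list of variables. -/
def par (U : List ℕ) (a : List Bool) : Bool :=
  decide ((U.filter (fun j => gb a j)).length % 2 = 1)

/-- The number of the negative examples which agree with `a` on `V` and have parity `s` on `U`. -/
def cntP (neg : List (List Bool)) (a : List Bool) (V U : List ℕ) (s : Bool) : ℕ :=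
  (neg.filter (fun a' => agr a a' V && decide (par U a' = s))).length

/-- The absolute value of the statistic. -/
def stc (neg : List (List Bool)) (a : List Bool) (V U : List ℕ) : ℕ :=
  (cntP neg a V U true - cntP neg a V U false) + (cntP neg a V U false - cntP neg a V U true)

/-- The variables with a large statistic. -/
def bigV (R : List ℕ) (neg : List (List Bool)) (a : List Bool) (V S : List ℕ) : List ℕ :=
  R.filter (fun y => !(decide (y ∈ S)) && (!(decide (y ∈ V)) &&
    decide (stc neg a V S ≤ 2 * stc neg a V (y :: S))))

/-- The term which fixes the values of `b` on `T`. -/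
def tm (b : List Bool) (T : List ℕ) : List (ℕ × Bool) := T.map (fun j => (j, gb b j))

/-- The terms with few literals. -/
def cyls (d : ℕ) (R : List ℕ) (pts : List (List Bool)) : List (List (ℕ × Bool)) :=
  (tup d R).flatMap (fun V => pts.map (fun b => tm b V))

/-- The other candidate terms. -/
def candW {β : Type} (cap : List β) (d r : ℕ) (R : List ℕ) (pts neg : List (List Bool)) :
    List (List (ℕ × Bool)) :=
  (tup d R).flatMap (fun V => neg.flatMap (fun a => (tup r R).flatMap (fun S =>
    (subl cap (V ++ (S ++ bigV R neg a V S))).flatMap (fun T => pts.map (fun b => tm b T)))))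

/-- The candidate terms which are not true at a negative example. -/
def kept {β : Type} (cap : List β) (d r : ℕ) (R : List ℕ) (pts neg negA : List (List Bool)) :
    List (List (ℕ × Bool)) :=
  (cyls d R pts ++ candW cap d r R pts neg).filter (fun t => !(negA.any (fun b => trL t b)))

/-- The value of a DNF formula. -/
def evalD (h : List (List (ℕ × Bool))) (b : List Bool) : Bool := h.any (fun t => trL t b)

/-- The number of the wrong labels. -/
def errL (h : List (List (ℕ × Bool))) (sm : List (List Bool × Bool)) : ℕ :=
  (sm.filter (fun p => !(decide (evalD h p.1 = p.2)))).length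

/-- The learner: the first choice of few short terms which gives a small error. -/
def learnD {β : Type} (cap : List β) (d r t E : ℕ) (R : List ℕ) (pts neg negA : List (List Bool))
    (sm : List (List Bool × Bool)) : List (List (ℕ × Bool)) :=
  kept cap d r R pts neg negA ++
    (((tup t (cyls d R pts)).filter (fun L => decide (4 * E *
      errL (kept cap d r R pts neg negA ++ L) sm ≤ 3 * sm.length))).head?.getD [])

end Pool.Agent.H687.CD

namespace Pool.Agent.NPC.H687CD

open Pool.Agent.H685R2.VST (tup mem_tup)
open Pool.Agent.H685R2.RK
open Pool.Agent.NPC.H685VST (poly_tup)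
open Pool.Agent.NPC.H685RK
open Pool.Agent.H687.CD

variable {α : Type} [TEnc α]

attribute [local irreducible] tup gb agr subl trL

theorem poly_par {U : α → List ℕ} {a : α → List Bool} (hU : Poly U) (ha : Poly a) :
    Poly (fun x => par (U x) (a x)) := by
  unfold par
  fun_prop

attribute [fun_prop] poly_par
attribute [local irreducible] par

theorem poly_cntP {neg : α → List (List Bool)} {a : α → List Bool} {V U : α → List ℕ} (s : Bool)
    (hn : Poly neg) (ha : Poly a) (hV : Poly V) (hU : Poly U) :
    Poly (fun x => cntP (neg x) (a x) (V x) (U x) s) := by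
  unfold cntP
  fun_prop

attribute [fun_prop] poly_cntP
attribute [local irreducible] cntP

theorem poly_stc {neg : α → List (List Bool)} {a : α → List Bool} {V U : α → List ℕ}
    (hn : Poly neg) (ha : Poly a) (hV : Poly V) (hU : Poly U) :
    Poly (fun x => stc (neg x) (a x) (V x) (U x)) := by
  unfold stc
  fun_prop

attribute [fun_prop] poly_stc
attribute [local irreducible] stc

theorem poly_bigV {R : α → List ℕ} {neg : α → List (List Bool)} {a : α → List Bool}
    {V S : α → List ℕ} (hR : Poly R) (hn : Poly neg) (ha : Poly a) (hV : Poly V) (hS : Poly S) :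
    Poly (fun x => bigV (R x) (neg x) (a x) (V x) (S x)) := by
  unfold bigV
  fun_prop

attribute [fun_prop] poly_bigV
attribute [local irreducible] bigV

theorem poly_tm {b : α → List Bool} {T : α → List ℕ} (hb : Poly b) (hT : Poly T) :
    Poly (fun x => tm (b x) (T x)) := by
  unfold tm
  fun_prop

attribute [fun_prop] poly_tm
attribute [local irreducible] tm

theorem poly_tupT {L : α → List (List (ℕ × Bool))} (J : ℕ) (hL : Poly L) :
    Poly (fun a => tup J (L a)) := poly_tup hL J

attribute [fun_prop] poly_tupT

theorem poly_cyls (d : ℕ) {R : α → List ℕ} {pts : α → List (List Bool)} (hR : Poly R)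
    (hp : Poly pts) : Poly (fun x => cyls d (R x) (pts x)) := by
  unfold cyls
  fun_prop

attribute [fun_prop] poly_cyls
attribute [local irreducible] cyls

theorem poly_candW {β : Type} [TEnc β] {cap : α → List β} (d r : ℕ) {R : α → List ℕ}
    {pts neg : α → List (List Bool)} (hc : Poly cap) (hR : Poly R)
    (hp : Poly pts) (hn : Poly neg) :
    Poly (fun x => candW (cap x) d r (R x) (pts x) (neg x)) := by
  unfold candW
  fun_prop

attribute [fun_prop] poly_candW
attribute [local irreducible] candW

theorem poly_kept {β : Type} [TEnc β] {cap : α → List β} (d r : ℕ) {R : α → List ℕ}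
    {pts neg negA : α → List (List Bool)} (hc : Poly cap) (hR : Poly R)
    (hp : Poly pts) (hn : Poly neg) (hA : Poly negA) :
    Poly (fun x => kept (cap x) d r (R x) (pts x) (neg x) (negA x)) := by
  unfold kept
  fun_prop

attribute [fun_prop] poly_kept
attribute [local irreducible] kept

theorem poly_evalD {h : α → List (List (ℕ × Bool))} {b : α → List Bool} (hh : Poly h)
    (hb : Poly b) : Poly (fun x => evalD (h x) (b x)) := by
  unfold evalD
  fun_prop

attribute [fun_prop] poly_evalD
attribute [local irreducible] evalD

theorem poly_errL {h : α → List (List (ℕ × Bool))} {sm : α → List (List Bool × Bool)}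
    (hh : Poly h) (hs : Poly sm) : Poly (fun x => errL (h x) (sm x)) := by
  unfold errL
  fun_prop

attribute [fun_prop] poly_errL
attribute [local irreducible] errL

theorem poly_learnD {β : Type} [TEnc β] {cap : α → List β} (d r t E : ℕ) {R : α → List ℕ}
    {pts neg negA : α → List (List Bool)} {sm : α → List (List Bool × Bool)} (hc : Poly cap)
    (hR : Poly R) (hp : Poly pts) (hn : Poly neg) (hA : Poly negA) (hs : Poly sm) :
    Poly (fun x => learnD (cap x) d r t E (R x) (pts x) (neg x) (negA x) (sm x)) := by
  unfold learnD
  fun_prop

end Pool.Agent.NPC.H687CD
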