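import Pool.Agent.H687.CD.Count

/-!
# Variables of large weight, and the terms with many of them
-/

namespace Pool.Agent.H687.CD

open Finset
open Pool.Agent.H685R2.RK

/-! ### Elementary bounds -/

theorem pg_summable (j : ℕ) {q : ℝ} (h0 : 0 < q) (h1 : q < 1) :
    Summable (fun d : ℕ => ((d + 1 : ℕ) : ℝ) ^ j * q ^ d) := by
  have h := summable_pow_mul_geometric_of_norm_lt_one (R := ℝ) j (r := q) (by
    rw [Real.norm_eq_abs, abs_of_pos h0]; exact h1)
  have h1 := (summable_nat_add_iff 1).2 h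
  have h2 := h1.mul_left (1 / q)
  refine h2.congr fun d => ?_
  rw [pow_succ]
  field_simp

/-- Polynomials are smaller than exponential functions. -/
theorem pg_bound (j : ℕ) {r s : ℝ} (hr : 0 < r) (hs : r < s) :
    ∃ K : ℝ, 0 < K ∧ ∀ w : ℕ, ((w + 1 : ℕ) : ℝ) ^ j * r ^ w ≤ K * s ^ w := by
  have hs0 : 0 < s := hr.trans hs
  have hq0 : 0 < r / s := by positivity
  have hq1 : r / s < 1 := (div_lt_one hs0).2 hs
  have hsum := pg_summable j hq0 hq1
  refine ⟨(∑' d : ℕ, ((d + 1 : ℕ) : ℝ) ^ j * (r / s) ^ d) + 1, ?_, ?_⟩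
  · have : 0 ≤ ∑' d : ℕ, ((d + 1 : ℕ) : ℝ) ^ j * (r / s) ^ d :=
      tsum_nonneg fun d => by positivity
    linarith
  · intro w
    have h1 := hsum.le_tsum w (fun d _ => by positivity)
    have h2 : ((w + 1 : ℕ) : ℝ) ^ j * (r / s) ^ w ≤
        (∑' d : ℕ, ((d + 1 : ℕ) : ℝ) ^ j * (r / s) ^ d) + 1 := by linarith
    rw [div_pow] at h2
    have h3 : 0 < s ^ w := by positivity
    calc ((w + 1 : ℕ) : ℝ) ^ j * r ^ w = (((w + 1 : ℕ) : ℝ) ^ j * (r ^ w / s ^ w)) * s ^ w := by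
          field_simp
      _ ≤ _ := mul_le_mul_of_nonneg_right h2 h3.le

/-- Eventually an exponential function with small base is small. -/
theorem geo_small {s δ : ℝ} (K : ℝ) (hs : 0 < s) (hs1 : s < 1) (hδ : 0 < δ) :
    ∃ L : ℕ, ∀ w ≥ L, K * s ^ w ≤ δ := by
  have h := (tendsto_pow_atTop_nhds_zero_of_lt_one hs.le hs1).const_mul K
  rw [mul_zero] at h
  have h1 := h.eventually (gt_mem_nhds hδ)
  obtain ⟨L, hL⟩ := Filter.eventually_atTop.1 h1
  exact ⟨L, fun w hw => (hL w hw).le⟩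

theorem geo_tail {s : ℝ} (hs : 0 < s) (hs1 : s < 1) (L m : ℕ) :
    ∑ w ∈ (Finset.range m).filter (fun w => L ≤ w), s ^ w ≤ s ^ L / (1 - s) := by
  have h1 : ∑ w ∈ (Finset.range m).filter (fun w => L ≤ w), s ^ w ≤
      ∑ w ∈ (Finset.range m).image (fun w => L + w), s ^ w := by
    apply Finset.sum_le_sum_of_subset_of_nonneg
    · intro w hw
      rw [Finset.mem_filter, Finset.mem_range] at hw
      exact Finset.mem_image.2 ⟨w - L, Finset.mem_range.2 (by omega), by omega⟩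
    · intro _ _ _
      positivity
  refine h1.trans ?_
  rw [Finset.sum_image (by intro a _ b _ h; simpa using h)]
  simp only [pow_add]
  rw [← Finset.mul_sum, div_eq_mul_inv]
  apply mul_le_mul_of_nonneg_left _ (by positivity)
  have h2 := (summable_geometric_of_lt_one hs.le hs1).sum_le_tsum (Finset.range m)
    (fun d _ => by positivity)
  rwa [tsum_geometric_of_lt_one hs.le hs1] at h2

theorem mul_half_pow_anti {w m : ℕ} (hw : 1 ≤ w) (hm : w ≤ m) :
    (m : ℝ) * (1 / 2) ^ m ≤ w * (1 / 2) ^ w := by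
  induction m, hm using Nat.le_induction with
  | base => exact le_rfl
  | succ m hm ih =>
    refine le_trans ?_ ih
    rw [pow_succ]
    push_cast
    have h1 : (1 : ℝ) ≤ m := by exact_mod_cast hw.trans hm
    have h2 : (0 : ℝ) < (1 / 2) ^ m := by positivity
    nlinarith

/-! ### Weights -/

section

variable {n : ℕ} {ι : Type} [DecidableEq ι] (F : ι → Finset (Fin n)) (I : Finset ι)

/-- The weight of the terms which contain a variable. -/
noncomputable def nu (x : Fin n) : ℝ := ∑ i ∈ I.filter (fun i => x ∈ F i), (1 / 2) ^ (F i).card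

/-- The weight of all terms. -/
noncomputable def Om : ℝ := ∑ i ∈ I, (1 / 2) ^ (F i).card

/-- The variables of weight larger than `2 ^ (-u)`. -/
noncomputable def Hv (u : ℕ) : Finset (Fin n) := Finset.univ.filter (fun x => (1 / 2) ^ u < nu F I x)

/-- A term with at least `c` variables of large weight. -/
def Bad (c : ℕ) (i : ι) : Prop := c ≤ (F i ∩ Hv F I ((F i).card / (4 * c))).card

variable {F I} {c k : ℕ}

theorem nu_nonneg (x : Fin n) : 0 ≤ nu F I x := Finset.sum_nonneg fun _ _ => by positivity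

theorem Om_nonneg : 0 ≤ Om F I := Finset.sum_nonneg fun _ _ => by positivity

theorem Om_mono {J : Finset ι} (h : J ⊆ I) : Om F J ≤ Om F I :=
  Finset.sum_le_sum_of_subset_of_nonneg h fun _ _ _ => by positivity

theorem nu_mono {J : Finset ι} (h : J ⊆ I) (x : Fin n) : nu F J x ≤ nu F I x :=
  Finset.sum_le_sum_of_subset_of_nonneg (Finset.filter_subset_filter _ h) fun _ _ _ => by positivity

theorem sum_nu (A : Finset (Fin n)) :
    ∑ x ∈ A, nu F I x = ∑ i ∈ I, ((F i ∩ A).card : ℝ) * (1 / 2) ^ (F i).card := by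
  unfold nu
  simp only [Finset.sum_filter]
  rw [Finset.sum_comm]
  apply Finset.sum_congr rfl
  intro i _
  rw [← Finset.sum_filter, Finset.sum_const, nsmul_eq_mul]
  congr 2
  congr 1
  ext x
  simp only [Finset.mem_filter, Finset.mem_inter]
  tauto

/-- There are few variables of large weight. -/
theorem Hv_card (hcd : CoDeg F I c k) {w B u : ℕ} (hw : 1 ≤ w)
    (hB : (w + c) * Om F I + 1 ≤ (B : ℝ))
    (hs : (k : ℝ) * ((2 ^ u * B : ℕ) : ℝ) ^ c * (w * (1 / 2) ^ w) ≤ 1) :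
    (Hv F I u).card < 2 ^ u * B := by
  by_contra hcon
  push Not at hcon
  obtain ⟨H, hH, hHc⟩ := Finset.exists_subset_card_eq hcon
  have hB0 : (0 : ℝ) < B := by
    have : 0 ≤ (w + c) * Om F I := mul_nonneg (by positivity) Om_nonneg
    linarith
  have hpos : 0 < H.card := by
    rw [hHc]
    have : 0 < B := by exact_mod_cast hB0
    positivity
  have h1 : (B : ℝ) < ∑ x ∈ H, nu F I x := by
    have h2 : ∑ x ∈ H, (1 / 2 : ℝ) ^ u < ∑ x ∈ H, nu F I x := by
      apply Finset.sum_lt_sum_of_nonempty (Finset.card_pos.1 hpos)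
      intro x hx
      exact (Finset.mem_filter.1 (hH hx)).2
    refine lt_of_le_of_lt (le_of_eq ?_) h2
    rw [Finset.sum_const, hHc, nsmul_eq_mul]
    push_cast
    rw [one_div, inv_pow]
    field_simp
  rw [sum_nu] at h1
  have h2 : ∑ i ∈ I, ((F i ∩ H).card : ℝ) * (1 / 2) ^ (F i).card ≤
      ∑ i ∈ I, (w + c) * (1 / 2 : ℝ) ^ (F i).card +
      ∑ i ∈ I.filter (fun i => c ≤ (F i ∩ H).card), (w : ℝ) * (1 / 2) ^ w := by
    rw [Finset.sum_filter, ← Finset.sum_add_distrib]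
    apply Finset.sum_le_sum
    intro i _
    by_cases h3 : c ≤ (F i ∩ H).card
    · rw [if_pos h3]
      have h4 : ((F i ∩ H).card : ℝ) ≤ (F i).card := by
        exact_mod_cast Finset.card_le_card Finset.inter_subset_left
      by_cases h5 : (F i).card ≤ w
      · have h6 : ((F i).card : ℝ) ≤ w := by exact_mod_cast h5
        have h7 : ((F i ∩ H).card : ℝ) * (1 / 2) ^ (F i).card ≤ (w + c) * (1 / 2) ^ (F i).card := by
          apply mul_le_mul_of_nonneg_right _ (by positivity)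
          have : (0 : ℝ) ≤ c := by positivity
          linarith
        have h8 : (0 : ℝ) ≤ w * (1 / 2) ^ w := by positivity
        linarith
      · have h6 := mul_half_pow_anti hw (le_of_not_ge h5)
        have h7 : ((F i ∩ H).card : ℝ) * (1 / 2) ^ (F i).card ≤ (F i).card * (1 / 2) ^ (F i).card :=
          mul_le_mul_of_nonneg_right h4 (by positivity)
        have h8 : (0 : ℝ) ≤ (w + c) * (1 / 2) ^ (F i).card := by positivity
        linarith
    · rw [if_neg h3, add_zero]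
      apply mul_le_mul_of_nonneg_right _ (by positivity)
      have h4 : ((F i ∩ H).card : ℝ) ≤ c := by exact_mod_cast (le_of_not_ge h3)
      have : (0 : ℝ) ≤ w := by positivity
      linarith
  have h3 : ∑ i ∈ I.filter (fun i => c ≤ (F i ∩ H).card), (w : ℝ) * (1 / 2) ^ w ≤ 1 := by
    rw [Finset.sum_const, nsmul_eq_mul]
    refine le_trans ?_ hs
    apply mul_le_mul_of_nonneg_right _ (by positivity)
    have h4 := hcd.count_ge H (J := I.filter (fun i => c ≤ (F i ∩ H).card))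
      (Finset.filter_subset _ _) (fun i hi => (Finset.mem_filter.1 hi).2)
    rw [hHc] at h4
    exact_mod_cast h4
  rw [← Finset.mul_sum] at h2
  unfold Om at hB
  linarith

theorem bad_count (hcd : CoDeg F I c k) {w B : ℕ} (hw : 1 ≤ w)
    (hB : (w + c) * Om F I + 1 ≤ (B : ℝ))
    (hs : (k : ℝ) * ((2 ^ (w / (4 * c)) * B : ℕ) : ℝ) ^ c * (w * (1 / 2) ^ w) ≤ 1) {J : Finset ι}
    (hJ : J ⊆ I) (hJw : ∀ i ∈ J, (F i).card = w ∧ Bad F I c i) :
    J.card ≤ k * (2 ^ (w / (4 * c)) * B) ^ c := by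
  have h1 := Hv_card (u := w / (4 * c)) hcd hw hB hs
  have h2 := hcd.count_ge (Hv F I (w / (4 * c))) hJ (by
    intro i hi
    obtain ⟨h3, h4⟩ := hJw i hi
    unfold Bad at h4
    rwa [h3] at h4)
  exact h2.trans (Nat.mul_le_mul_left _ (Nat.pow_le_pow_left h1.le _))

end

/-- The number used for the bound. -/
def B0 (c w : ℕ) : ℕ := (w + c) * (w ^ 2 + 1) + 1

theorem B0_le (c w : ℕ) : B0 c w ≤ (c + 2) * (w + 1) ^ 3 := by
  unfold B0
  have h : (c + 2) * (w + 1) ^ 3 = (w + c) * (w ^ 2 + 1) + 1 +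
    (c * (w ^ 3 + 2 * w ^ 2 + 3 * w) + (w ^ 3 + 6 * w ^ 2 + 5 * w + 1)) := by ring
  omega

theorem two_pow_div_four (w : ℕ) : (2 : ℝ) ^ (w / 4) ≤ (5 / 4) ^ w := by
  have h1 : (2 : ℝ) ≤ (5 / 4) ^ 4 := by norm_num
  calc (2 : ℝ) ^ (w / 4) ≤ ((5 / 4) ^ 4) ^ (w / 4) := pow_le_pow_left₀ (by norm_num) h1 _
    _ = (5 / 4) ^ (4 * (w / 4)) := by rw [← pow_mul]
    _ ≤ _ := pow_le_pow_right₀ (by norm_num) (by omega)

/-- The numerical estimate. -/
theorem bad_num (c k : ℕ) : ∃ K : ℝ, 0 < K ∧ ∀ w : ℕ,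
    (k : ℝ) * ((2 ^ (w / (4 * c)) * B0 c w : ℕ) : ℝ) ^ c * (w * (1 / 2) ^ w) ≤ K * (2 / 3) ^ w := by
  obtain ⟨K, hK, hKw⟩ := pg_bound (3 * c + 1) (r := 5 / 8) (s := 2 / 3) (by norm_num) (by norm_num)
  refine ⟨(k * (c + 2) ^ c + 1) * K, by positivity, fun w => ?_⟩
  have h1 : ((2 ^ (w / (4 * c)) * B0 c w : ℕ) : ℝ) ^ c ≤
      (5 / 4) ^ w * ((c + 2) ^ c * ((w + 1 : ℕ) : ℝ) ^ (3 * c)) := by
    push_cast
    rw [mul_pow]
    apply mul_le_mul _ _ (by positivity) (by positivity)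
    · refine le_trans ?_ (two_pow_div_four w)
      rw [← pow_mul]
      apply pow_le_pow_right₀ (by norm_num)
      rcases Nat.eq_zero_or_pos c with h0 | h0
      · subst h0; simp
      · rw [Nat.le_div_iff_mul_le (by norm_num)]
        calc w / (4 * c) * c * 4 = w / (4 * c) * (4 * c) := by ring
          _ ≤ w := Nat.div_mul_le_self _ _
    · have h2 : (B0 c w : ℝ) ≤ (c + 2) * ((w : ℝ) + 1) ^ 3 := by exact_mod_cast B0_le c w
      calc (B0 c w : ℝ) ^ c ≤ ((c + 2) * ((w : ℝ) + 1) ^ 3) ^ c :=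
            pow_le_pow_left₀ (by positivity) h2 _
        _ = _ := by rw [mul_pow, ← pow_mul]
  have h2 : (w : ℝ) ≤ ((w + 1 : ℕ) : ℝ) := by push_cast; linarith
  calc (k : ℝ) * ((2 ^ (w / (4 * c)) * B0 c w : ℕ) : ℝ) ^ c * (w * (1 / 2) ^ w)
      ≤ k * ((5 / 4) ^ w * ((c + 2) ^ c * ((w + 1 : ℕ) : ℝ) ^ (3 * c))) *
        (((w + 1 : ℕ) : ℝ) * (1 / 2) ^ w) := by
        apply mul_le_mul _ _ (by positivity) (by positivity)
        · exact mul_le_mul_of_nonneg_left h1 (by positivity)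
        · exact mul_le_mul_of_nonneg_right h2 (by positivity)
    _ = (k * (c + 2) ^ c) * (((w + 1 : ℕ) : ℝ) ^ (3 * c + 1) * ((5 / 4) ^ w * (1 / 2) ^ w)) := by
        rw [pow_succ]; ring
    _ = (k * (c + 2) ^ c) * (((w + 1 : ℕ) : ℝ) ^ (3 * c + 1) * (5 / 8) ^ w) := by
        rw [← mul_pow]; norm_num
    _ ≤ (k * (c + 2) ^ c) * (K * (2 / 3) ^ w) := by
        apply mul_le_mul_of_nonneg_left (hKw w) (by positivity)
    _ ≤ (k * (c + 2) ^ c + 1) * (K * (2 / 3) ^ w) := by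
        apply mul_le_mul_of_nonneg_right _ (by positivity)
        linarith
    _ = _ := by ring

/-- The total weight of the bad wide terms is small. -/
theorem bad_weight (c k : ℕ) : ∃ (K : ℝ) (L : ℕ), 0 < K ∧ ∀ {n : ℕ} {ι : Type} [DecidableEq ι]
    (F : ι → Finset (Fin n)) (I : Finset ι), CoDeg F I c k → ∀ ℓ ≥ L, Om F I ≤ ℓ ^ 2 + 1 →
    ∀ J ⊆ I, (∀ i ∈ J, ℓ ≤ (F i).card ∧ Bad F I c i) →
      ∑ i ∈ J, ((F i).card : ℝ) * (1 / 2) ^ (F i).card ≤ K * (2 / 3) ^ ℓ := by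
  obtain ⟨K, hK, hKw⟩ := bad_num c k
  obtain ⟨L, hL⟩ := geo_small (s := 2 / 3) (δ := 1) K (by norm_num) (by norm_num) (by norm_num)
  refine ⟨3 * K, L + 1, by positivity, ?_⟩
  intro n ι _ F I hcd ℓ hℓ hOm J hJ hJb
  have h0 : ∀ i ∈ J, (F i).card ∈ (Finset.range (n + 1)).filter (fun w => ℓ ≤ w) := by
    intro i hi
    rw [Finset.mem_filter, Finset.mem_range]
    have : (F i).card ≤ n := by
      have := Finset.card_le_univ (F i)
      rwa [Fintype.card_fin] at this
    exact ⟨by omega, (hJb i hi).1⟩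
  rw [← Finset.sum_fiberwise_of_maps_to h0]
  have h1 : ∀ w ∈ (Finset.range (n + 1)).filter (fun w => ℓ ≤ w),
      ∑ i ∈ J.filter (fun i => (F i).card = w), ((F i).card : ℝ) * (1 / 2) ^ (F i).card ≤
        K * (2 / 3) ^ w := by
    intro w hw
    have hw' : ℓ ≤ w := (Finset.mem_filter.1 hw).2
    have hB : (w + c) * Om F I + 1 ≤ (B0 c w : ℝ) := by
      unfold B0
      push_cast
      have h3 : Om F I ≤ (w : ℝ) ^ 2 + 1 := by
        have h4 : (ℓ : ℝ) ^ 2 ≤ (w : ℝ) ^ 2 := by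
          apply pow_le_pow_left₀ (by positivity)
          exact_mod_cast hw'
        linarith
      have h4 := mul_le_mul_of_nonneg_left h3 (by positivity : (0 : ℝ) ≤ w + c)
      linarith
    have hs := (hKw w).trans (hL w (by omega))
    have h3 := bad_count (F := F) (I := I) (J := J.filter (fun i => (F i).card = w)) hcd
      (w := w) (by omega) hB hs ((Finset.filter_subset _ _).trans hJ) (by
        intro i hi
        rw [Finset.mem_filter] at hi
        exact ⟨hi.2, (hJb i hi.1).2⟩)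
    refine le_trans ?_ (hKw w)
    have h4 : ∀ i ∈ J.filter (fun i => (F i).card = w),
        ((F i).card : ℝ) * (1 / 2) ^ (F i).card ≤ w * (1 / 2) ^ w := by
      intro i hi
      rw [(Finset.mem_filter.1 hi).2]
    refine (Finset.sum_le_card_nsmul _ _ _ h4).trans ?_
    rw [nsmul_eq_mul]
    apply mul_le_mul_of_nonneg_right _ (by positivity)
    exact_mod_cast h3
  refine (Finset.sum_le_sum h1).trans ?_
  rw [← Finset.mul_sum]
  have h2 := geo_tail (s := 2 / 3) (by norm_num) (by norm_num) ℓ (n + 1)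
  calc K * ∑ w ∈ (Finset.range (n + 1)).filter (fun w => ℓ ≤ w), (2 / 3 : ℝ) ^ w
      ≤ K * ((2 / 3) ^ ℓ / (1 - 2 / 3)) := mul_le_mul_of_nonneg_left h2 hK.le
    _ = _ := by ring

end Pool.Agent.H687.CD
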