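import Pool.Graph.R_pool_sql_team_seeded_f0cf7b00.H685R2.RK.LLL

/-!
# Averages over the cube, restrictions and characters
-/

namespace Pool.Agent.H687.CD

open Finset
open Pool.Agent.H685R2.RK

variable {n : ℕ}

/-- The average over the cube. -/
noncomputable def Ex (h : Cube n → ℝ) : ℝ := (∑ x, h x) / 2 ^ n

/-- The probability of a property. -/
noncomputable def Pr (P : Cube n → Prop) : ℝ := N P / 2 ^ n

open Classical in
/-- The indicator. -/
noncomputable def ind (P : Prop) : ℝ := if P then 1 else 0

theorem ind_true {P : Prop} (h : P) : ind P = 1 := if_pos h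
theorem ind_false {P : Prop} (h : ¬ P) : ind P = 0 := if_neg h

theorem ind_nonneg (P : Prop) : 0 ≤ ind P := by
  unfold ind
  split_ifs <;> norm_num

theorem ind_le_one (P : Prop) : ind P ≤ 1 := by
  unfold ind
  split_ifs <;> norm_num

theorem ind_congr {P Q : Prop} (h : P ↔ Q) : ind P = ind Q := by rw [propext h]

theorem ind_and (P Q : Prop) : ind (P ∧ Q) = ind P * ind Q := by
  unfold ind
  by_cases hP : P <;> by_cases hQ : Q <;> simp [hP, hQ]

theorem ind_not (P : Prop) : ind (¬ P) = 1 - ind P := by
  unfold ind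
  by_cases hP : P <;> simp [hP]

theorem ind_mul_self (P : Prop) : ind P * ind P = ind P := by
  rw [← ind_and]
  exact ind_congr and_self_iff

theorem ind_mono {P Q : Prop} (h : P → Q) : ind P ≤ ind Q := by
  unfold ind
  by_cases hP : P
  · rw [if_pos hP, if_pos (h hP)]
  · rw [if_neg hP]
    split_ifs <;> norm_num

/-! ### Averages -/

theorem two_pow_pos : (0 : ℝ) < 2 ^ n := by positivity

theorem Ex_add (g h : Cube n → ℝ) : Ex (fun x => g x + h x) = Ex g + Ex h := by
  unfold Ex
  rw [Finset.sum_add_distrib, add_div]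

theorem Ex_sub (g h : Cube n → ℝ) : Ex (fun x => g x - h x) = Ex g - Ex h := by
  unfold Ex
  rw [Finset.sum_sub_distrib, sub_div]

theorem Ex_mul_left (c : ℝ) (h : Cube n → ℝ) : Ex (fun x => c * h x) = c * Ex h := by
  unfold Ex
  rw [← Finset.mul_sum, mul_div_assoc]

theorem Ex_sum {κ : Type*} (S : Finset κ) (h : κ → Cube n → ℝ) :
    Ex (fun x => ∑ i ∈ S, h i x) = ∑ i ∈ S, Ex (h i) := by
  unfold Ex
  rw [Finset.sum_comm, Finset.sum_div]

theorem Ex_mono {g h : Cube n → ℝ} (H : ∀ x, g x ≤ h x) : Ex g ≤ Ex h := by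
  unfold Ex
  apply div_le_div_of_nonneg_right (Finset.sum_le_sum fun x _ => H x) (by positivity)

theorem Ex_congr {g h : Cube n → ℝ} (H : ∀ x, g x = h x) : Ex g = Ex h := by
  congr 1
  funext x
  exact H x

theorem Ex_nonneg {h : Cube n → ℝ} (H : ∀ x, 0 ≤ h x) : 0 ≤ Ex h := by
  unfold Ex
  apply div_nonneg (Finset.sum_nonneg fun x _ => H x) (by positivity)

theorem abs_Ex_le (h : Cube n → ℝ) : |Ex h| ≤ Ex (fun x => |h x|) := by
  unfold Ex
  rw [abs_div, abs_of_pos (two_pow_pos (n := n))]
  apply div_le_div_of_nonneg_right (Finset.abs_sum_le_sum_abs _ _) (by positivity)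

theorem Ex_const (c : ℝ) : Ex (fun _ : Cube n => c) = c := by
  unfold Ex
  rw [Finset.sum_const, Finset.card_univ, Fintype.card_fun, Fintype.card_bool, Fintype.card_fin,
    nsmul_eq_mul]
  push_cast
  field_simp

theorem sum_ind (P : Cube n → Prop) : ∑ x, ind (P x) = N P := by
  classical
  unfold ind N
  have h : ∀ x, (if P x then (1 : ℝ) else 0) = if P x then (1 : ℝ) else 0 := fun _ => rfl
  rw [Finset.sum_boole, Set.ncard_eq_toFinset_card _ (Set.toFinite _)]
  congr 2
  ext x
  simp

theorem Ex_ind (P : Cube n → Prop) : Ex (fun x => ind (P x)) = Pr P := by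
  unfold Ex Pr
  rw [sum_ind]

theorem Pr_nonneg (P : Cube n → Prop) : 0 ≤ Pr P := div_nonneg (N_nonneg _) (by positivity)

theorem Pr_le_one (P : Cube n → Prop) : Pr P ≤ 1 := (div_le_one (by positivity)).2 (N_le P)

theorem Pr_mono {P Q : Cube n → Prop} (h : ∀ x, P x → Q x) : Pr P ≤ Pr Q :=
  div_le_div_of_nonneg_right (N_mono h) (by positivity)

theorem Pr_congr {P Q : Cube n → Prop} (h : ∀ x, P x ↔ Q x) : Pr P = Pr Q := by
  unfold Pr
  rw [N_congr h]

theorem Pr_split (P Q : Cube n → Prop) :
    Pr P = Pr (fun x => P x ∧ Q x) + Pr (fun x => P x ∧ ¬ Q x) := by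
  unfold Pr
  rw [N_split P Q, add_div]

theorem Pr_true : Pr (fun _ : Cube n => True) = 1 := by
  unfold Pr
  rw [N_true, div_self (by positivity)]

theorem Pr_not (P : Cube n → Prop) : Pr (fun x => ¬ P x) = 1 - Pr P := by
  have h := Pr_split (fun _ : Cube n => True) P
  rw [Pr_true] at h
  have h1 : Pr (fun x => True ∧ P x) = Pr P := Pr_congr fun x => by simp
  have h2 : Pr (fun x => True ∧ ¬ P x) = Pr (fun x => ¬ P x) := Pr_congr fun x => by simp
  rw [h1, h2] at h
  linarith

theorem Pr_or_le (P Q : Cube n → Prop) : Pr (fun x => P x ∨ Q x) ≤ Pr P + Pr Q := by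
  unfold Pr
  rw [← add_div]
  exact div_le_div_of_nonneg_right (N_or_le P Q) (by positivity)

theorem Pr_exists_le {κ : Type*} (S : Finset κ) (R : κ → Cube n → Prop) :
    Pr (fun x => ∃ i ∈ S, R i x) ≤ ∑ i ∈ S, Pr (R i) := by
  unfold Pr
  rw [← Finset.sum_div]
  exact div_le_div_of_nonneg_right (N_exists_le S R) (by positivity)

theorem Pr_pat (a : Cube n) (G : Finset (Fin n)) :
    Pr (fun x => ∀ j ∈ G, x j = a j) = (1 / 2) ^ G.card := by
  have h := N_pat a G (fun _ => True) (fun _ _ _ h => h)
  rw [N_true] at h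
  unfold Pr
  rw [← h, one_div, inv_pow]
  have h1 : N (fun x : Cube n => (∀ j ∈ G, x j = a j) ∧ True) = N (fun x => ∀ j ∈ G, x j = a j) :=
    N_congr fun x => by simp
  rw [h1]
  rcases eq_or_ne (N (fun x : Cube n => ∀ j ∈ G, x j = a j)) 0 with h0 | h0
  · exfalso
    rw [h1, h0, zero_mul] at h
    exact absurd h (by positivity)
  · field_simp

/-- A property of the other coordinates is independent of the coordinates in `G`. -/
theorem Pr_pat_and (a : Cube n) (G : Finset (Fin n)) (B : Cube n → Prop)
    (hB : ∀ x y, (∀ j, j ∉ G → x j = y j) → B x → B y) :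
    Pr (fun x => (∀ j ∈ G, x j = a j) ∧ B x) = (1 / 2) ^ G.card * Pr B := by
  have h := N_pat a G B hB
  unfold Pr
  rw [← h, one_div, inv_pow]
  field_simp

/-! ### Restrictions -/

/-- The point with the coordinates of `z` on `V` and those of `x` elsewhere. -/
def patch (V : Finset (Fin n)) (z x : Cube n) : Cube n := fun j => if j ∈ V then z j else x j

theorem patch_mem {V : Finset (Fin n)} {z x : Cube n} {j : Fin n} (h : j ∈ V) :
    patch V z x j = z j := if_pos h

theorem patch_not {V : Finset (Fin n)} {z x : Cube n} {j : Fin n} (h : j ∉ V) :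
    patch V z x j = x j := if_neg h

theorem patch_empty (z x : Cube n) : patch ∅ z x = x := by
  funext j
  exact patch_not (by simp)

theorem patch_self {V : Finset (Fin n)} {z x : Cube n} (h : ∀ j ∈ V, x j = z j) :
    patch V z x = x := by
  funext j
  by_cases hj : j ∈ V
  · rw [patch_mem hj, h j hj]
  · rw [patch_not hj]

theorem patch_patch (V W : Finset (Fin n)) (z y x : Cube n) :
    patch V z (patch W y x) = patch (W ∪ V) (patch V z y) x := by
  funext j
  by_cases hj : j ∈ V
  · rw [patch_mem hj, patch_mem (Finset.mem_union_right _ hj), patch_mem hj]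
  · rw [patch_not hj]
    by_cases hj' : j ∈ W
    · rw [patch_mem hj', patch_mem (Finset.mem_union_left _ hj'), patch_not hj]
    · rw [patch_not hj', patch_not]
      rw [Finset.mem_union]
      tauto

theorem patch_congr {V : Finset (Fin n)} {z z' : Cube n} (h : ∀ j ∈ V, z j = z' j) (x : Cube n) :
    patch V z x = patch V z' x := by
  funext j
  by_cases hj : j ∈ V
  · rw [patch_mem hj, patch_mem hj, h j hj]
  · rw [patch_not hj, patch_not hj]

theorem Pr_patch (V : Finset (Fin n)) (z : Cube n) (P : Cube n → Prop) :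
    Pr (fun x => (∀ j ∈ V, x j = z j) ∧ P x) = (1 / 2) ^ V.card * Pr (fun x => P (patch V z x)) := by
  rw [← Pr_pat_and z V (fun x => P (patch V z x))]
  · apply Pr_congr
    intro x
    apply and_congr_right
    intro h
    rw [patch_self h]
  · intro x y h hx
    have : patch V z y = patch V z x := by
      funext j
      by_cases hj : j ∈ V
      · rw [patch_mem hj, patch_mem hj]
      · rw [patch_not hj, patch_not hj, h j hj]
    rw [this]
    exact hx

/-- The flip of one coordinate. -/
def fl (j : Fin n) (x : Cube n) : Cube n := Function.update x j (!(x j))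

theorem fl_self (j : Fin n) (x : Cube n) : fl j x j = !(x j) := by
  unfold fl
  rw [Function.update_self]

theorem fl_ne {i j : Fin n} (h : i ≠ j) (x : Cube n) : fl j x i = x i := by
  unfold fl
  rw [Function.update_of_ne h]

theorem fl_fl (j : Fin n) (x : Cube n) : fl j (fl j x) = x := by
  funext i
  by_cases h : i = j
  · subst h
    rw [fl_self, fl_self, Bool.not_not]
  · rw [fl_ne h, fl_ne h]

/-- The flip as a permutation. -/
def flE (j : Fin n) : Cube n ≃ Cube n := ⟨fl j, fl j, fl_fl j, fl_fl j⟩

theorem Ex_fl (j : Fin n) (h : Cube n → ℝ) : Ex (fun x => h (fl j x)) = Ex h := by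
  unfold Ex
  congr 1
  exact Equiv.sum_comp (flE j) h

/-! ### Characters -/

/-- The character of a set. -/
noncomputable def chi (U : Finset (Fin n)) (x : Cube n) : ℝ := ∏ j ∈ U, if x j then (-1 : ℝ) else 1

theorem chi_empty (x : Cube n) : chi ∅ x = 1 := by simp [chi]

theorem chi_insert {U : Finset (Fin n)} {y : Fin n} (h : y ∉ U) (x : Cube n) :
    chi (insert y U) x = chi {y} x * chi U x := by
  unfold chi
  rw [Finset.prod_insert h, Finset.prod_singleton]

theorem chi_sq (U : Finset (Fin n)) (x : Cube n) : chi U x * chi U x = 1 := by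
  unfold chi
  rw [← Finset.prod_mul_distrib]
  apply Finset.prod_eq_one
  intro j _
  split_ifs <;> norm_num

theorem abs_chi (U : Finset (Fin n)) (x : Cube n) : |chi U x| = 1 := by
  have h := chi_sq U x
  have h1 : |chi U x| * |chi U x| = 1 := by rw [← abs_mul, h, abs_one]
  have h2 := abs_nonneg (chi U x)
  nlinarith

theorem chi_congr {U : Finset (Fin n)} {x y : Cube n} (h : ∀ j ∈ U, x j = y j) :
    chi U x = chi U y := by
  unfold chi
  apply Finset.prod_congr rfl
  intro j hj
  rw [h j hj]

theorem chi_fl_mem {U : Finset (Fin n)} {j : Fin n} (h : j ∈ U) (x : Cube n) :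
    chi U (fl j x) = - chi U x := by
  unfold chi
  rw [← Finset.mul_prod_erase _ _ h, ← Finset.mul_prod_erase _ _ h]
  have h1 : ∏ i ∈ U.erase j, (if fl j x i then (-1 : ℝ) else 1) =
      ∏ i ∈ U.erase j, (if x i then (-1 : ℝ) else 1) := by
    apply Finset.prod_congr rfl
    intro i hi
    rw [fl_ne (Finset.ne_of_mem_erase hi)]
  rw [h1, fl_self]
  cases x j <;> simp

theorem char_zero {U : Finset (Fin n)} {j : Fin n} (h : j ∈ U) {g : Cube n → ℝ}
    (hg : ∀ x, g (fl j x) = g x) : Ex (fun x => g x * chi U x) = 0 := by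
  have h1 := Ex_fl j (fun x => g x * chi U x)
  have h2 : Ex (fun x => g (fl j x) * chi U (fl j x)) = - Ex (fun x => g x * chi U x) := by
    have h3 : ∀ x, g (fl j x) * chi U (fl j x) = (-1) * (g x * chi U x) := by
      intro x
      rw [hg, chi_fl_mem h]
      ring
    rw [Ex_congr h3, Ex_mul_left]
    ring
  rw [h2] at h1
  linarith

/-- The restriction of an average. -/
theorem Ex_patch (z : Cube n) : ∀ (V : Finset (Fin n)) (h : Cube n → ℝ),
    Ex (fun x => ind (∀ j ∈ V, x j = z j) * h x) = (1 / 2) ^ V.card * Ex (fun x => h (patch V z x)) := by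
  intro V
  induction V using Finset.induction with
  | empty =>
    intro h
    rw [Finset.card_empty, pow_zero, one_mul]
    apply Ex_congr
    intro x
    rw [ind_true (by simp), one_mul, patch_empty]
  | insert j V hj ih =>
    intro h
    rw [Finset.card_insert_of_notMem hj]
    have h1 : ∀ x, ind (∀ i ∈ insert j V, x i = z i) * h x =
        ind (∀ i ∈ V, x i = z i) * (ind (x j = z j) * h x) := by
      intro x
      rw [← mul_assoc, ← ind_and]
      congr 1
      apply ind_congr
      rw [Finset.forall_mem_insert]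
      tauto
    rw [Ex_congr h1, ih]
    have h2 : ∀ x, ind (patch V z x j = z j) * h (patch V z x) =
        ind (x j = z j) * h (patch (insert j V) z x) := by
      intro x
      rw [patch_not hj]
      by_cases hx : x j = z j
      · rw [ind_true hx, one_mul, one_mul]
        congr 1
        funext i
        by_cases hi : i = j
        · subst hi
          rw [patch_not hj, patch_mem (Finset.mem_insert_self _ _), hx]
        · by_cases hi' : i ∈ V
          · rw [patch_mem hi', patch_mem (Finset.mem_insert_of_mem hi')]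
          · rw [patch_not hi', patch_not]
            rw [Finset.mem_insert]
            tauto
      · rw [ind_false hx, zero_mul, zero_mul]
    rw [Ex_congr h2]
    have h3 : Ex (fun x => h (patch (insert j V) z x)) =
        2 * Ex (fun x => ind (x j = z j) * h (patch (insert j V) z x)) := by
      have h4 := Ex_fl j (fun x => ind (x j = z j) * h (patch (insert j V) z x))
      have h5 : ∀ x, ind (fl j x j = z j) * h (patch (insert j V) z (fl j x)) =
          (1 - ind (x j = z j)) * h (patch (insert j V) z x) := by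
        intro x
        rw [← ind_not, fl_self]
        congr 1
        · apply ind_congr
          cases x j <;> cases z j <;> simp
        · congr 1
          funext i
          by_cases hi : i ∈ insert j V
          · rw [patch_mem hi, patch_mem hi]
          · rw [patch_not hi, patch_not hi, fl_ne]
            rintro rfl
            exact hi (Finset.mem_insert_self _ _)
      rw [Ex_congr h5] at h4
      have h6 : ∀ x, (1 - ind (x j = z j)) * h (patch (insert j V) z x) =
          h (patch (insert j V) z x) - ind (x j = z j) * h (patch (insert j V) z x) := by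
        intro x
        ring
      rw [Ex_congr h6, Ex_sub] at h4
      linarith
    rw [h3, pow_succ]
    ring

/-- The indicator point of a set. -/
def pt (A : Finset (Fin n)) : Cube n := fun j => decide (j ∈ A)

/-- The average over all restrictions of `Q`. -/
theorem Pr_avg (Q : Finset (Fin n)) (P : Cube n → Prop) :
    Pr P = (1 / 2) ^ Q.card * ∑ A ∈ Q.powerset, Pr (fun x => P (patch Q (pt A) x)) := by
  classical
  rw [Finset.mul_sum]
  have h1 : ∀ A ∈ Q.powerset, (1 / 2) ^ Q.card * Pr (fun x => P (patch Q (pt A) x)) =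
      Pr (fun x => (∀ j ∈ Q, x j = pt A j) ∧ P x) := by
    intro A _
    rw [Pr_patch]
  rw [Finset.sum_congr rfl h1]
  have h2 : ∀ A ∈ Q.powerset, Pr (fun x => (∀ j ∈ Q, x j = pt A j) ∧ P x) =
      Ex (fun x => ind ((∀ j ∈ Q, x j = pt A j) ∧ P x)) := fun A _ => (Ex_ind _).symm
  rw [Finset.sum_congr rfl h2, ← Ex_sum, ← Ex_ind]
  apply Ex_congr
  intro x
  rw [Finset.sum_eq_single (Q.filter (fun j => x j = true))]
  · apply ind_congr
    constructor
    · intro h
      refine ⟨?_, h⟩
      intro j hj
      unfold pt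
      by_cases hx : x j = true
      · simp [hj, hx]
      · simp [hj, hx]
    · exact fun h => h.2
  · intro A hA hne
    apply ind_false
    rintro ⟨h, _⟩
    apply hne
    ext j
    rw [Finset.mem_filter]
    have hA' := Finset.mem_powerset.1 hA
    constructor
    · intro hj
      refine ⟨hA' hj, ?_⟩
      rw [h j (hA' hj)]
      unfold pt
      simpa using hj
    · rintro ⟨hj, hx⟩
      rw [h j hj] at hx
      unfold pt at hx
      simpa using hx
  · intro h
    exact absurd (Finset.mem_powerset.2 (Finset.filter_subset _ _)) h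

end Pool.Agent.H687.CD
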