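import Pool.Agent.H687.CD.Weight

/-!
# Chains of terms
-/

set_option linter.unusedSectionVars false

namespace Pool.Agent.H687.CD

open Finset
open Pool.Agent.H685R2.RK

section

variable {n : ℕ} {ι : Type} [DecidableEq ι] (F : ι → Finset (Fin n)) (v : ι → Fin n → Bool)

/-- The union of the sets of a list. -/
def UL (L : List ι) : Finset (Fin n) := L.foldr (fun i acc => F i ∪ acc) ∅

theorem UL_cons (y : ι) (L : List ι) : UL F (y :: L) = F y ∪ UL F L := rfl

theorem mem_UL {L : List ι} {j : Fin n} : j ∈ UL F L ↔ ∃ i ∈ L, j ∈ F i := by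
  induction L with
  | nil => simp [UL]
  | cons y L ih =>
    rw [UL_cons, Finset.mem_union, ih]
    simp

/-- The term `y` is at least as wide as the terms of `L` and has small intersections with them. -/
def Rl (a : ℕ) (y : ι) (L : List ι) : Prop :=
  ∀ x ∈ L, (F x).card ≤ (F y).card ∧ 2 * a * (F y ∩ F x).card < (F y).card

open Classical in
/-- The chains of length `j`. -/
noncomputable def chs (a : ℕ) (A : Finset ι) : ℕ → Finset (List ι)
  | 0 => {[]}
  | j + 1 => ((A ×ˢ chs a A j).filter (fun p => Rl F a p.1 p.2)).image (fun p => p.1 :: p.2)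

variable {F v} {I A : Finset ι} {a c k : ℕ}

theorem mem_chs_succ {j : ℕ} {L' : List ι} : L' ∈ chs F a A (j + 1) ↔
    ∃ y L, y ∈ A ∧ L ∈ chs F a A j ∧ Rl F a y L ∧ L' = y :: L := by
  classical
  rw [chs]
  simp only [Finset.mem_image, Finset.mem_filter, Finset.mem_product, Prod.exists]
  constructor
  · rintro ⟨y, L, ⟨⟨h1, h2⟩, h3⟩, rfl⟩
    exact ⟨y, L, h1, h2, h3, rfl⟩
  · rintro ⟨y, L, h1, h2, h3, rfl⟩
    exact ⟨y, L, ⟨⟨h1, h2⟩, h3⟩, rfl⟩

theorem chs_mem : ∀ {j : ℕ} {L : List ι}, L ∈ chs F a A j → L.length = j ∧ ∀ x ∈ L, x ∈ A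
  | 0, L, h => by
    unfold chs at h
    rw [Finset.mem_singleton] at h
    subst h
    simp
  | j + 1, L', h => by
    obtain ⟨y, L, h1, h2, _, rfl⟩ := mem_chs_succ.1 h
    obtain ⟨h3, h4⟩ := chs_mem h2
    refine ⟨by rw [List.length_cons, h3], ?_⟩
    intro x hx
    rcases List.mem_cons.1 hx with rfl | hx
    · exact h1
    · exact h4 x hx

theorem chs_mono {B : Finset ι} (hAB : A ⊆ B) : ∀ {j : ℕ} {L : List ι}, L ∈ chs F a A j →
    L ∈ chs F a B j
  | 0, L, h => by
    unfold chs at h ⊢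
    exact h
  | j + 1, L', h => by
    obtain ⟨y, L, h1, h2, h3, rfl⟩ := mem_chs_succ.1 h
    exact mem_chs_succ.2 ⟨y, L, hAB h1, chs_mono hAB h2, h3, rfl⟩

/-- Long chains exist in large families. -/
theorem chain_exists (hcd : CoDeg F I c k) (ha : 0 < a) : ∀ (j : ℕ) (A : Finset ι), A ⊆ I →
    (∀ i ∈ A, 4 * a * c ≤ (F i).card) → j * (k * (4 * a) ^ c) < A.card → ∃ L, L ∈ chs F a A j
  | 0, A, _, _, _ => ⟨[], by unfold chs; simp⟩
  | j + 1, A, hAI, hA, hc => by
    classical
    have hne : A.Nonempty := by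
      rw [← Finset.card_pos]
      exact lt_of_le_of_lt (Nat.zero_le _) hc
    obtain ⟨y, hy, hmax⟩ := Finset.exists_max_image A (fun i => (F i).card) hne
    set Bl := A.filter (fun i => (F y).card ≤ 2 * a * (F i ∩ F y).card) with hBl
    have h1 : Bl.card ≤ k * (4 * a) ^ c := by
      apply hcd.count_frac (F y) ((Finset.filter_subset _ _).trans hAI) (hA y hy) ha
      intro i hi
      exact (Finset.mem_filter.1 hi).2
    have h2 : j * (k * (4 * a) ^ c) < (A \ Bl).card := by
      have h3 := Finset.le_card_sdiff Bl A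
      have h4 : (j + 1) * (k * (4 * a) ^ c) = j * (k * (4 * a) ^ c) + k * (4 * a) ^ c := by ring
      omega
    obtain ⟨L, hL⟩ := chain_exists hcd ha j (A \ Bl) (Finset.sdiff_subset.trans hAI)
      (fun i hi => hA i (Finset.sdiff_subset hi)) h2
    refine ⟨y :: L, mem_chs_succ.2 ⟨y, L, hy, chs_mono Finset.sdiff_subset hL, ?_, rfl⟩⟩
    intro x hx
    have h3 := (chs_mem hL).2 x hx
    rw [Finset.mem_sdiff, hBl, Finset.mem_filter] at h3
    refine ⟨hmax x h3.1, ?_⟩
    have h4 : ¬ (F y).card ≤ 2 * a * (F x ∩ F y).card := fun h => h3.2 ⟨h3.1, h⟩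
    rw [Finset.inter_comm]
    omega

theorem card_UL_le {L : List ι} {m : ℕ} (h : ∀ x ∈ L, (F x).card ≤ m) :
    (UL F L).card ≤ L.length * m := by
  induction L with
  | nil => simp [UL]
  | cons y L ih =>
    rw [UL_cons, List.length_cons]
    have h1 := ih (fun x hx => h x (List.mem_cons_of_mem _ hx))
    have h2 := h y List.mem_cons_self
    have h3 := Finset.card_union_le (F y) (UL F L)
    calc _ ≤ _ := h3
      _ ≤ m + L.length * m := by omega
      _ = _ := by ring

theorem inter_UL_le {L : List ι} {y : ι} {m : ℕ} (h : ∀ x ∈ L, 2 * a * (F y ∩ F x).card ≤ m) :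
    2 * a * (F y ∩ UL F L).card ≤ L.length * m := by
  induction L with
  | nil => simp [UL]
  | cons x L ih =>
    rw [UL_cons, List.length_cons, Finset.inter_union_distrib_left]
    have h1 := ih (fun x hx => h x (List.mem_cons_of_mem _ hx))
    have h2 := h x List.mem_cons_self
    have h3 := Finset.card_union_le (F y ∩ F x) (F y ∩ UL F L)
    calc 2 * a * (F y ∩ F x ∪ F y ∩ UL F L).card ≤
        2 * a * ((F y ∩ F x).card + (F y ∩ UL F L).card) := Nat.mul_le_mul_left _ h3
      _ = 2 * a * (F y ∩ F x).card + 2 * a * (F y ∩ UL F L).card := by ring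
      _ ≤ m + L.length * m := by omega
      _ = _ := by ring

/-- The sum over the chains. -/
theorem sum_chs {β : ℝ} (hβ : 0 ≤ β) : ∀ (j : ℕ),
    (∀ j' < j, ∀ L ∈ chs F a A j', ∑ y ∈ A, ind (Rl F a y L) * (1 / 2 : ℝ) ^ (F y \ UL F L).card ≤ β) →
    ∑ L ∈ chs F a A j, (1 / 2 : ℝ) ^ (UL F L).card ≤ β ^ j
  | 0, _ => by
    unfold chs
    rw [Finset.sum_singleton, pow_zero]
    simp [UL]
  | j + 1, h => by
    classical
    have ih := sum_chs hβ j (fun j' hj' => h j' (Nat.lt_succ_of_lt hj'))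
    have h1 : ∑ L ∈ chs F a A (j + 1), (1 / 2 : ℝ) ^ (UL F L).card =
        ∑ p ∈ (A ×ˢ chs F a A j).filter (fun p => Rl F a p.1 p.2),
          (1 / 2 : ℝ) ^ (F p.1 ∪ UL F p.2).card := by
      have h2 : chs F a A (j + 1) = ((A ×ˢ chs F a A j).filter
          (fun p => Rl F a p.1 p.2)).image (fun p => p.1 :: p.2) := by
        ext L
        rw [mem_chs_succ]
        simp only [Finset.mem_image, Finset.mem_filter, Finset.mem_product, Prod.exists]
        constructor
        · rintro ⟨y, L, h1, h2, h3, rfl⟩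
          exact ⟨y, L, ⟨⟨h1, h2⟩, h3⟩, rfl⟩
        · rintro ⟨y, L, ⟨⟨h1, h2⟩, h3⟩, rfl⟩
          exact ⟨y, L, h1, h2, h3, rfl⟩
      rw [h2, Finset.sum_image]
      · rfl
      · rintro ⟨y, L⟩ _ ⟨y', L'⟩ _ h
        simp only [List.cons.injEq] at h
        exact Prod.ext h.1 h.2
    rw [h1, Finset.sum_filter, Finset.sum_product_right]
    have h3 : ∀ L ∈ chs F a A j, ∑ y ∈ A, (if Rl F a (y, L).1 (y, L).2 then
        (1 / 2 : ℝ) ^ (F (y, L).1 ∪ UL F (y, L).2).card else 0) ≤
        (1 / 2) ^ (UL F L).card * β := by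
      intro L hL
      refine le_trans (le_of_eq ?_) (mul_le_mul_of_nonneg_left (h j (Nat.lt_succ_self j) L hL)
        (by positivity))
      rw [Finset.mul_sum]
      apply Finset.sum_congr rfl
      intro y _
      simp only
      by_cases hR : Rl F a y L
      · rw [if_pos hR, ind_true hR, one_mul, ← pow_add]
        congr 1
        rw [← Finset.sdiff_union_self_eq_union, Finset.card_union_of_disjoint
          Finset.sdiff_disjoint, add_comm]
      · rw [if_neg hR, ind_false hR, zero_mul, mul_zero]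
    refine (Finset.sum_le_sum h3).trans ?_
    rw [← Finset.sum_mul, pow_succ]
    exact mul_le_mul_of_nonneg_right ih hβ

end

/-- The numerical constant for the next lemma. -/
theorem beta_num (a c k r : ℕ) : ∃ K : ℝ, 0 < K ∧ ∀ {n : ℕ} {ι : Type} [DecidableEq ι]
    (F : ι → Finset (Fin n)) (I : Finset ι), CoDeg F I c k → ∀ (A : Finset ι), A ⊆ I →
    ∀ (S : Finset (Fin n)) (u : ℕ), S.card ≤ r → (∀ y ∈ A, ∃ s ∈ S, s ∈ F y) →
    (∀ s ∈ S, nu F I s ≤ (1 / 2) ^ u) → ∀ L : List ι, L.length ≤ a → 0 < a →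
    ∑ y ∈ A, ind (Rl F a y L) * (1 / 2 : ℝ) ^ (F y \ UL F L).card ≤ K * (4 / 5) ^ u := by
  obtain ⟨K, hK, hKw⟩ := pg_bound c (r := 3 / 4) (s := 4 / 5) (by norm_num) (by norm_num)
  refine ⟨2 ^ c * r + k * a ^ c * K * 5 + 1, by positivity, ?_⟩
  intro n ι _ F I hcd A hA S u hS hAS hnu L hL ha
  classical
  have hwide : ∀ y ∈ A, u ≤ (F y).card := by
    intro y hy
    obtain ⟨s, hs, hsy⟩ := hAS y hy
    have h1 : (1 / 2 : ℝ) ^ (F y).card ≤ nu F I s := by
      unfold nu
      exact Finset.single_le_sum (f := fun i => (1 / 2 : ℝ) ^ (F i).card)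
        (fun _ _ => by positivity) (Finset.mem_filter.2 ⟨hA hy, hsy⟩)
    have h2 := h1.trans (hnu s hs)
    by_contra hcon
    push Not at hcon
    have h3 : (1 / 2 : ℝ) ^ u < (1 / 2) ^ (F y).card :=
      pow_lt_pow_right_of_lt_one₀ (by norm_num) (by norm_num) hcon
    linarith
  have hsplit : ∀ y ∈ A, ind (Rl F a y L) * (1 / 2 : ℝ) ^ (F y \ UL F L).card ≤
      2 ^ c * (1 / 2) ^ (F y).card +
        ind (Rl F a y L ∧ c ≤ (F y ∩ UL F L).card) * (3 / 4) ^ (F y).card := by
    intro y _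
    by_cases hR : Rl F a y L
    · rw [ind_true hR, one_mul]
      have hcard := Finset.card_sdiff_add_card_inter (F y) (UL F L)
      by_cases hc : c ≤ (F y ∩ UL F L).card
      · rw [ind_true ⟨hR, hc⟩, one_mul]
        have h1 : 2 * a * (F y ∩ UL F L).card ≤ a * (F y).card :=
          (inter_UL_le (fun x hx => (hR x hx).2.le)).trans (Nat.mul_le_mul_right _ hL)
        have h2 : 2 * (F y ∩ UL F L).card ≤ (F y).card := by
          have h3 : a * (2 * (F y ∩ UL F L).card) ≤ a * (F y).card := by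
            calc _ = 2 * a * (F y ∩ UL F L).card := by ring
              _ ≤ _ := h1
          exact Nat.le_of_mul_le_mul_left h3 ha
        have h4 : (1 / 2 : ℝ) ^ (F y \ UL F L).card ≤ (3 / 4) ^ (F y).card := by
          calc (1 / 2 : ℝ) ^ (F y \ UL F L).card ≤ (9 / 16) ^ (F y \ UL F L).card :=
                pow_le_pow_left₀ (by norm_num) (by norm_num) _
            _ = (3 / 4) ^ (2 * (F y \ UL F L).card) := by
                rw [pow_mul]; norm_num
            _ ≤ _ := pow_le_pow_of_le_one (by norm_num) (by norm_num) (by omega)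
        have h5 : (0 : ℝ) ≤ 2 ^ c * (1 / 2) ^ (F y).card := by positivity
        linarith
      · have h1 : (1 / 2 : ℝ) ^ (F y \ UL F L).card ≤ 2 ^ c * (1 / 2) ^ (F y).card := by
          have h5 : (1 / 2 : ℝ) ^ ((F y \ UL F L).card + c) ≤ (1 / 2) ^ (F y).card :=
            pow_le_pow_of_le_one (by norm_num) (by norm_num) (by omega)
          rw [pow_add] at h5
          have h6 : (2 : ℝ) ^ c * (1 / 2) ^ c = 1 := by
            rw [← mul_pow]; norm_num
          calc (1 / 2 : ℝ) ^ (F y \ UL F L).card =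
              2 ^ c * ((1 / 2 : ℝ) ^ (F y \ UL F L).card * (1 / 2) ^ c) := by
                rw [mul_comm ((1 / 2 : ℝ) ^ (F y \ UL F L).card), ← mul_assoc, h6, one_mul]
            _ ≤ _ := mul_le_mul_of_nonneg_left h5 (by positivity)
        have h7 : 0 ≤ ind (Rl F a y L ∧ c ≤ (F y ∩ UL F L).card) * (3 / 4 : ℝ) ^ (F y).card :=
          mul_nonneg (ind_nonneg _) (by positivity)
        linarith
    · rw [ind_false hR, zero_mul]
      have h7 : 0 ≤ ind (Rl F a y L ∧ c ≤ (F y ∩ UL F L).card) * (3 / 4 : ℝ) ^ (F y).card :=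
        mul_nonneg (ind_nonneg _) (by positivity)
      positivity
  refine (Finset.sum_le_sum hsplit).trans ?_
  rw [Finset.sum_add_distrib, ← Finset.mul_sum]
  have hpart1 : ∑ y ∈ A, (1 / 2 : ℝ) ^ (F y).card ≤ r * (1 / 2) ^ u := by
    have h1 : ∑ y ∈ A, (1 / 2 : ℝ) ^ (F y).card ≤ ∑ s ∈ S, nu F I s := by
      rw [sum_nu]
      calc ∑ y ∈ A, (1 / 2 : ℝ) ^ (F y).card ≤
          ∑ y ∈ A, ((F y ∩ S).card : ℝ) * (1 / 2) ^ (F y).card := by
            apply Finset.sum_le_sum
            intro y hy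
            obtain ⟨s, hs, hsy⟩ := hAS y hy
            have h2 : 1 ≤ (F y ∩ S).card := by
              rw [Nat.one_le_iff_ne_zero, Finset.card_ne_zero]
              exact ⟨s, Finset.mem_inter.2 ⟨hsy, hs⟩⟩
            have h3 : (1 : ℝ) ≤ (F y ∩ S).card := by exact_mod_cast h2
            have h4 : (0 : ℝ) < (1 / 2) ^ (F y).card := by positivity
            nlinarith
        _ ≤ _ := Finset.sum_le_sum_of_subset_of_nonneg hA fun _ _ _ => by positivity
    refine h1.trans ((Finset.sum_le_card_nsmul _ _ _ hnu).trans ?_)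
    rw [nsmul_eq_mul]
    apply mul_le_mul_of_nonneg_right _ (by positivity)
    exact_mod_cast hS
  have hpart2 : ∑ y ∈ A, ind (Rl F a y L ∧ c ≤ (F y ∩ UL F L).card) * (3 / 4 : ℝ) ^ (F y).card ≤
      k * a ^ c * K * 5 * (4 / 5) ^ u := by
    have h0 : ∀ y ∈ A, (F y).card ∈ (Finset.range (n + 1)).filter (fun w => u ≤ w) := by
      intro i hi
      rw [Finset.mem_filter, Finset.mem_range]
      have : (F i).card ≤ n := by
        have := Finset.card_le_univ (F i)
        rwa [Fintype.card_fin] at this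
      exact ⟨by omega, hwide i hi⟩
    rw [← Finset.sum_fiberwise_of_maps_to h0]
    have h1 : ∀ m ∈ (Finset.range (n + 1)).filter (fun w => u ≤ w),
        ∑ y ∈ A.filter (fun y => (F y).card = m),
          ind (Rl F a y L ∧ c ≤ (F y ∩ UL F L).card) * (3 / 4 : ℝ) ^ (F y).card ≤
          k * a ^ c * K * (4 / 5) ^ m := by
      intro m _
      have h2 : ∑ y ∈ A.filter (fun y => (F y).card = m),
          ind (Rl F a y L ∧ c ≤ (F y ∩ UL F L).card) * (3 / 4 : ℝ) ^ (F y).card =
          ∑ y ∈ (A.filter (fun y => (F y).card = m)).filter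
            (fun y => Rl F a y L ∧ c ≤ (F y ∩ UL F L).card), (3 / 4 : ℝ) ^ m := by
        rw [Finset.sum_filter (fun y => Rl F a y L ∧ c ≤ (F y ∩ UL F L).card)]
        apply Finset.sum_congr rfl
        intro y hy
        rw [(Finset.mem_filter.1 hy).2]
        unfold ind
        split_ifs <;> simp
      rw [h2, Finset.sum_const, nsmul_eq_mul]
      set J := (A.filter (fun y => (F y).card = m)).filter
            (fun y => Rl F a y L ∧ c ≤ (F y ∩ UL F L).card) with hJ
      have h3 : J.card ≤ k * (a * (m + 1)) ^ c := by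
        rcases J.eq_empty_or_nonempty with he | ⟨y₀, hy₀⟩
        · rw [he, Finset.card_empty]
          exact Nat.zero_le _
        · have h4 : J.card ≤ k * (UL F L).card ^ c := by
            apply hcd.count_ge (UL F L)
              (((Finset.filter_subset _ _).trans (Finset.filter_subset _ _)).trans hA)
            intro i hi
            exact (Finset.mem_filter.1 hi).2.2
          refine h4.trans (Nat.mul_le_mul_left _ (Nat.pow_le_pow_left ?_ _))
          rw [hJ, Finset.mem_filter, Finset.mem_filter] at hy₀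
          have h5 : (UL F L).card ≤ L.length * m := by
            apply card_UL_le
            intro x hx
            have h6 := (hy₀.2.1 x hx).1
            rw [hy₀.1.2] at h6
            exact h6
          exact h5.trans (Nat.mul_le_mul hL (Nat.le_succ m))
      have h4 : (J.card : ℝ) ≤ k * (a * ((m + 1 : ℕ) : ℝ)) ^ c := by exact_mod_cast h3
      calc (J.card : ℝ) * (3 / 4) ^ m ≤ k * (a * ((m + 1 : ℕ) : ℝ)) ^ c * (3 / 4) ^ m :=
            mul_le_mul_of_nonneg_right h4 (by positivity)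
        _ = k * a ^ c * (((m + 1 : ℕ) : ℝ) ^ c * (3 / 4) ^ m) := by rw [mul_pow]; ring
        _ ≤ k * a ^ c * (K * (4 / 5) ^ m) :=
            mul_le_mul_of_nonneg_left (hKw m) (by positivity)
        _ = _ := by ring
    refine (Finset.sum_le_sum h1).trans ?_
    rw [← Finset.mul_sum]
    have h2 := geo_tail (s := 4 / 5) (by norm_num) (by norm_num) u (n + 1)
    calc k * a ^ c * K * ∑ w ∈ (Finset.range (n + 1)).filter (fun w => u ≤ w), (4 / 5 : ℝ) ^ w
        ≤ k * a ^ c * K * ((4 / 5) ^ u / (1 - 4 / 5)) :=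
          mul_le_mul_of_nonneg_left h2 (by positivity)
      _ = _ := by ring
  have h1 : (1 / 2 : ℝ) ^ u ≤ (4 / 5) ^ u := pow_le_pow_left₀ (by norm_num) (by norm_num) _
  have h2 : (2 : ℝ) ^ c * ∑ y ∈ A, (1 / 2 : ℝ) ^ (F y).card ≤ 2 ^ c * r * (4 / 5) ^ u := by
    calc (2 : ℝ) ^ c * ∑ y ∈ A, (1 / 2 : ℝ) ^ (F y).card ≤ 2 ^ c * (r * (1 / 2) ^ u) :=
          mul_le_mul_of_nonneg_left hpart1 (by positivity)
      _ ≤ 2 ^ c * (r * (4 / 5) ^ u) := by
          apply mul_le_mul_of_nonneg_left _ (by positivity)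
          exact mul_le_mul_of_nonneg_left h1 (by positivity)
      _ = _ := by ring
  have h3 : (0 : ℝ) < (4 / 5) ^ u := by positivity
  nlinarith

end Pool.Agent.H687.CD
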