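import Pool.Agent.H687.CD.Find

/-!
# Clean functions are covered by detected terms
-/

set_option linter.unusedSectionVars false

namespace Pool.Agent.H687.CD

open Finset
open Pool.Agent.H685R2.RK

section

variable {n : ℕ}

/-- The function is given by a family of terms with bounded codegree. -/
def Rep (c k : ℕ) (f : Cube n → Bool) : Prop :=
  ∃ (ι : Type) (_ : DecidableEq ι) (F : ι → Finset (Fin n)) (v : ι → Fin n → Bool) (I : Finset ι),
    CoDeg F I c k ∧ ∀ x, f x = true ↔ ∃ i ∈ I, Tr F v i x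

theorem Rep.res {c k : ℕ} {f : Cube n → Bool} (h : Rep c k f) (Q : Finset (Fin n)) (u : Cube n) :
    Rep c k (fun x => f (patch Q u x)) := by
  classical
  obtain ⟨ι, _, F, v, I, hcd, hf⟩ := h
  refine ⟨ι, inferInstance, fun i => F i \ Q, v, I.filter (fun i => Alive F v Q u i), ?_, ?_⟩
  · intro A hA
    refine le_trans (Finset.card_le_card ?_) (hcd A hA)
    intro i hi
    rw [Finset.mem_filter, Finset.mem_filter] at hi
    rw [Finset.mem_filter]
    exact ⟨hi.1.1, hi.2.trans Finset.sdiff_subset⟩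
  · intro x
    rw [hf]
    constructor
    · rintro ⟨i, hi, hT⟩
      refine ⟨i, Finset.mem_filter.2 ⟨hi, ?_⟩, ?_⟩
      · intro j hj hjQ
        rw [← hT j hj, patch_mem hjQ]
      · intro j hj
        rw [Finset.mem_sdiff] at hj
        rw [← hT j hj.1, patch_not hj.2]
    · rintro ⟨i, hi, hT⟩
      rw [Finset.mem_filter] at hi
      exact ⟨i, hi.1, (tr_patch hi.2 x).2 hT⟩

theorem exists_irr {ι : Type} [DecidableEq ι] (F : ι → Finset (Fin n)) (v : ι → Fin n → Bool) :
    ∀ I : Finset ι, ∃ J ⊆ I, Irr F v J ∧ ∀ x, (∃ i ∈ I, Tr F v i x) ↔ ∃ i ∈ J, Tr F v i x := by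
  intro I
  induction I using Finset.strongInduction with
  | H I ih =>
    by_cases h : Irr F v I
    · exact ⟨I, subset_rfl, h, fun x => Iff.rfl⟩
    · unfold Irr at h
      push Not at h
      obtain ⟨i, hi, h⟩ := h
      obtain ⟨J, hJ, hirr, hJx⟩ := ih (I.erase i) (Finset.erase_ssubset hi)
      refine ⟨J, hJ.trans (Finset.erase_subset _ _), hirr, ?_⟩
      intro x
      rw [← hJx]
      constructor
      · rintro ⟨i', hi', hT⟩
        by_cases he : i' = i
        · subst he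
          obtain ⟨i'', h1, h2⟩ := h x hT
          exact ⟨i'', h1, h2⟩
        · exact ⟨i', Finset.mem_erase.2 ⟨he, hi'⟩, hT⟩
      · rintro ⟨i', hi', hT⟩
        exact ⟨i', Finset.mem_of_mem_erase hi', hT⟩

/-- The statistic of `U` for the restriction of `f` to `z` on `V`. -/
noncomputable def Gam (f : Cube n → Bool) (V : Finset (Fin n)) (z : Cube n)
    (U : Finset (Fin n)) : ℝ :=
  Ex (fun x => ind (f (patch V z x) = false) * chi U x)

/-- The implicant is detectable. -/
def Det (f : Cube n → Bool) (D r cap : ℕ) (θ : ℝ) (T : Finset (Fin n)) (b : Cube n) : Prop :=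
  (∀ x : Cube n, (∀ j ∈ T, x j = b j) → f x = true) ∧
  (T.card ≤ D ∨ ∃ (V : Finset (Fin n)) (z : Cube n) (S : Finset (Fin n)), V.card ≤ D ∧
    S.card ≤ r ∧ Disjoint S V ∧ θ ≤ |Gam f V z S| ∧
    (∀ y ∈ T, y ∉ S → y ∉ V → 15 / 17 * |Gam f V z S| ≤ |Gam f V z (insert y S)|) ∧
    (Finset.univ.filter (fun y => y ∉ S ∧ y ∉ V ∧
      1 / 3 * |Gam f V z S| < |Gam f V z (insert y S)|)).card ≤ cap)

/-- The point satisfies a detectable implicant. -/
def Found (f : Cube n → Bool) (D r cap : ℕ) (θ : ℝ) (x : Cube n) : Prop :=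
  ∃ (T : Finset (Fin n)) (b : Cube n), Det f D r cap θ T b ∧ ∀ j ∈ T, x j = b j

end

/-- In a clean function almost all true points satisfy a detectable implicant. -/
theorem clean_cover (c k : ℕ) (hc : 1 ≤ c) (η β : ℝ) (hη : 0 < η) (hβ : 0 < β) :
    ∃ D C : ℕ, ∀ {n : ℕ} (f : Cube n → Bool), Rep c k f →
    (∀ (V : Finset (Fin n)) (z : Cube n), V.card ≤ q0P c k + c →
      η ≤ Pr (fun x => f (patch V z x) = false)) →
    ∀ lam : ℕ, (k : ℝ) * n ^ c * (1 / 2) ^ lam ≤ β / 2 →
    Pr (fun x => f x = true ∧ ¬ Found f D (rP c k) (lam + C) (η / 4 * (1 / 2) ^ lam) x) ≤ β := by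
  obtain ⟨M, hM, hMw⟩ := weight_bounded η hη k c
  obtain ⟨K, L1, hK, hbad⟩ := bad_weight c k
  obtain ⟨L2, hdet⟩ := detect c k hc η hη
  obtain ⟨L3, hL3⟩ := geo_small (s := 2 / 3) (δ := β / 2) K (by norm_num) (by norm_num)
    (by positivity)
  set ℓ := L1 + L2 + L3 + ⌈M⌉₊ + c + 1 with hℓ
  refine ⟨ℓ + q0P c k, ⌈32 / η⌉₊, ?_⟩
  intro n f hrep hclean lam hlam
  obtain ⟨ι, _, F, v, I₀, hcd₀, hf₀⟩ := hrep
  obtain ⟨I, hI, hirr, hIx⟩ := exists_irr F v I₀
  have hcd := hcd₀.mono hI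
  have hf : ∀ x, f x = true ↔ ∃ i ∈ I, Tr F v i x := fun x => (hf₀ x).trans (hIx x)
  have hsat : ∀ x, f x = false ↔ Sat F v I x := by
    intro x
    have h1 := hf x
    rw [← Bool.not_eq_true, h1]
    unfold Sat
    push Not
    rfl
  have hcl : ∀ (V : Finset (Fin n)) (z : Cube n), V.card ≤ q0P c k + c →
      η ≤ Pr (fun x => Sat F v I (patch V z x)) := by
    intro V z hV
    refine (hclean V z hV).trans (le_of_eq (Pr_congr fun x => ?_))
    exact hsat _
  have hOm : Om F I ≤ M := hMw F v I hcd fun V z hV => hcl V z (by omega)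
  have hGam : ∀ V z U, Gam f V z U = GamI F v I V z U := by
    intro V z U
    unfold Gam GamI
    apply Ex_congr
    intro x
    rw [ind_congr (hsat (patch V z x))]
  classical
  set B1 := I.filter (fun i => ℓ ≤ (F i).card ∧ Bad F I c i) with hB1
  set B2 := I.filter (fun i => ℓ ≤ (F i).card ∧ lam < (F i).card) with hB2
  have hmain : Pr (fun x => f x = true ∧ ¬ Found f (ℓ + q0P c k) (rP c k) (lam + ⌈32 / η⌉₊)
      (η / 4 * (1 / 2) ^ lam) x) ≤
      Pr (fun x => ∃ i ∈ B1, Tr F v i x) + Pr (fun x => ∃ i ∈ B2, Tr F v i x) := by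
    refine le_trans (Pr_mono fun x hx => ?_) (Pr_or_le _ _)
    obtain ⟨hx1, hx2⟩ := hx
    obtain ⟨i, hi, hT⟩ := (hf x).1 hx1
    by_contra hcon
    rw [not_or] at hcon
    obtain ⟨hc1, hc2⟩ := hcon
    apply hx2
    refine ⟨F i, v i, ⟨?_, ?_⟩, hT⟩
    · intro y hy
      exact (hf y).2 ⟨i, hi, hy⟩
    · by_cases hw : (F i).card ≤ ℓ + q0P c k
      · exact Or.inl hw
      right
      push Not at hw
      have hnb : ¬ Bad F I c i := by
        intro h
        exact hc1 ⟨i, Finset.mem_filter.2 ⟨hi, by omega, h⟩, hT⟩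
      have hnl : (F i).card ≤ lam := by
        by_contra h
        exact hc2 ⟨i, Finset.mem_filter.2 ⟨hi, by omega, by omega⟩, hT⟩
      obtain ⟨V, z, S, h1, h2, h3, h4, h5, h6⟩ := hdet F v I hcd hirr hcl i hi (by omega) hnb
      simp only [← hGam] at h4 h5 h6
      refine ⟨V, z, S, by omega, h2, h3, ?_, h5, ?_⟩
      · refine le_trans ?_ h4
        apply mul_le_mul_of_nonneg_left _ (by positivity)
        exact pow_le_pow_of_le_one (by norm_num) (by norm_num) hnl
      · have h7 : (32 / η : ℝ) ≤ ⌈32 / η⌉₊ := Nat.le_ceil _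
        have h8 : ((F i).card : ℝ) ≤ lam := by exact_mod_cast hnl
        have h9 := h6.trans (add_le_add h8 h7)
        exact_mod_cast h9
  refine hmain.trans ?_
  have e1 : Pr (fun x => ∃ i ∈ B1, Tr F v i x) ≤ β / 2 := by
    refine (Pr_exists_le _ _).trans ?_
    have h1 := hbad F I hcd ℓ (by omega) (by
      have h2 : M ≤ ⌈M⌉₊ := Nat.le_ceil _
      have h3 : (⌈M⌉₊ : ℝ) ≤ ℓ := by exact_mod_cast (by omega : ⌈M⌉₊ ≤ ℓ)
      have h4 : (1 : ℝ) ≤ ℓ := by exact_mod_cast (by omega : 1 ≤ ℓ)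
      nlinarith) B1 (Finset.filter_subset _ _) (fun i hi => (Finset.mem_filter.1 hi).2)
    refine le_trans ?_ (h1.trans (hL3 ℓ (by omega)))
    apply Finset.sum_le_sum
    intro i hi
    rw [Pr_Tr]
    have h2 : 1 ≤ (F i).card := by
      have := (Finset.mem_filter.1 hi).2.1
      omega
    have h3 : (1 : ℝ) ≤ (F i).card := by exact_mod_cast h2
    have h4 : (0 : ℝ) < (1 / 2) ^ (F i).card := by positivity
    nlinarith
  have e2 : Pr (fun x => ∃ i ∈ B2, Tr F v i x) ≤ β / 2 := by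
    refine (Pr_exists_le _ _).trans ?_
    refine le_trans ?_ hlam
    have h1 : ∀ i ∈ B2, Pr (Tr F v i) ≤ (1 / 2 : ℝ) ^ lam := by
      intro i hi
      rw [Pr_Tr]
      exact pow_le_pow_of_le_one (by norm_num) (by norm_num)
        (Finset.mem_filter.1 hi).2.2.le
    refine (Finset.sum_le_card_nsmul _ _ _ h1).trans ?_
    rw [nsmul_eq_mul]
    apply mul_le_mul_of_nonneg_right _ (by positivity)
    have h2 := hcd.count_ge Finset.univ (J := B2) (Finset.filter_subset _ _) (by
      intro i hi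
      rw [Finset.inter_univ]
      have := (Finset.mem_filter.1 hi).2.1
      omega)
    rw [Finset.card_univ, Fintype.card_fin] at h2
    exact_mod_cast h2
  linarith

end Pool.Agent.H687.CD
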