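import Pool.Agent.H687.CD.Cov

/-!
# The statistics of a term
-/

set_option linter.unusedSectionVars false

namespace Pool.Agent.H687.CD

open Finset
open Pool.Agent.H685R2.RK

section

variable {n : ℕ} {ι : Type} [DecidableEq ι] (F : ι → Finset (Fin n)) (v : ι → Fin n → Bool)

/-- The statistic of the set `U`, for the restriction to `z` on `V`. -/
noncomputable def GamI (I : Finset ι) (V : Finset (Fin n)) (z : Cube n) (U : Finset (Fin n)) : ℝ :=
  Ex (fun x => ind (Sat F v I (patch V z x)) * chi U x)

/-- The points at which only the term `i` is true, in the restriction. -/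
noncomputable def phi (I : Finset ι) (V : Finset (Fin n)) (z : Cube n) (i : ι) (x : Cube n) : ℝ :=
  ind (Sat F v (I.erase i) (patch V z x)) * ind (∀ j ∈ F i \ V, x j = v i j)

variable {F v} {I : Finset ι} {S V : Finset (Fin n)} {z : Cube n} {c k : ℕ} {i : ι}

theorem tr_patch (hal : Alive F v V z i) (x : Cube n) :
    Tr F v i (patch V z x) ↔ ∀ j ∈ F i \ V, x j = v i j := by
  constructor
  · intro h j hj
    rw [Finset.mem_sdiff] at hj
    rw [← h j hj.1, patch_not hj.2]
  · intro h j hj
    by_cases hjV : j ∈ V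
    · rw [patch_mem hjV]
      exact hal j hj hjV
    · rw [patch_not hjV]
      exact h j (Finset.mem_sdiff.2 ⟨hj, hjV⟩)

theorem GamI_eq (hi : i ∈ I) (hal : Alive F v V z i) (U : Finset (Fin n)) :
    GamI F v I V z U = Ex (fun x => ind (Sat F v (I.erase i) (patch V z x)) * chi U x) -
      Ex (fun x => phi F v I V z i x * chi U x) := by
  unfold GamI phi
  rw [← Ex_sub]
  apply Ex_congr
  intro x
  have h1 : ind (Sat F v I (patch V z x)) = ind (Sat F v (I.erase i) (patch V z x)) *
      (1 - ind (∀ j ∈ F i \ V, x j = v i j)) := by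
    rw [← ind_not, ← ind_and]
    apply ind_congr
    rw [← tr_patch hal]
    constructor
    · intro h
      exact ⟨fun i' hi' => h i' (Finset.mem_of_mem_erase hi'), h i hi⟩
    · rintro ⟨h, h'⟩ i' hi'
      by_cases he : i' = i
      · rw [he]; exact h'
      · exact h i' (Finset.mem_erase.2 ⟨he, hi'⟩)
  rw [h1]
  ring

theorem phi_nonneg (x : Cube n) : 0 ≤ phi F v I V z i x := mul_nonneg (ind_nonneg _) (ind_nonneg _)

theorem phi_sq (x : Cube n) : phi F v I V z i x * phi F v I V z i x = phi F v I V z i x := by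
  unfold phi
  rw [← ind_and, ind_mul_self]

theorem phi_mul_ind (x : Cube n) : phi F v I V z i x * ind (∀ j ∈ F i \ V, x j = v i j) =
    phi F v I V z i x := by
  unfold phi
  rw [mul_assoc, ind_mul_self]

theorem phi_chi {U : Finset (Fin n)} (hU : U ⊆ F i \ V) (x : Cube n) :
    phi F v I V z i x * chi U x = chi U (v i) * phi F v I V z i x := by
  unfold phi
  by_cases h : ∀ j ∈ F i \ V, x j = v i j
  · rw [chi_congr (fun j hj => h j (hU hj))]
    ring
  · rw [ind_false h]
    ring

theorem Ex_phi_chi {U : Finset (Fin n)} (hU : U ⊆ F i \ V) :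
    |Ex (fun x => phi F v I V z i x * chi U x)| = Ex (phi F v I V z i) := by
  rw [Ex_congr (fun x => phi_chi hU x), Ex_mul_left, abs_mul, abs_chi, one_mul,
    abs_of_nonneg (Ex_nonneg phi_nonneg)]

theorem Ex_phi_insert (hS : S ⊆ F i \ V) {y : Fin n} (hy : y ∉ S) :
    |Ex (fun x => phi F v I V z i x * chi (insert y S) x)| =
      |Ex (fun x => phi F v I V z i x * chi {y} x)| := by
  have h1 : ∀ x, phi F v I V z i x * chi (insert y S) x =
      chi S (v i) * (phi F v I V z i x * chi {y} x) := by
    intro x
    rw [chi_insert hy]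
    have h2 := phi_chi (I := I) (v := v) (z := z) hS x
    calc phi F v I V z i x * (chi {y} x * chi S x) = (phi F v I V z i x * chi S x) * chi {y} x := by
          ring
      _ = _ := by rw [h2]; ring
  rw [Ex_congr h1, Ex_mul_left, abs_mul, abs_chi, one_mul]

/-- Bessel's inequality on a subcube. -/
theorem bessel (Y : Finset (Fin n)) (hY : ∀ y ∈ Y, y ∉ F i \ V) {t : ℝ}
    (ht : ∀ y ∈ Y, t ≤ |Ex (fun x => phi F v I V z i x * chi {y} x)|) :
    2 * (Y.card * t * (Y.card * t)) ≤ Y.card * t * (Y.card * t) +
      Ex (phi F v I V z i) * (Y.card * (1 / 2) ^ (F i \ V).card) ∨ Y.card * t ≤ 0 := by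
  classical
  by_cases hYt : (Y.card : ℝ) * t ≤ 0
  · exact Or.inr hYt
  left
  push Not at hYt
  set φ := phi F v I V z i with hφ
  set π := Ex φ with hπ
  set T : Cube n → ℝ := fun x => ind (∀ j ∈ F i \ V, x j = v i j) with hT
  -- signs
  let σ : Fin n → ℝ := fun y => if 0 ≤ Ex (fun x => φ x * chi {y} x) then 1 else -1
  have hσ2 : ∀ y, σ y * σ y = 1 := by
    intro y
    simp only [σ]
    split_ifs <;> norm_num
  have hσ : ∀ y, σ y * Ex (fun x => φ x * chi {y} x) = |Ex (fun x => φ x * chi {y} x)| := by
    intro y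
    simp only [σ]
    split_ifs with h
    · rw [one_mul, abs_of_nonneg h]
    · rw [abs_of_neg (not_le.1 h)]
      ring
  let s : Cube n → ℝ := fun x => ∑ y ∈ Y, σ y * chi {y} x
  have h1 : Ex (fun x => φ x * s x) = ∑ y ∈ Y, |Ex (fun x => φ x * chi {y} x)| := by
    have h2 : ∀ x, φ x * s x = ∑ y ∈ Y, σ y * (φ x * chi {y} x) := by
      intro x
      simp only [s]
      rw [Finset.mul_sum]
      apply Finset.sum_congr rfl
      intro y _
      ring
    rw [Ex_congr h2, Ex_sum]
    apply Finset.sum_congr rfl
    intro y _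
    rw [Ex_mul_left, hσ]
  have h1' : (Y.card : ℝ) * t ≤ Ex (fun x => φ x * s x) := by
    rw [h1]
    have h3 := Finset.card_nsmul_le_sum Y (fun y => |Ex (fun x => φ x * chi {y} x)|) t ht
    rwa [nsmul_eq_mul] at h3
  have h2 : Ex (fun x => T x * (s x * s x)) = Y.card * (1 / 2) ^ (F i \ V).card := by
    have h3 : ∀ x, T x * (s x * s x) =
        ∑ y ∈ Y, ∑ y' ∈ Y, σ y * σ y' * (T x * (chi {y} x * chi {y'} x)) := by
      intro x
      simp only [s]
      rw [Finset.sum_mul_sum, Finset.mul_sum]
      apply Finset.sum_congr rfl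
      intro y _
      rw [Finset.mul_sum]
      apply Finset.sum_congr rfl
      intro y' _
      ring
    rw [Ex_congr h3, Ex_sum]
    have h4 : ∀ y ∈ Y, Ex (fun x => ∑ y' ∈ Y, σ y * σ y' * (T x * (chi {y} x * chi {y'} x))) =
        (1 / 2) ^ (F i \ V).card := by
      intro y hy
      rw [Ex_sum, Finset.sum_eq_single y]
      · rw [Ex_mul_left, hσ2, one_mul]
        have h5 : ∀ x, T x * (chi {y} x * chi {y} x) = T x := by
          intro x
          rw [chi_sq, mul_one]
        rw [Ex_congr h5, hT, Ex_ind, Pr_pat]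
      · intro y' _ hne
        rw [Ex_mul_left]
        have h5 : Ex (fun x => (T x * chi {y'} x) * chi {y} x) = 0 := by
          apply char_zero (j := y) (by simp)
          intro x
          congr 1
          · apply ind_congr
            constructor
            · intro h j hj
              rw [← h j hj, fl_ne]
              rintro rfl
              exact hY _ hy hj
            · intro h j hj
              rw [← h j hj, fl_ne]
              rintro rfl
              exact hY _ hy hj
          · apply chi_congr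
            intro j hj
            rw [Finset.mem_singleton] at hj
            subst hj
            rw [fl_ne hne]
        have h6 : ∀ x, T x * (chi {y} x * chi {y'} x) = (T x * chi {y'} x) * chi {y} x := by
          intro x
          ring
        rw [Ex_congr h6, h5, mul_zero]
      · intro h
        exact absurd hy h
    rw [Finset.sum_congr rfl h4, Finset.sum_const, nsmul_eq_mul]
  -- the square
  have hφT : ∀ x, φ x * T x = φ x := fun x => phi_mul_ind x
  have hφ2 : ∀ x, φ x * φ x = φ x := fun x => phi_sq x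
  have hπ0 : 0 ≤ π := Ex_nonneg phi_nonneg
  set m := Ex (fun x => φ x * s x) with hm
  -- 0 ≤ Ex (T (m φ - π s)^2) = m^2 π - 2 m π m + π^2 |Y| 2^{-w}
  have h3 : 0 ≤ Ex (fun x => T x * ((m * φ x - π * s x) * (m * φ x - π * s x))) := by
    apply Ex_nonneg
    intro x
    exact mul_nonneg (ind_nonneg _) (mul_self_nonneg _)
  have h4 : ∀ x, T x * ((m * φ x - π * s x) * (m * φ x - π * s x)) =
      (m * m) * φ x - (2 * m * π) * (φ x * s x) + (π * π) * (T x * (s x * s x)) := by
    intro x
    have e1 := hφT x
    have e2 := hφ2 x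
    calc T x * ((m * φ x - π * s x) * (m * φ x - π * s x)) =
        (m * m) * ((φ x * φ x) * T x) - (2 * m * π) * ((φ x * T x) * s x) +
          (π * π) * (T x * (s x * s x)) := by ring
      _ = _ := by rw [e2, e1]
  have h4' : ∀ x, (m * m) * φ x - (2 * m * π) * (φ x * s x) + (π * π) * (T x * (s x * s x)) =
      (m * m) * φ x - ((2 * m * π) * (φ x * s x) - (π * π) * (T x * (s x * s x))) := by
    intro x; ring
  rw [Ex_congr h4, Ex_congr h4', Ex_sub, Ex_sub, Ex_mul_left, Ex_mul_left, Ex_mul_left, h2,
    ← hm] at h3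
  have h5 : Ex φ = π := rfl
  rw [h5] at h3
  -- m ≤ π-something: conclude
  set Q : ℝ := Y.card * (1 / 2) ^ (F i \ V).card with hQ
  have hQ0 : 0 ≤ Q := by positivity
  have hmpos : 0 < m := lt_of_lt_of_le hYt h1'
  have hπpos : 0 < π := by
    by_contra hcon
    have h6 : π = 0 := le_antisymm (not_lt.1 hcon) hπ0
    have h7 : ∀ x, φ x = 0 := by
      intro x
      have h8 : (∑ x, φ x) = 0 := by
        have h9 : (∑ x, φ x) / 2 ^ n = 0 := h6
        rcases div_eq_zero_iff.1 h9 with h10 | h10
        · exact h10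
        · exact absurd h10 (by positivity)
      exact (Finset.sum_eq_zero_iff_of_nonneg (fun x _ => phi_nonneg x)).1 h8 x (Finset.mem_univ _)
    have h8 : m = 0 := by
      rw [hm]
      have : ∀ x, φ x * s x = 0 := by
        intro x
        rw [h7 x, zero_mul]
      rw [Ex_congr this, Ex_const]
    linarith
  have h6 : m * m ≤ π * Q := by
    have h7 : 0 ≤ π * (π * Q - m * m) := by nlinarith
    by_contra hcon
    push Not at hcon
    have : π * (π * Q - m * m) < 0 := mul_neg_of_pos_of_neg hπpos (by linarith)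
    linarith
  have h7 : (Y.card : ℝ) * t * (Y.card * t) ≤ m * m := mul_self_le_mul_self hYt.le h1'
  linarith

end

end Pool.Agent.H687.CD
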