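import Pool.Agent.H687.CD.Lists

/-!
# Correctness of the learner on good samples
-/

set_option linter.unusedSectionVars false

namespace Pool.Agent.H687.CD

open Finset
open Pool.Agent.H685R2.RK
open Pool.Agent.H685R2.VST (tup mem_tup)

section

variable {n m : ℕ}

theorem tl_nodup (S : Finset (Fin n)) : (tl S).Nodup := by
  unfold tl
  exact (Finset.nodup_toList S).map Fin.val_injective

theorem tl_lt {S : Finset (Fin n)} {y : ℕ} (h : y ∈ tl S) : y < n := by
  unfold tl at h
  obtain ⟨i, _, rfl⟩ := List.mem_map.1 h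
  exact i.2

theorem tl_length (S : Finset (Fin n)) : (tl S).length = S.card := by
  unfold tl
  rw [List.length_map, Finset.length_toList]

theorem fs_card {U : List ℕ} (hnd : U.Nodup) (hlt : ∀ y ∈ U, y < n) : (fs n U).card = U.length := by
  rw [← List.toFinset_card_of_nodup hnd]
  rw [← Finset.card_map Fin.valEmbedding]
  congr 1
  ext y
  rw [Finset.mem_map, List.mem_toFinset]
  constructor
  · rintro ⟨j, hj, rfl⟩
    exact mem_fs.1 hj
  · intro hy
    exact ⟨⟨y, hlt y hy⟩, mem_fs.2 hy, rfl⟩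

theorem Ex_gS (f : Cube n → Bool) {V U : Finset (Fin n)} (z : Cube n) (h : Disjoint U V) :
    Ex (gS f (V, z, U)) = (1 / 2) ^ V.card * Gam f V z U := by
  have h1 : ∀ x, gS f (V, z, U) x =
      ind (∀ j ∈ V, x j = z j) * (ind (f x = false) * chi U x) := by
    intro x
    unfold gS
    simp only
    rw [ind_and]
    ring
  rw [Ex_congr h1, Ex_patch]
  unfold Gam
  congr 1
  apply Ex_congr
  intro x
  congr 1
  apply chi_congr
  intro j hj
  exact patch_not (Finset.disjoint_left.1 h hj)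

theorem Gam_le (f : Cube n → Bool) (V U : Finset (Fin n)) (z : Cube n) :
    |Gam f V z U| ≤ Pr (fun x => f (patch V z x) = false) := by
  unfold Gam
  rw [← Ex_ind]
  refine (abs_Ex_le _).trans (Ex_mono fun x => ?_)
  rw [abs_mul, abs_chi, mul_one, abs_of_nonneg (ind_nonneg _)]

theorem stat_close {f : Cube n → Bool} {ω : Fin m → Cube n} {m₁ s : ℕ} {τ₁ τ : ℝ} (hm : m₁ ≤ m)
    (hg : Good f ω m₁ s τ₁ τ) {V U : Finset (Fin n)} (z : Cube n) (h : Disjoint U V) {VL UL : List ℕ}
    (hV : fs n VL = V) (hU : fs n UL = U) (hnd : UL.Nodup) (hlt : ∀ y ∈ UL, y < n) :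
    |(stc (negL ((smp f ω).take m₁)) (List.ofFn z) VL UL : ℝ) -
      m₁ * ((1 / 2) ^ V.card * |Gam f V z U|)| < τ₁ * m₁ := by
  rw [stc_eq hm f ω z VL hnd hlt, hV, hU]
  have h1 := hg.st V z U
  rw [Ex_gS f z h] at h1
  refine lt_of_le_of_lt ?_ h1
  have h2 : (m₁ : ℝ) * ((1 / 2) ^ V.card * |Gam f V z U|) =
      |(m₁ : ℝ) * ((1 / 2) ^ V.card * Gam f V z U)| := by
    rw [abs_mul, abs_mul, abs_of_nonneg (by positivity : (0 : ℝ) ≤ m₁),
      abs_of_nonneg (by positivity : (0 : ℝ) ≤ (1 / 2) ^ V.card)]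
  rw [h2]
  exact abs_abs_sub_abs_le _ _

end

section

variable {n m m₁ s d r t cap₀ E : ℕ} {f : Cube n → Bool} {ω : Fin m → Cube n} {θ τ₁ τ : ℝ}

theorem not_neg {T : Finset (Fin n)} {b x₀ : Cube n} {TL : List ℕ}
    (himp : ∀ x : Cube n, (∀ j ∈ T, x j = b j) → f x = true) (hTL : fs n TL = T)
    (hx₀ : ∀ j ∈ T, x₀ j = b j) :
    (!((negL (smp f ω)).any (fun b => trL (tm (List.ofFn x₀) TL) b))) = true := by
  rw [Bool.not_eq_true', List.any_eq_false]
  intro a ha
  obtain ⟨i, rfl, hi⟩ := mem_neg_all.1 ha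
  intro h
  rw [tr_tm, hTL] at h
  have h1 := himp (ω i) (fun j hj => (h j hj).trans (hx₀ j hj))
  rw [hi] at h1
  simp at h1

/-- The detectable implicants are among the kept terms. -/
theorem found_kept {β : Type} (cap : List β) (hcapl : 2 ^ (d + r + cap₀) ≤ cap.length)
    (hm : m₁ ≤ m) (hm0 : 0 < m₁) (hg : Good f ω m₁ s τ₁ τ) (hτ : 0 < τ₁)
    (hθ : 10 * τ₁ ≤ (1 / 2) ^ d * θ) (hpat : τ₁ ≤ (1 / 2) ^ (d + r + cap₀)) {x : Cube n}
    (h : Found f d r cap₀ θ x) :
    evalD (kept cap d r (List.range n) (ptsL ((smp f ω).take m₁))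
      (negL ((smp f ω).take m₁)) (negL (smp f ω))) (List.ofFn x) = true := by
  classical
  obtain ⟨T, b, ⟨himp, hdet⟩, hx⟩ := h
  unfold evalD
  rw [List.any_eq_true]
  have hhalf : ∀ k ≤ d + r + cap₀, τ₁ ≤ (1 / 2 : ℝ) ^ k := fun k hk =>
    hpat.trans (pow_le_pow_of_le_one (by norm_num) (by norm_num) hk)
  rcases hdet with hTd | ⟨V, z, S, hVd, hSr, hSV, hθS, hT, hcap⟩
  · obtain ⟨x₀, hx₀, hx₀b⟩ := exists_pts hg T b (hhalf _ (by omega))
    refine ⟨tm (List.ofFn x₀) (tl T), ?_, ?_⟩
    · unfold kept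
      rw [List.mem_filter]
      refine ⟨List.mem_append_left _ ?_, not_neg himp (fs_tl T) hx₀b⟩
      unfold cyls
      rw [List.mem_flatMap]
      exact ⟨tl T, tl_mem_tup hTd, List.mem_map.2 ⟨_, hx₀, rfl⟩⟩
    · rw [tr_tm, fs_tl]
      intro j hj
      rw [hx j hj, hx₀b j hj]
  · -- a negative example
    have hθ0 : 0 < θ := by
      by_contra hcon
      push Not at hcon
      have : (1 / 2 : ℝ) ^ d * θ ≤ 0 := mul_nonpos_of_nonneg_of_nonpos (by positivity) hcon
      linarith
    have hpV : (1 / 2 : ℝ) ^ d ≤ (1 / 2) ^ V.card :=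
      pow_le_pow_of_le_one (by norm_num) (by norm_num) hVd
    obtain ⟨x₁, hx₁, hx₁f, hx₁z⟩ := exists_neg hg V z (by
      have h1 : Pr (fun x => f x = false ∧ ∀ j ∈ V, x j = z j) =
          (1 / 2) ^ V.card * Pr (fun x => f (patch V z x) = false) := by
        rw [← Pr_patch V z (fun x => f x = false)]
        apply Pr_congr
        intro x
        exact and_comm
      rw [h1]
      have h2 := Gam_le f V S z
      have h3 : (1 / 2 : ℝ) ^ d * θ ≤ (1 / 2) ^ V.card * Pr (fun x => f (patch V z x) = false) :=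
        mul_le_mul hpV (hθS.trans h2) hθ0.le (by positivity)
      linarith)
    have hGz : ∀ U, Gam f V z U = Gam f V x₁ U := by
      intro U
      unfold Gam
      apply Ex_congr
      intro y
      rw [patch_congr (z := z) (z' := x₁) (fun j hj => (hx₁z j hj).symm)]
    simp only [hGz] at hθS hT hcap
    set neg := negL ((smp f ω).take m₁) with hneg
    set a := List.ofFn x₁ with ha
    have hm0' : (0 : ℝ) < m₁ := by exact_mod_cast hm0
    set g := (1 / 2 : ℝ) ^ V.card * |Gam f V x₁ S| with hgdef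
    have hgθ : 10 * τ₁ ≤ g := by
      refine hθ.trans ?_
      exact mul_le_mul hpV hθS hθ0.le (by positivity)
    have hstS := stat_close hm hg x₁ hSV (VL := tl V) (UL := tl S) (fs_tl V) (fs_tl S)
      (tl_nodup S) (fun y hy => tl_lt hy)
    rw [← hgdef] at hstS
    have hins : ∀ y : Fin n, y ∉ S → y ∉ V →
        |(stc neg a (tl V) (y.val :: tl S) : ℝ) -
          m₁ * ((1 / 2) ^ V.card * |Gam f V x₁ (insert y S)|)| < τ₁ * m₁ := by
      intro y hyS hyV
      apply stat_close hm hg x₁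
      · rw [Finset.disjoint_insert_left]
        exact ⟨hyV, hSV⟩
      · exact fs_tl V
      · rw [fs_cons y.2, fs_tl]
      · rw [List.nodup_cons, mem_tl]
        exact ⟨hyS, tl_nodup S⟩
      · intro y' hy'
        rcases List.mem_cons.1 hy' with rfl | hy'
        · exact y.2
        · exact tl_lt hy'
    set B := bigV (List.range n) neg a (tl V) (tl S) with hB
    have hBmem : ∀ y : Fin n, y.val ∈ B ↔ y ∉ S ∧ y ∉ V ∧
        stc neg a (tl V) (tl S) ≤ 2 * stc neg a (tl V) (y.val :: tl S) := by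
      intro y
      rw [hB]
      unfold bigV
      rw [List.mem_filter]
      simp only [List.mem_range, y.2, true_and, Bool.and_eq_true, Bool.not_eq_true',
        decide_eq_false_iff_not, decide_eq_true_eq, mem_tl]
    have hBT : ∀ y ∈ T, y ∉ S → y ∉ V → y.val ∈ B := by
      intro y hy hyS hyV
      rw [hBmem]
      refine ⟨hyS, hyV, ?_⟩
      have h1 := hT y hy hyS hyV
      have h2 := hins y hyS hyV
      have h3 : 15 / 17 * g ≤ (1 / 2) ^ V.card * |Gam f V x₁ (insert y S)| := by
        have := mul_le_mul_of_nonneg_left h1 (by positivity : (0 : ℝ) ≤ (1 / 2) ^ V.card)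
        rw [hgdef]
        linarith
      have h4 := (abs_lt.1 hstS).2
      have h5 := (abs_lt.1 h2).1
      have h6 : (m₁ : ℝ) * (15 / 17 * g) ≤ m₁ * ((1 / 2) ^ V.card * |Gam f V x₁ (insert y S)|) :=
        mul_le_mul_of_nonneg_left h3 hm0'.le
      have h7 : (m₁ : ℝ) * (10 * τ₁) ≤ m₁ * g := mul_le_mul_of_nonneg_left hgθ hm0'.le
      have h8 : (stc neg a (tl V) (tl S) : ℝ) ≤ 2 * stc neg a (tl V) (y.val :: tl S) := by
        nlinarith
      exact_mod_cast h8
    have hBlt : ∀ y ∈ B, y < n := by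
      intro y hy
      rw [hB] at hy
      unfold bigV at hy
      exact List.mem_range.1 (List.mem_of_mem_filter hy)
    have hBnd : B.Nodup := by
      rw [hB]
      unfold bigV
      exact List.nodup_range.filter _
    have hBlen : B.length ≤ cap₀ := by
      rw [← fs_card hBnd hBlt]
      refine le_trans (Finset.card_le_card ?_) hcap
      intro y hy
      rw [mem_fs, hBmem] at hy
      obtain ⟨hyS, hyV, hle⟩ := hy
      rw [Finset.mem_filter]
      refine ⟨Finset.mem_univ _, hyS, hyV, ?_⟩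
      by_contra hcon
      push Not at hcon
      have h2 := hins y hyS hyV
      have h3 : (1 / 2) ^ V.card * |Gam f V x₁ (insert y S)| ≤ 1 / 3 * g := by
        have := mul_le_mul_of_nonneg_left hcon (by positivity : (0 : ℝ) ≤ (1 / 2) ^ V.card)
        rw [hgdef]
        linarith
      have h4 := (abs_lt.1 hstS).1
      have h5 := (abs_lt.1 h2).2
      have h6 : (m₁ : ℝ) * ((1 / 2) ^ V.card * |Gam f V x₁ (insert y S)|) ≤ m₁ * (1 / 3 * g) :=
        mul_le_mul_of_nonneg_left h3 hm0'.le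
      have h7 : (m₁ : ℝ) * (10 * τ₁) ≤ m₁ * g := mul_le_mul_of_nonneg_left hgθ hm0'.le
      have h8 : (stc neg a (tl V) (tl S) : ℝ) ≤ 2 * stc neg a (tl V) (y.val :: tl S) := by
        exact_mod_cast hle
      have h9 : 0 < τ₁ * m₁ := by positivity
      nlinarith
    set LL := tl V ++ (tl S ++ B) with hLL
    have hLLlen : LL.length ≤ d + r + cap₀ := by
      rw [hLL, List.length_append, List.length_append, tl_length, tl_length]
      omega
    set T₀ := LL.filter (fun j => decide (∃ h : j < n, (⟨j, h⟩ : Fin n) ∈ T)) with hT₀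
    have hT₀s : T₀.Sublist LL := List.filter_sublist
    have hT₀f : fs n T₀ = T := by
      ext y
      rw [mem_fs, hT₀, List.mem_filter, decide_eq_true_eq]
      constructor
      · rintro ⟨_, h, hy⟩
        exact hy
      · intro hy
        refine ⟨?_, y.2, hy⟩
        rw [hLL, List.mem_append, List.mem_append, mem_tl, mem_tl]
        by_cases hyV : y ∈ V
        · exact Or.inl hyV
        · by_cases hyS : y ∈ S
          · exact Or.inr (Or.inl hyS)
          · exact Or.inr (Or.inr (hBT y hy hyS hyV))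
    have hpow : 2 ^ LL.length ≤ cap.length :=
      (Nat.pow_le_pow_right (by norm_num) hLLlen).trans hcapl
    have hT₀m := (mem_subl cap LL T₀ hT₀s hpow).1
    obtain ⟨x₂, hx₂, hx₂b⟩ := exists_pts hg T b (hhalf _ (by
      rw [← hT₀f]
      exact (card_fs_le T₀).trans (hT₀s.length_le.trans hLLlen)))
    refine ⟨tm (List.ofFn x₂) T₀, ?_, ?_⟩
    · unfold kept
      rw [List.mem_filter]
      refine ⟨List.mem_append_right _ ?_, not_neg himp hT₀f hx₂b⟩
      unfold candW
      rw [List.mem_flatMap]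
      refine ⟨tl V, tl_mem_tup hVd, List.mem_flatMap.2 ⟨a, hx₁, List.mem_flatMap.2
        ⟨tl S, tl_mem_tup hSr, List.mem_flatMap.2 ⟨T₀, hT₀m, List.mem_map.2 ⟨_, hx₂, rfl⟩⟩⟩⟩⟩
    · rw [tr_tm, hT₀f]
      intro j hj
      rw [hx j hj, hx₂b j hj]

/-- The number of the kept terms. -/
theorem kept_length {β : Type} (cap : List β) (hcap : 1 ≤ cap.length) (R : List ℕ)
    (pts neg negA : List (List Bool)) :
    (kept cap d r R pts neg negA).length ≤ (R.length + 1) ^ d * pts.length +
      (R.length + 1) ^ d * (neg.length * ((R.length + 1) ^ r * (cap.length * pts.length))) := by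
  unfold kept
  refine (List.length_filter_le _ _).trans ?_
  rw [List.length_append]
  apply Nat.add_le_add
  · unfold cyls
    rw [← length_tup d R]
    apply length_flatMap_le
    intro V _
    rw [List.length_map]
  · unfold candW
    rw [← length_tup d R]
    apply length_flatMap_le
    intro V _
    apply length_flatMap_le
    intro a _
    rw [← length_tup r R]
    apply length_flatMap_le
    intro S _
    refine (length_flatMap_le _ _ pts.length ?_).trans
      (Nat.mul_le_mul_right _ (length_subl cap hcap _))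
    intro T _
    rw [List.length_map]

theorem kept_isCyl {β : Type} (cap : List β) (R : List ℕ) (neg negA : List (List Bool)) :
    ∀ t ∈ kept cap d r R (ptsL ((smp f ω).take m₁)) neg negA, IsCyl n t := by
  intro t ht
  unfold kept at ht
  have h1 := List.mem_of_mem_filter ht
  rcases List.mem_append.1 h1 with h1 | h1
  · unfold cyls at h1
    obtain ⟨V, _, h2⟩ := List.mem_flatMap.1 h1
    obtain ⟨b, hb, rfl⟩ := List.mem_map.1 h2
    obtain ⟨x, rfl⟩ := mem_pts hb
    exact isCyl_tm x V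
  · unfold candW at h1
    obtain ⟨V, _, h2⟩ := List.mem_flatMap.1 h1
    obtain ⟨a, _, h3⟩ := List.mem_flatMap.1 h2
    obtain ⟨S, _, h4⟩ := List.mem_flatMap.1 h3
    obtain ⟨T, _, h5⟩ := List.mem_flatMap.1 h4
    obtain ⟨b, hb, rfl⟩ := List.mem_map.1 h5
    obtain ⟨x, rfl⟩ := mem_pts hb
    exact isCyl_tm x T

theorem cyls_isCyl (R : List ℕ) : ∀ t ∈ cyls d R (ptsL ((smp f ω).take m₁)), IsCyl n t := by
  intro t h1
  unfold cyls at h1
  obtain ⟨V, _, h2⟩ := List.mem_flatMap.1 h1
  obtain ⟨b, hb, rfl⟩ := List.mem_map.1 h2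
  obtain ⟨x, rfl⟩ := mem_pts hb
  exact isCyl_tm x V

theorem kept_neg {β : Type} (cap : List β) (R : List ℕ) (pts neg : List (List Bool)) {i : Fin m}
    (hi : f (ω i) = false) :
    evalD (kept cap d r R pts neg (negL (smp f ω))) (List.ofFn (ω i)) = false := by
  unfold evalD
  rw [List.any_eq_false]
  intro t ht h
  unfold kept at ht
  rw [List.mem_filter, Bool.not_eq_true', List.any_eq_false] at ht
  exact ht.2 _ (mem_neg_all.2 ⟨i, rfl, hi⟩) h

/-- The cylinders of the decomposition as a tuple of short terms. -/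
theorem exists_tuple (hg : Good f ω m₁ s τ₁ τ) (hpat : τ₁ ≤ (1 / 2) ^ (d + r + cap₀))
    (L : Finset (Finset (Fin n) × Cube n)) (hLc : L.card ≤ t) (hLd : ∀ p ∈ L, p.1.card ≤ d) :
    ∃ L' ∈ tup t (cyls d (List.range n) (ptsL ((smp f ω).take m₁))),
      ∀ x : Cube n, evalD L' (List.ofFn x) = true ↔ InL L x := by
  classical
  have h1 : ∀ p ∈ L, ∃ x₀ : Cube n, List.ofFn x₀ ∈ ptsL ((smp f ω).take m₁) ∧
      ∀ j ∈ p.1, x₀ j = p.2 j := by
    intro p hp
    apply exists_pts hg p.1 p.2
    refine hpat.trans (pow_le_pow_of_le_one (by norm_num) (by norm_num) ?_)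
    have := hLd p hp
    omega
  let c : Finset (Fin n) × Cube n → Cube n := fun p =>
    if h : ∃ x₀ : Cube n, List.ofFn x₀ ∈ ptsL ((smp f ω).take m₁) ∧ ∀ j ∈ p.1, x₀ j = p.2 j
    then h.choose else fun _ => false
  have hc : ∀ p ∈ L, List.ofFn (c p) ∈ ptsL ((smp f ω).take m₁) ∧ ∀ j ∈ p.1, c p j = p.2 j := by
    intro p hp
    have h2 := h1 p hp
    have h3 : c p = h2.choose := dif_pos h2
    rw [h3]
    exact h2.choose_spec
  refine ⟨L.toList.map (fun p => tm (List.ofFn (c p)) (tl p.1)), ?_, ?_⟩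
  · rw [mem_tup]
    constructor
    · rw [List.length_map, Finset.length_toList]
      exact hLc
    · intro t' ht'
      obtain ⟨p, hp, rfl⟩ := List.mem_map.1 ht'
      rw [Finset.mem_toList] at hp
      unfold cyls
      rw [List.mem_flatMap]
      exact ⟨tl p.1, tl_mem_tup (hLd p hp), List.mem_map.2 ⟨_, (hc p hp).1, rfl⟩⟩
  · intro x
    unfold evalD InL
    rw [List.any_eq_true]
    constructor
    · rintro ⟨t', ht', hx⟩
      obtain ⟨p, hp, rfl⟩ := List.mem_map.1 ht'
      rw [Finset.mem_toList] at hp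
      rw [tr_tm, fs_tl] at hx
      exact ⟨p, hp, fun j hj => (hx j hj).trans ((hc p hp).2 j hj)⟩
    · rintro ⟨p, hp, hx⟩
      refine ⟨_, List.mem_map.2 ⟨p, Finset.mem_toList.2 hp, rfl⟩, ?_⟩
      rw [tr_tm, fs_tl]
      exact fun j hj => (hx j hj).trans ((hc p hp).2 j hj).symm

theorem evalD_append (h h' : List (List (ℕ × Bool))) (b : List Bool) :
    evalD (h ++ h') b = (evalD h b || evalD h' b) := by
  unfold evalD
  rw [List.any_append]

end

end Pool.Agent.H687.CD
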