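import Pool.Agent.H687.CD.Base

/-!
# Families of sets with bounded codegree: counting
-/

namespace Pool.Agent.H687.CD

open Finset
open Pool.Agent.H685R2.RK

variable {n : ℕ} {ι : Type} [DecidableEq ι]

/-- Every `c` variables lie together in at most `k` of the sets. -/
def CoDeg (F : ι → Finset (Fin n)) (I : Finset ι) (c k : ℕ) : Prop :=
  ∀ Q : Finset (Fin n), Q.card = c → (I.filter (fun i => Q ⊆ F i)).card ≤ k

variable {F : ι → Finset (Fin n)} {I : Finset ι} {c k : ℕ}

theorem CoDeg.mono (h : CoDeg F I c k) {J : Finset ι} (hJ : J ⊆ I) : CoDeg F J c k := fun Q hQ =>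
  (Finset.card_le_card (Finset.filter_subset_filter _ hJ)).trans (h Q hQ)

theorem CoDeg.count (h : CoDeg F I c k) (A : Finset (Fin n)) {J : Finset ι} (hJ : J ⊆ I) {p : ℕ}
    (hp : ∀ i ∈ J, p ≤ (F i ∩ A).card) : J.card * p.choose c ≤ k * A.card.choose c := by
  have h1 : ∑ i ∈ J, ((A.powersetCard c).filter (fun Q => Q ⊆ F i)).card =
      ∑ Q ∈ A.powersetCard c, (J.filter (fun i => Q ⊆ F i)).card := by
    simp only [Finset.card_filter]
    rw [Finset.sum_comm]
  have h2 : ∀ i ∈ J, p.choose c ≤ ((A.powersetCard c).filter (fun Q => Q ⊆ F i)).card := by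
    intro i hi
    have h3 : (A.powersetCard c).filter (fun Q => Q ⊆ F i) = (F i ∩ A).powersetCard c := by
      ext Q
      simp only [Finset.mem_filter, Finset.mem_powersetCard, Finset.subset_inter_iff]
      tauto
    rw [h3, Finset.card_powersetCard]
    exact Nat.choose_le_choose c (hp i hi)
  have h3 : ∀ Q ∈ A.powersetCard c, (J.filter (fun i => Q ⊆ F i)).card ≤ k := by
    intro Q hQ
    exact h.mono hJ Q (Finset.mem_powersetCard.1 hQ).2
  calc J.card * p.choose c = ∑ i ∈ J, p.choose c := by rw [Finset.sum_const, smul_eq_mul]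
    _ ≤ _ := Finset.sum_le_sum h2
    _ = _ := h1
    _ ≤ ∑ Q ∈ A.powersetCard c, k := Finset.sum_le_sum h3
    _ = k * A.card.choose c := by
      rw [Finset.sum_const, Finset.card_powersetCard, smul_eq_mul, mul_comm]

theorem descFactorial_ratio (m p L : ℕ) : ∀ c : ℕ, (∀ l < c, m - l ≤ L * (p - l)) →
    m.descFactorial c ≤ L ^ c * p.descFactorial c
  | 0, _ => by simp
  | c + 1, h => by
    rw [Nat.descFactorial_succ, Nat.descFactorial_succ, pow_succ]
    calc (m - c) * m.descFactorial c ≤ (L * (p - c)) * (L ^ c * p.descFactorial c) :=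
          Nat.mul_le_mul (h c (Nat.lt_succ_self c))
            (descFactorial_ratio m p L c (fun l hl => h l (Nat.lt_succ_of_lt hl)))
      _ = _ := by ring

theorem choose_ratio {m p L c : ℕ} (h : ∀ l < c, m - l ≤ L * (p - l)) :
    m.choose c ≤ L ^ c * p.choose c := by
  have h1 := descFactorial_ratio m p L c h
  rw [Nat.descFactorial_eq_factorial_mul_choose, Nat.descFactorial_eq_factorial_mul_choose] at h1
  have h2 : c.factorial * m.choose c ≤ c.factorial * (L ^ c * p.choose c) := by
    calc _ ≤ _ := h1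
      _ = _ := by ring
  exact Nat.le_of_mul_le_mul_left h2 (Nat.factorial_pos c)

/-- The general counting lemma. -/
theorem CoDeg.count' (h : CoDeg F I c k) (A : Finset (Fin n)) {J : Finset ι} (hJ : J ⊆ I)
    {p L : ℕ} (hpc : c ≤ p) (hp : ∀ i ∈ J, p ≤ (F i ∩ A).card)
    (hL : ∀ l < c, A.card - l ≤ L * (p - l)) : J.card ≤ k * L ^ c := by
  have h1 := h.count A hJ hp
  have h2 := choose_ratio hL
  have h3 : 0 < p.choose c := Nat.choose_pos hpc
  have h4 : J.card * p.choose c ≤ (k * L ^ c) * p.choose c := by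
    calc _ ≤ _ := h1
      _ ≤ k * (L ^ c * p.choose c) := Nat.mul_le_mul_left _ h2
      _ = _ := by ring
  exact Nat.le_of_mul_le_mul_right h4 h3

theorem CoDeg.count_ge (h : CoDeg F I c k) (A : Finset (Fin n)) {J : Finset ι} (hJ : J ⊆ I)
    (hp : ∀ i ∈ J, c ≤ (F i ∩ A).card) : J.card ≤ k * A.card ^ c := by
  apply h.count' A hJ le_rfl hp
  intro l hl
  have h1 : 1 ≤ c - l := by omega
  calc A.card - l ≤ A.card * 1 := by omega
    _ ≤ _ := Nat.mul_le_mul_left _ h1

/-- Few sets contain almost all of `A`. -/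
theorem CoDeg.count_near (h : CoDeg F I c k) (A : Finset (Fin n)) {J : Finset ι} (hJ : J ⊆ I)
    {d : ℕ} (hd : c + d ≤ A.card) (hp : ∀ i ∈ J, A.card ≤ (F i ∩ A).card + d) :
    J.card ≤ k * (d + 1) ^ c := by
  apply h.count' A (p := A.card - d) hJ (by omega) (fun i hi => by have := hp i hi; omega)
  intro l hl
  obtain ⟨e, he⟩ : ∃ e, A.card = l + 1 + d + e := ⟨A.card - (l + 1 + d), by omega⟩
  have h1 : A.card - d - l = 1 + e := by omega
  have h2 : A.card - l = 1 + d + e := by omega
  rw [h1, h2]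
  nlinarith [Nat.zero_le (d * e)]

/-- Few sets contain a constant fraction of `A`. -/
theorem CoDeg.count_frac (h : CoDeg F I c k) (A : Finset (Fin n)) {J : Finset ι} (hJ : J ⊆ I)
    {a : ℕ} (hA : 4 * a * c ≤ A.card) (ha : 0 < a) (hp : ∀ i ∈ J, A.card ≤ 2 * a * (F i ∩ A).card) :
    J.card ≤ k * (4 * a) ^ c := by
  rcases Nat.eq_zero_or_pos A.card with h0 | h0
  · have hc : c = 0 := by
      rw [h0] at hA
      rcases Nat.eq_zero_or_pos c with hc | hc
      · exact hc
      · have : 0 < 4 * a * c := by positivity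
        omega
    subst hc
    exact h.count' A hJ le_rfl (fun i _ => Nat.zero_le _) (fun l hl => absurd hl (by omega))
  -- p = ceil (card A / (2a))
  set p := (A.card + 2 * a - 1) / (2 * a) with hpdef
  have hp1 : A.card ≤ 2 * a * p := by
    have := Nat.lt_div_mul_add (a := A.card + 2 * a - 1) (b := 2 * a) (by omega)
    rw [← hpdef] at this
    have h2 : p * (2 * a) = 2 * a * p := by ring
    omega
  have hp2 : ∀ i ∈ J, p ≤ (F i ∩ A).card := by
    intro i hi
    have h1 := hp i hi
    rw [hpdef]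
    apply Nat.le_of_lt_succ
    rw [Nat.div_lt_iff_lt_mul (by omega)]
    have h2 : ((F i ∩ A).card.succ) * (2 * a) = 2 * a * (F i ∩ A).card + 2 * a := by
      rw [Nat.succ_mul]; ring
    omega
  have hpc : 2 * c ≤ p := by
    have h1 : 2 * a * (2 * c) ≤ 2 * a * p := by
      calc 2 * a * (2 * c) = 4 * a * c := by ring
        _ ≤ _ := hA
        _ ≤ _ := hp1
    exact Nat.le_of_mul_le_mul_left h1 (by omega)
  apply h.count' A (p := p) hJ (by omega) hp2
  intro l hl
  have h1 : p ≤ 2 * (p - l) := by omega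
  calc A.card - l ≤ A.card := Nat.sub_le _ _
    _ ≤ 2 * a * p := hp1
    _ ≤ 2 * a * (2 * (p - l)) := Nat.mul_le_mul_left _ h1
    _ = _ := by ring

/-- The constant in the next lemma. -/
noncomputable def Kc (c : ℕ) : ℝ := ∑' d : ℕ, ((d + 1 : ℕ) : ℝ) ^ c * (1 / 2) ^ d

theorem Kc_summable (c : ℕ) : Summable (fun d : ℕ => ((d + 1 : ℕ) : ℝ) ^ c * (1 / 2) ^ d) := by
  have h := summable_pow_mul_geometric_of_norm_lt_one (R := ℝ) c (r := 1 / 2) (by norm_num)
  have h1 := (summable_nat_add_iff 1).2 h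
  have h2 := h1.mul_left 2
  refine h2.congr fun d => ?_
  rw [pow_succ]
  ring

theorem Kc_nonneg (c : ℕ) : 0 ≤ Kc c := tsum_nonneg fun d => by positivity

theorem CoDeg.overlap (h : CoDeg F I c k) (A : Finset (Fin n)) :
    ∑ i ∈ I.filter (fun i => A.card ≤ (F i).card ∧ c ≤ (F i ∩ A).card),
      (1 / 2 : ℝ) ^ (F i \ A).card ≤ k * Kc c := by
  set J := I.filter (fun i => A.card ≤ (F i).card ∧ c ≤ (F i ∩ A).card) with hJ
  have h0 : ∀ i ∈ J, A.card - (F i ∩ A).card ∈ Finset.range (A.card + 1) := by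
    intro i _
    rw [Finset.mem_range]
    omega
  rw [← Finset.sum_fiberwise_of_maps_to h0]
  have h1 : ∀ d ∈ Finset.range (A.card + 1),
      ∑ i ∈ J.filter (fun i => A.card - (F i ∩ A).card = d), (1 / 2 : ℝ) ^ (F i \ A).card ≤
        k * (((d + 1 : ℕ) : ℝ) ^ c * (1 / 2) ^ d) := by
    intro d _
    have h2 : ∀ i ∈ J.filter (fun i => A.card - (F i ∩ A).card = d),
        (1 / 2 : ℝ) ^ (F i \ A).card ≤ (1 / 2) ^ d := by
      intro i hi
      rw [Finset.mem_filter, hJ, Finset.mem_filter] at hi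
      apply pow_le_pow_of_le_one (by norm_num) (by norm_num)
      have h3 := Finset.card_sdiff_add_card_inter (F i) A
      omega
    refine (Finset.sum_le_card_nsmul _ _ _ h2).trans ?_
    rw [nsmul_eq_mul, ← mul_assoc]
    apply mul_le_mul_of_nonneg_right _ (by positivity)
    rcases (J.filter (fun i => A.card - (F i ∩ A).card = d)).eq_empty_or_nonempty with he | ⟨i₀, hi₀⟩
    · rw [he, Finset.card_empty]
      simp only [Nat.cast_zero]
      positivity
    · have h3 : (J.filter (fun i => A.card - (F i ∩ A).card = d)).card ≤ k * (d + 1) ^ c := by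
        have hsub : J.filter (fun i => A.card - (F i ∩ A).card = d) ⊆ I :=
          (Finset.filter_subset _ _).trans (Finset.filter_subset _ _)
        apply h.count_near A hsub
        · rw [Finset.mem_filter, hJ, Finset.mem_filter] at hi₀
          have h4 : (F i₀ ∩ A).card ≤ A.card := Finset.card_le_card Finset.inter_subset_right
          omega
        · intro i hi
          rw [Finset.mem_filter] at hi
          omega
      exact_mod_cast h3
  refine (Finset.sum_le_sum h1).trans ?_
  rw [← Finset.mul_sum]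
  apply mul_le_mul_of_nonneg_left _ (by positivity)
  exact (Kc_summable c).sum_le_tsum _ (fun d _ => by positivity)

end Pool.Agent.H687.CD
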