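import Pool.Agent.H687.CD.Chain

/-!
# The background: correlation of the other terms with a character
-/

set_option linter.unusedSectionVars false

namespace Pool.Agent.H687.CD

open Finset
open Pool.Agent.H685R2.RK

section

variable {n : ℕ} {ι : Type} [DecidableEq ι] (F : ι → Finset (Fin n)) (v : ι → Fin n → Bool)

/-- The term is not falsified by the values of `z` on `V`. -/
def Alive (V : Finset (Fin n)) (z : Cube n) (i : ι) : Prop := ∀ j ∈ F i, j ∈ V → z j = v i j

/-- The literals outside `S` and `V` are true. -/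
def Act (S V : Finset (Fin n)) (i : ι) (x : Cube n) : Prop := ∀ j ∈ F i, j ∉ S → j ∉ V → x j = v i j

/-- The variable `s` lies in an active term. -/
def Cv (J : Finset ι) (S V : Finset (Fin n)) (z : Cube n) (s : Fin n) (x : Cube n) : Prop :=
  ∃ i ∈ J, Alive F v V z i ∧ s ∈ F i ∧ Act F v S V i x

variable {F v} {I J : Finset ι} {S V : Finset (Fin n)} {z : Cube n} {a c k : ℕ}

theorem Act_fl {s : Fin n} (hs : s ∈ S) (i : ι) (x : Cube n) :
    Act F v S V i (fl s x) ↔ Act F v S V i x := by
  unfold Act
  constructor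
  · intro h j hj hjS hjV
    rw [← h j hj hjS hjV, fl_ne]
    rintro rfl
    exact hjS hs
  · intro h j hj hjS hjV
    rw [← h j hj hjS hjV, fl_ne]
    rintro rfl
    exact hjS hs

theorem Cv_fl {s : Fin n} (hs : s ∈ S) (t : Fin n) (x : Cube n) :
    Cv F v J S V z t (fl s x) ↔ Cv F v J S V z t x := by
  unfold Cv
  simp only [Act_fl hs]

theorem sat_fl {s : Fin n} (x : Cube n) (h : ¬ Cv F v J S V z s x)
    (hx : Sat F v J (patch V z (fl s x))) : Sat F v J (patch V z x) := by
  intro i hi hT
  by_cases hsi : s ∈ F i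
  · apply h
    refine ⟨i, hi, ?_, hsi, ?_⟩
    · intro j hj hjV
      rw [← hT j hj, patch_mem hjV]
    · intro j hj _ hjV
      rw [← hT j hj, patch_not hjV]
  · apply hx i hi
    intro j hj
    rw [← hT j hj]
    by_cases hjV : j ∈ V
    · rw [patch_mem hjV, patch_mem hjV]
    · rw [patch_not hjV, patch_not hjV, fl_ne]
      rintro rfl
      exact hsi hj

/-- The correlation with a character is at most the probability that all variables of `S` are
covered. -/
theorem background {U : Finset (Fin n)} (hU : S ⊆ U) :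
    |Ex (fun x => ind (Sat F v J (patch V z x)) * chi U x)| ≤
      Pr (fun x => ∀ s ∈ S, Cv F v J S V z s x) := by
  have key : ∀ S' : Finset (Fin n), S' ⊆ S →
      Ex (fun x => (ind (Sat F v J (patch V z x)) * ind (∀ s ∈ S', Cv F v J S V z s x)) * chi U x) =
      Ex (fun x => ind (Sat F v J (patch V z x)) * chi U x) := by
    intro S'
    induction S' using Finset.induction with
    | empty =>
      intro _
      apply Ex_congr
      intro x
      rw [ind_true (P := ∀ s ∈ (∅ : Finset (Fin n)), Cv F v J S V z s x) (by simp), mul_one]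
    | insert s S' hs ih =>
      intro hsub
      have hsS : s ∈ S := hsub (Finset.mem_insert_self _ _)
      rw [← ih ((Finset.subset_insert _ _).trans hsub)]
      have h0 := char_zero (U := U) (j := s) (hU hsS)
        (g := fun x => ind (Sat F v J (patch V z x)) * ind (∀ s ∈ S', Cv F v J S V z s x) *
          ind (¬ Cv F v J S V z s x)) (by
          intro x
          simp only [Cv_fl hsS]
          by_cases hc : Cv F v J S V z s x
          · rw [ind_false (not_not.2 hc), mul_zero, mul_zero]
          · congr 2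
            apply ind_congr
            constructor
            · exact sat_fl x hc
            · intro h
              apply sat_fl (s := s) (fl s x)
              · rw [Cv_fl hsS]
                exact hc
              · rw [fl_fl]
                exact h)
      have h1 : ∀ x, (ind (Sat F v J (patch V z x)) *
          ind (∀ t ∈ insert s S', Cv F v J S V z t x)) * chi U x =
          (ind (Sat F v J (patch V z x)) * ind (∀ t ∈ S', Cv F v J S V z t x)) * chi U x -
          ind (Sat F v J (patch V z x)) * ind (∀ t ∈ S', Cv F v J S V z t x) *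
            ind (¬ Cv F v J S V z s x) * chi U x := by
        intro x
        rw [ind_not]
        have h2 : ind (∀ t ∈ insert s S', Cv F v J S V z t x) =
            ind (Cv F v J S V z s x) * ind (∀ t ∈ S', Cv F v J S V z t x) := by
          rw [← ind_and]
          apply ind_congr
          rw [Finset.forall_mem_insert]
        rw [h2]
        ring
      rw [Ex_congr h1, Ex_sub, h0, sub_zero]
  rw [← key S subset_rfl, ← Ex_ind]
  refine (abs_Ex_le _).trans (Ex_mono fun x => ?_)
  rw [abs_mul, abs_chi, mul_one, abs_of_nonneg (mul_nonneg (ind_nonneg _) (ind_nonneg _))]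
  have h1 := ind_le_one (Sat F v J (patch V z x))
  have h2 := ind_nonneg (∀ s ∈ S, Cv F v J S V z s x)
  nlinarith

theorem Pr_act_list (L : List ι) : Pr (fun x => ∀ i ∈ L, Act F v S V i x) ≤
    2 ^ (S.card + V.card) * (1 / 2) ^ (UL F L).card := by
  by_cases hex : ∃ x₀ : Cube n, ∀ i ∈ L, Act F v S V i x₀
  · obtain ⟨x₀, hx₀⟩ := hex
    have h1 : Pr (fun x => ∀ i ∈ L, Act F v S V i x) ≤
        Pr (fun x => ∀ j ∈ UL F L \ (S ∪ V), x j = x₀ j) := by
      apply Pr_mono
      intro x hx j hj
      rw [Finset.mem_sdiff, mem_UL, Finset.mem_union, not_or] at hj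
      obtain ⟨⟨i, hi, hji⟩, hjS, hjV⟩ := hj
      rw [hx i hi j hji hjS hjV, hx₀ i hi j hji hjS hjV]
    rw [Pr_pat] at h1
    refine h1.trans ?_
    have h2 := Finset.le_card_sdiff (S ∪ V) (UL F L)
    have h3 := Finset.card_union_le S V
    have h4 : (1 / 2 : ℝ) ^ ((UL F L \ (S ∪ V)).card + (S.card + V.card)) ≤
        (1 / 2) ^ (UL F L).card := pow_le_pow_of_le_one (by norm_num) (by norm_num) (by omega)
    rw [pow_add] at h4
    have h6 : (2 : ℝ) ^ (S.card + V.card) * (1 / 2) ^ (S.card + V.card) = 1 := by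
      rw [← mul_pow]; norm_num
    calc (1 / 2 : ℝ) ^ (UL F L \ (S ∪ V)).card =
        2 ^ (S.card + V.card) * ((1 / 2 : ℝ) ^ (UL F L \ (S ∪ V)).card *
          (1 / 2) ^ (S.card + V.card)) := by
          rw [mul_comm ((1 / 2 : ℝ) ^ (UL F L \ (S ∪ V)).card), ← mul_assoc, h6, one_mul]
      _ ≤ _ := mul_le_mul_of_nonneg_left h4 (by positivity)
  · have h1 : Pr (fun x => ∀ i ∈ L, Act F v S V i x) ≤ 0 := by
      rw [← Ex_ind]
      refine (Ex_mono (h := fun _ => 0) fun x => ?_).trans (le_of_eq (Ex_const 0))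
      rw [ind_false fun h => hex ⟨x, h⟩]
    exact h1.trans (by positivity)

/-- All variables of `S` are covered only rarely. -/
theorem cov_bound (hcd : CoDeg F I c k) (hJ : J ⊆ I) (ha : 0 < a) {u : ℕ} {β : ℝ} (hβ : 0 ≤ β)
    (hS : (c - 1) * (a * (k * (4 * a) ^ c)) < S.card) (hu : 4 * a * c ≤ u)
    (hnu : ∀ s ∈ S, nu F I s ≤ (1 / 2) ^ u)
    (hmeet : ∀ i ∈ J, Alive F v V z i → (F i ∩ S).card < c)
    (hsum : ∀ A ⊆ J, (∀ y ∈ A, ∃ s ∈ S, s ∈ F y) → ∀ L : List ι, L.length ≤ a →
      ∑ y ∈ A, ind (Rl F a y L) * (1 / 2 : ℝ) ^ (F y \ UL F L).card ≤ β) :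
    Pr (fun x => ∀ s ∈ S, Cv F v J S V z s x) ≤ 2 ^ (S.card + V.card) * β ^ a := by
  classical
  set A := J.filter (fun i => Alive F v V z i ∧ ∃ s ∈ S, s ∈ F i) with hA
  have hAJ : A ⊆ J := Finset.filter_subset _ _
  have hwide : ∀ i ∈ A, u ≤ (F i).card := by
    intro y hy
    rw [hA, Finset.mem_filter] at hy
    obtain ⟨hyJ, _, s, hs, hsy⟩ := hy
    have h1 : (1 / 2 : ℝ) ^ (F y).card ≤ nu F I s := by
      unfold nu
      exact Finset.single_le_sum (f := fun i => (1 / 2 : ℝ) ^ (F i).card)
        (fun _ _ => by positivity) (Finset.mem_filter.2 ⟨hJ hyJ, hsy⟩)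
    have h2 := h1.trans (hnu s hs)
    by_contra hcon
    push Not at hcon
    have h3 : (1 / 2 : ℝ) ^ u < (1 / 2) ^ (F y).card :=
      pow_lt_pow_right_of_lt_one₀ (by norm_num) (by norm_num) hcon
    linarith
  have h1 : Pr (fun x => ∀ s ∈ S, Cv F v J S V z s x) ≤
      Pr (fun x => ∃ L ∈ chs F a A a, ∀ i ∈ L, Act F v S V i x) := by
    apply Pr_mono
    intro x hx
    set B := A.filter (fun i => Act F v S V i x) with hB
    have hcover : S ⊆ B.biUnion (fun i => F i ∩ S) := by
      intro s hs
      obtain ⟨i, hi, hal, hsi, hact⟩ := hx s hs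
      exact Finset.mem_biUnion.2 ⟨i, Finset.mem_filter.2 ⟨Finset.mem_filter.2
        ⟨hi, hal, s, hs, hsi⟩, hact⟩, Finset.mem_inter.2 ⟨hsi, hs⟩⟩
    have h2 : S.card ≤ B.card * (c - 1) := by
      refine (Finset.card_le_card hcover).trans ?_
      apply Finset.card_biUnion_le_card_mul
      intro i hi
      have h3 := Finset.mem_filter.1 (Finset.mem_filter.1 hi).1
      have := hmeet i h3.1 h3.2.1
      omega
    have h3 : a * (k * (4 * a) ^ c) < B.card := by
      by_contra hcon
      push Not at hcon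
      have h4 : B.card * (c - 1) ≤ (c - 1) * (a * (k * (4 * a) ^ c)) := by
        rw [mul_comm]
        exact Nat.mul_le_mul_left _ hcon
      omega
    obtain ⟨L, hL⟩ := chain_exists hcd ha a B
      (((Finset.filter_subset _ _).trans hAJ).trans hJ)
      (fun i hi => hu.trans (hwide i (Finset.filter_subset _ _ hi))) h3
    refine ⟨L, chs_mono (Finset.filter_subset _ _) hL, ?_⟩
    intro i hi
    exact (Finset.mem_filter.1 ((chs_mem hL).2 i hi)).2
  refine h1.trans ((Pr_exists_le _ _).trans ?_)
  refine (Finset.sum_le_sum fun L _ => Pr_act_list L).trans ?_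
  rw [← Finset.mul_sum]
  apply mul_le_mul_of_nonneg_left _ (by positivity)
  apply sum_chs hβ
  intro j' hj' L hL
  apply hsum A hAJ (fun y hy => (Finset.mem_filter.1 hy).2.2)
  rw [(chs_mem hL).1]
  exact hj'.le

end

end Pool.Agent.H687.CD
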