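import Pool.Graph.R_pool_sql_team_seeded_f0cf7b00.H685R2.RK.Defs

/-!
# Learning with constant accuracy, and DNF formulas with bounded codegree: definitions

The library file `Pool.Graph.R_pool_sql_team_seeded_f0cf7b00.H685R2.RK.Defs` defines `DNF n` (lists
of terms; a term is a list of literals `(j, b)`, which are true at `x` if `x j = b`), the value
`DNF.eval φ x` of a formula, and the list `examples f ω` of the labelled examples `(ω i, f (ω i))`.
-/

namespace Pool.Agent.H687.CD

open Pool.Agent.NPC
open Pool.Agent.H685R2.RK (DNF examples)

/-- The class `C` of boolean functions is learnable in polynomial time from uniform random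
examples with every constant accuracy. For every `E` there are a constant `a` and polynomial-time
algorithms `Learn` and `Eval`. For confidence `δ = 1 / D` the learner gets `m = (n + D + 2) ^ a`
examples, independently and uniformly chosen and labelled by the unknown `f ∈ C n`, and the
number `D`. It outputs (the code of) a hypothesis, which `Eval` evaluates at any given point.
Among the `(2 ^ n) ^ m` samples `ω`, the samples for which the hypothesis differs from `f` on more
than `2 ^ n / E` points form at most the fraction `1 / D`. -/
def ConstLearnable (C : (n : ℕ) → Set ((Fin n → Bool) → Bool)) : Prop :=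
  ∀ E : ℕ, 0 < E → ∃ (a : ℕ) (Learn Eval : List Bool → List Bool), PolyTime Learn ∧ PolyTime Eval ∧
    ∀ n D : ℕ, 0 < D → ∀ f ∈ C n,
      D * {ω : Fin ((n + D + 2) ^ a) → Fin n → Bool |
          2 ^ n < E * {x : Fin n → Bool | Eval (pairBits
            (Learn (bits (D, examples f ω))) (List.ofFn x)) ≠ [f x]}.ncard}.ncard ≤
        (2 ^ n) ^ ((n + D + 2) ^ a)

/-- All variables of the set `Q` occur (negated or not) in the term `t`. -/
def TermContains {n : ℕ} (Q : Finset (Fin n)) (t : List (Fin n × Bool)) : Prop :=
  ∀ j ∈ Q, ∃ b : Bool, (j, b) ∈ t

open Classical in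
/-- Any `c` distinct variables occur together in at most `k` terms. -/
def DNFCoDeg {n : ℕ} (c k : ℕ) (φ : DNF n) : Prop :=
  ∀ Q : Finset (Fin n), Q.card = c → (φ.filter (fun t => decide (TermContains Q t))).length ≤ k

end Pool.Agent.H687.CD
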