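import Pool.Agent.H687.CD.Core

/-!
# Every good term of a clean formula is detected
-/

set_option linter.unusedSectionVars false

namespace Pool.Agent.H687.CD

open Finset
open Pool.Agent.H685R2.RK

section

variable {n : ℕ} {ι : Type} [DecidableEq ι] {F : ι → Finset (Fin n)} {v : ι → Fin n → Bool}
  {I : Finset ι} {S V : Finset (Fin n)} {z : Cube n} {c k : ℕ} {i : ι}

theorem bessel' (Y : Finset (Fin n)) (hY : ∀ y ∈ Y, y ∉ F i \ V) {t : ℝ} (ht0 : 0 ≤ t)
    (ht : ∀ y ∈ Y, t ≤ |Ex (fun x => phi F v I V z i x * chi {y} x)|) :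
    Y.card * t * (Y.card * t) ≤
      Ex (phi F v I V z i) * (Y.card * (1 / 2) ^ (F i \ V).card) := by
  have hπ0 : 0 ≤ Ex (phi F v I V z i) := Ex_nonneg phi_nonneg
  rcases bessel Y hY ht with h | h
  · linarith
  · have h1 : (Y.card : ℝ) * t = 0 := le_antisymm h (by positivity)
    rw [h1, mul_zero]
    positivity

/-- The conclusions for the statistics. -/
theorem stats (hi : i ∈ I) (hal : Alive F v V z i) (hS : S ⊆ F i \ V) {η : ℝ} (hη : 0 < η)
    (hπ : η / 2 * (1 / 2) ^ (F i).card ≤ Ex (phi F v I V z i))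
    (hπ' : η / 2 * (1 / 2) ^ (F i \ V).card ≤ Ex (phi F v I V z i))
    (hbg : Pr (fun x => ∀ s ∈ S, Cv F v (I.erase i) S V z s x) ≤ Ex (phi F v I V z i) / 16) :
    η / 4 * (1 / 2) ^ (F i).card ≤ |GamI F v I V z S| ∧
    (∀ y ∈ F i, y ∉ S → y ∉ V → 15 / 17 * |GamI F v I V z S| ≤ |GamI F v I V z (insert y S)|) ∧
    ((Finset.univ.filter (fun y => y ∉ S ∧ y ∉ V ∧
      1 / 3 * |GamI F v I V z S| < |GamI F v I V z (insert y S)|)).card : ℝ) ≤
        (F i).card + 32 / η := by
  classical
  set π := Ex (phi F v I V z i) with hπdef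
  have hπpos : 0 < π := lt_of_lt_of_le (by positivity) hπ
  have hbgU : ∀ U : Finset (Fin n), S ⊆ U →
      |Ex (fun x => ind (Sat F v (I.erase i) (patch V z x)) * chi U x)| ≤ π / 16 :=
    fun U hU => (background hU).trans hbg
  have hGS : |Ex (fun x => phi F v I V z i x * chi S x)| = π := Ex_phi_chi hS
  have h1 : |GamI F v I V z S| ≤ 17 / 16 * π := by
    rw [GamI_eq hi hal]
    have h2 := abs_sub (Ex (fun x => ind (Sat F v (I.erase i) (patch V z x)) * chi S x))
      (Ex (fun x => phi F v I V z i x * chi S x))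
    have h3 := hbgU S subset_rfl
    linarith
  have h2 : 15 / 16 * π ≤ |GamI F v I V z S| := by
    rw [GamI_eq hi hal]
    have h2 := abs_sub_abs_le_abs_sub (Ex (fun x => phi F v I V z i x * chi S x))
      (Ex (fun x => ind (Sat F v (I.erase i) (patch V z x)) * chi S x))
    rw [abs_sub_comm] at h2
    have h3 := hbgU S subset_rfl
    linarith
  refine ⟨?_, ?_, ?_⟩
  · have h3 : (0 : ℝ) < (1 / 2) ^ (F i).card := by positivity
    nlinarith
  · intro y hy hyS hyV
    have hsub : insert y S ⊆ F i \ V := by
      intro j hj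
      rcases Finset.mem_insert.1 hj with rfl | hj
      · exact Finset.mem_sdiff.2 ⟨hy, hyV⟩
      · exact hS hj
    have h3 : |Ex (fun x => phi F v I V z i x * chi (insert y S) x)| = π := Ex_phi_chi hsub
    have h4 := hbgU (insert y S) (Finset.subset_insert _ _)
    have h5 : 15 / 16 * π ≤ |GamI F v I V z (insert y S)| := by
      rw [GamI_eq hi hal]
      have h2 := abs_sub_abs_le_abs_sub (Ex (fun x => phi F v I V z i x * chi (insert y S) x))
        (Ex (fun x => ind (Sat F v (I.erase i) (patch V z x)) * chi (insert y S) x))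
      rw [abs_sub_comm] at h2
      linarith
    linarith
  · set Y := Finset.univ.filter (fun y => y ∉ S ∧ y ∉ V ∧
      1 / 3 * |GamI F v I V z S| < |GamI F v I V z (insert y S)|) with hYdef
    set Y0 := Y \ F i with hY0
    have h3 : Y0.card * (π / 4) * (Y0.card * (π / 4)) ≤
        π * (Y0.card * (1 / 2) ^ (F i \ V).card) := by
      apply bessel'
      · intro y hy hy'
        exact (Finset.mem_sdiff.1 hy).2 (Finset.mem_sdiff.1 hy').1
      · positivity
      · intro y hy
        have h4 := (Finset.mem_filter.1 (Finset.mem_sdiff.1 hy).1).2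
        obtain ⟨hyS, hyV, h5⟩ := h4
        rw [← Ex_phi_insert hS hyS]
        have h6 := hbgU (insert y S) (Finset.subset_insert _ _)
        have h7 : |GamI F v I V z (insert y S)| ≤ π / 16 +
            |Ex (fun x => phi F v I V z i x * chi (insert y S) x)| := by
          rw [GamI_eq hi hal]
          have h2 := abs_sub (Ex (fun x => ind (Sat F v (I.erase i) (patch V z x)) *
            chi (insert y S) x)) (Ex (fun x => phi F v I V z i x * chi (insert y S) x))
          linarith
        linarith
    have h4 : (Y0.card : ℝ) ≤ 32 / η := by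
      rw [le_div_iff₀ hη]
      rcases Nat.eq_zero_or_pos Y0.card with h0 | h0
      · rw [h0]; simp
      · have h5 : (0 : ℝ) < Y0.card := by exact_mod_cast h0
        have h6 : (Y0.card : ℝ) * π ≤ 16 * (1 / 2) ^ (F i \ V).card := by
          have h7 : (Y0.card * π) * (Y0.card * π) ≤ (Y0.card * π) * (16 * (1 / 2) ^ (F i \ V).card) := by
            nlinarith
          exact le_of_mul_le_mul_left h7 (by positivity)
        have h7 : (0 : ℝ) < (1 / 2) ^ (F i \ V).card := by positivity
        have h8 : Y0.card * (η / 2 * (1 / 2) ^ (F i \ V).card) ≤ 16 * (1 / 2) ^ (F i \ V).card :=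
          (mul_le_mul_of_nonneg_left hπ' h5.le).trans h6
        have h9 : (Y0.card * η) * (1 / 2) ^ (F i \ V).card ≤ 32 * (1 / 2) ^ (F i \ V).card := by
          linarith
        exact le_of_mul_le_mul_right h9 h7
    have h5 : Y.card ≤ Y0.card + (F i).card := by
      have h6 : Y ⊆ Y0 ∪ F i := by
        intro y hy
        by_cases hyF : y ∈ F i
        · exact Finset.mem_union_right _ hyF
        · exact Finset.mem_union_left _ (Finset.mem_sdiff.2 ⟨hy, hyF⟩)
      exact (Finset.card_le_card h6).trans (Finset.card_union_le _ _)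
    have h6 : (Y.card : ℝ) ≤ Y0.card + (F i).card := by exact_mod_cast h5
    linarith

/-- The signal is large. -/
theorem signal (hi : i ∈ I) (hal : Alive F v V z i) {H : Finset (Fin n)} {u p q : ℕ} {η : ℝ}
    (hH : ∀ s, s ∉ H → nu F I s ≤ (1 / 2) ^ u)
    (hclean : η ≤ Pr (fun x => Sat F v I (patch (V ∪ (F i ∩ H)) (patch V z (v i)) x)))
    (hov : ∀ i' ∈ I.erase i, Alive F v V z i' → (F i' ∩ F i).card ≤ p) (hV : V.card ≤ q)
    (hnum : ((F i).card : ℝ) * (2 ^ (p + q) * (1 / 2) ^ u) ≤ η / 2) :
    η / 2 * (1 / 2) ^ (F i \ V).card ≤ Ex (phi F v I V z i) := by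
  classical
  set W := F i ∪ V with hW
  set y0 := patch V z (v i) with hy0
  set P : Cube n → Prop := fun x => Sat F v (I.erase i) (patch W y0 x) with hP
  -- the probability on the subcube
  have h1 : Ex (phi F v I V z i) = (1 / 2) ^ (F i \ V).card * Pr P := by
    have h2 : ∀ x, phi F v I V z i x =
        ind ((∀ j ∈ F i \ V, x j = v i j) ∧ Sat F v (I.erase i) (patch V z x)) := by
      intro x
      rw [ind_and]
      unfold phi
      ring
    rw [Ex_congr h2, Ex_ind, Pr_patch (F i \ V) (v i) (fun x => Sat F v (I.erase i) (patch V z x))]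
    congr 1
    apply Pr_congr
    intro x
    rw [hP]
    simp only
    have h3 : patch V z (patch (F i \ V) (v i) x) = patch W y0 x := by
      rw [patch_patch]
      congr 1
      rw [hW]
      ext j
      simp only [Finset.mem_union, Finset.mem_sdiff]
      tauto
    rw [h3]
  rw [h1, mul_comm]
  apply mul_le_mul_of_nonneg_left _ (by positivity)
  -- the bad event
  set B := (I.erase i).filter (fun i' => Alive F v V z i' ∧ ∃ s ∈ F i', s ∈ F i ∧ s ∉ H ∧ s ∉ V)
    with hB
  have h2 : Pr (fun x => Sat F v I (patch (V ∪ (F i ∩ H)) y0 x)) ≤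
      Pr P + ∑ i' ∈ B, Pr (fun x => ∀ j ∈ F i' \ W, x j = v i' j) := by
    refine le_trans (Pr_mono fun x hx => ?_) ((Pr_or_le P _).trans
      (add_le_add le_rfl (Pr_exists_le B (fun i' x => ∀ j ∈ F i' \ W, x j = v i' j))))
    by_contra hcon
    rw [not_or] at hcon
    obtain ⟨hc1, hc2⟩ := hcon
    rw [hP] at hc1
    unfold Sat at hc1
    push Not at hc1
    obtain ⟨i', hi', hT⟩ := hc1
    by_cases hB' : i' ∈ B
    · apply hc2
      refine ⟨i', hB', ?_⟩
      intro j hj
      rw [Finset.mem_sdiff] at hj
      rw [← hT j hj.1, patch_not hj.2]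
    · apply hx i' (Finset.mem_of_mem_erase hi')
      intro j hj
      have h3 := hT j hj
      by_cases hjW : j ∈ W
      · rw [patch_mem hjW] at h3
        by_cases hjV : j ∈ V
        · rw [patch_mem (Finset.mem_union_left _ hjV)]
          exact h3
        · have hjF : j ∈ F i := by
            rcases Finset.mem_union.1 hjW with h | h
            · exact h
            · exact absurd h hjV
          have hjH : j ∈ H := by
            by_contra hjH
            apply hB'
            rw [hB, Finset.mem_filter]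
            refine ⟨hi', ?_, j, hj, hjF, hjH, hjV⟩
            intro l hl hlV
            have h4 := hT l hl
            rw [patch_mem (Finset.mem_union_right _ hlV), hy0, patch_mem hlV] at h4
            exact h4
          rw [patch_mem (Finset.mem_union_right _ (Finset.mem_inter.2 ⟨hjF, hjH⟩))]
          exact h3
      · rw [patch_not hjW] at h3
        rw [patch_not, h3]
        intro h4
        apply hjW
        rcases Finset.mem_union.1 h4 with h | h
        · exact Finset.mem_union_right _ h
        · exact Finset.mem_union_left _ (Finset.mem_inter.1 h).1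
  have h3 : ∑ i' ∈ B, Pr (fun x => ∀ j ∈ F i' \ W, x j = v i' j) ≤ η / 2 := by
    refine le_trans ?_ hnum
    have h4 : ∀ i' ∈ B, Pr (fun x => ∀ j ∈ F i' \ W, x j = v i' j) ≤
        2 ^ (p + q) * (((F i' ∩ (F i \ H)).card : ℝ) * (1 / 2) ^ (F i').card) := by
      intro i' hi'
      rw [hB, Finset.mem_filter] at hi'
      obtain ⟨hi'I, hal', s, hs, hsi, hsH, hsV⟩ := hi'
      rw [Pr_pat]
      have h5 := hov i' hi'I hal'
      have h6 : (F i').card ≤ (F i' \ W).card + (p + q) := by
        have h7 := Finset.card_sdiff_add_card_inter (F i') W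
        have h8 : (F i' ∩ W).card ≤ (F i' ∩ F i).card + V.card := by
          rw [hW, Finset.inter_union_distrib_left]
          refine (Finset.card_union_le _ _).trans ?_
          have := Finset.card_le_card (Finset.inter_subset_right (s₁ := F i') (s₂ := V))
          omega
        omega
      have h7 : (1 / 2 : ℝ) ^ ((F i' \ W).card + (p + q)) ≤ (1 / 2) ^ (F i').card :=
        pow_le_pow_of_le_one (by norm_num) (by norm_num) h6
      rw [pow_add] at h7
      have h8 : (2 : ℝ) ^ (p + q) * (1 / 2) ^ (p + q) = 1 := by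
        rw [← mul_pow]; norm_num
      have h9 : (1 / 2 : ℝ) ^ (F i' \ W).card ≤ 2 ^ (p + q) * (1 / 2) ^ (F i').card := by
        calc (1 / 2 : ℝ) ^ (F i' \ W).card =
            2 ^ (p + q) * ((1 / 2 : ℝ) ^ (F i' \ W).card * (1 / 2) ^ (p + q)) := by
              rw [mul_comm ((1 / 2 : ℝ) ^ (F i' \ W).card), ← mul_assoc, h8, one_mul]
          _ ≤ _ := mul_le_mul_of_nonneg_left h7 (by positivity)
      refine h9.trans (mul_le_mul_of_nonneg_left ?_ (by positivity))
      have h10 : 1 ≤ (F i' ∩ (F i \ H)).card := by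
        rw [Nat.one_le_iff_ne_zero, Finset.card_ne_zero]
        exact ⟨s, Finset.mem_inter.2 ⟨hs, Finset.mem_sdiff.2 ⟨hsi, hsH⟩⟩⟩
      have h11 : (1 : ℝ) ≤ (F i' ∩ (F i \ H)).card := by exact_mod_cast h10
      have h12 : (0 : ℝ) < (1 / 2) ^ (F i').card := by positivity
      nlinarith
    refine (Finset.sum_le_sum h4).trans ?_
    rw [← Finset.mul_sum]
    have h5 : ∑ i' ∈ B, ((F i' ∩ (F i \ H)).card : ℝ) * (1 / 2) ^ (F i').card ≤
        (F i).card * (1 / 2) ^ u := by
      have h6 : ∑ i' ∈ B, ((F i' ∩ (F i \ H)).card : ℝ) * (1 / 2) ^ (F i').card ≤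
          ∑ s ∈ F i \ H, nu F I s := by
        rw [sum_nu]
        exact Finset.sum_le_sum_of_subset_of_nonneg
          ((Finset.filter_subset _ _).trans (Finset.erase_subset _ _)) fun _ _ _ => by positivity
      refine h6.trans ((Finset.sum_le_card_nsmul _ _ _
        (fun s hs => hH s (Finset.mem_sdiff.1 hs).2)).trans ?_)
      rw [nsmul_eq_mul]
      apply mul_le_mul_of_nonneg_right _ (by positivity)
      exact_mod_cast Finset.card_le_card Finset.sdiff_subset
    calc (2 : ℝ) ^ (p + q) * ∑ i' ∈ B, ((F i' ∩ (F i \ H)).card : ℝ) * (1 / 2) ^ (F i').card ≤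
        2 ^ (p + q) * ((F i).card * (1 / 2) ^ u) := mul_le_mul_of_nonneg_left h5 (by positivity)
      _ = _ := by ring
  linarith

end

/-- Distinct representatives which falsify given terms. -/
theorem kill {n : ℕ} {ι : Type} [DecidableEq ι] (F : ι → Finset (Fin n)) (v : ι → Fin n → Bool)
    (A : Finset (Fin n)) : ∀ K : Finset ι, (∀ i ∈ K, K.card ≤ (F i \ A).card) →
    ∃ (V : Finset (Fin n)) (z : Cube n), Disjoint V A ∧ V.card ≤ K.card ∧
      ∀ i ∈ K, ∃ j ∈ F i, j ∈ V ∧ z j ≠ v i j := by
  intro K
  induction K using Finset.induction with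
  | empty =>
    intro _
    exact ⟨∅, fun _ => false, Finset.disjoint_empty_left _, by simp, by simp⟩
  | insert i K hi ih =>
    intro h
    rw [Finset.card_insert_of_notMem hi] at h
    obtain ⟨V, z, h1, h2, h3⟩ := ih (fun i' hi' => by
      have := h i' (Finset.mem_insert_of_mem hi')
      omega)
    have h4 := h i (Finset.mem_insert_self _ _)
    have h5 : ((F i \ A) \ V).Nonempty := by
      rw [← Finset.card_pos]
      have := Finset.le_card_sdiff V (F i \ A)
      omega
    obtain ⟨j, hj⟩ := h5
    rw [Finset.mem_sdiff, Finset.mem_sdiff] at hj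
    refine ⟨insert j V, Function.update z j (!(v i j)), ?_, ?_, ?_⟩
    · rw [Finset.disjoint_insert_left]
      exact ⟨hj.1.2, h1⟩
    · rw [Finset.card_insert_of_notMem hi]
      exact (Finset.card_insert_le _ _).trans (by omega)
    · intro i' hi'
      rcases Finset.mem_insert.1 hi' with rfl | hi'
      · refine ⟨j, hj.1.1, Finset.mem_insert_self _ _, ?_⟩
        rw [Function.update_self]
        simp
      · obtain ⟨j', hj', hjV, hne⟩ := h3 i' hi'
        refine ⟨j', hj', Finset.mem_insert_of_mem hjV, ?_⟩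
        rw [Function.update_of_ne]
        · exact hne
        · rintro rfl
          exact hj.2 hjV

end Pool.Agent.H687.CD
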