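import Pool.Agent.H687.CD.Clean

/-!
# The decomposition of a function into few cylinders and detected terms
-/

set_option linter.unusedSectionVars false

namespace Pool.Agent.H687.CD

open Finset
open Pool.Agent.H685R2.RK

section

variable {n : ℕ}

/-- The point lies in one of the cylinders. -/
def InL (L : Finset (Finset (Fin n) × Cube n)) (x : Cube n) : Prop := ∃ p ∈ L, ∀ j ∈ p.1, x j = p.2 j

theorem Det.mono {f : Cube n → Bool} {D D' r cap : ℕ} {θ : ℝ} {T : Finset (Fin n)} {b : Cube n}
    (h : Det f D r cap θ T b) (hD : D ≤ D') : Det f D' r cap θ T b := by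
  obtain ⟨h1, h2⟩ := h
  refine ⟨h1, ?_⟩
  rcases h2 with h2 | ⟨V, z, S, h3, h4⟩
  · exact Or.inl (h2.trans hD)
  · exact Or.inr ⟨V, z, S, h3.trans hD, h4⟩

theorem Found.mono {f : Cube n → Bool} {D D' r cap : ℕ} {θ : ℝ} {x : Cube n}
    (h : Found f D r cap θ x) (hD : D ≤ D') : Found f D' r cap θ x := by
  obtain ⟨T, b, h1, h2⟩ := h
  exact ⟨T, b, h1.mono hD, h2⟩

/-- Detectable implicants of a restriction give detectable implicants. -/
theorem Found.lift {f : Cube n → Bool} {D r cap : ℕ} {θ : ℝ} (hθ : 0 < θ) {Q : Finset (Fin n)}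
    {u x : Cube n} (h : Found (fun y => f (patch Q u y)) D r cap θ x) :
    Found f (D + Q.card) r cap θ (patch Q u x) := by
  obtain ⟨T, b, ⟨h1, h2⟩, h3⟩ := h
  refine ⟨T ∪ Q, patch Q u b, ⟨?_, ?_⟩, ?_⟩
  · intro y hy
    have h4 : f (patch Q u (patch T b y)) = true := h1 (patch T b y) (fun j hj => patch_mem hj)
    have h5 : patch Q u (patch T b y) = y := by
      funext j
      by_cases hjQ : j ∈ Q
      · rw [patch_mem hjQ]
        have := hy j (Finset.mem_union_right _ hjQ)
        rw [patch_mem hjQ] at this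
        exact this.symm
      · rw [patch_not hjQ]
        by_cases hjT : j ∈ T
        · rw [patch_mem hjT]
          have := hy j (Finset.mem_union_left _ hjT)
          rw [patch_not hjQ] at this
          exact this.symm
        · rw [patch_not hjT]
    rwa [h5] at h4
  · rcases h2 with h2 | ⟨V, z, S, hV, hS, hSV, hθS, hy, hcap⟩
    · left
      have := Finset.card_union_le T Q
      omega
    · right
      have hG : ∀ U, Gam (fun y => f (patch Q u y)) V z U = Gam f (V ∪ Q) (patch Q u z) U := by
        intro U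
        unfold Gam
        apply Ex_congr
        intro x
        change ind (f (patch Q u (patch V z x)) = false) * chi U x = _
        rw [patch_patch]
      have hSQ : Disjoint S Q := by
        rw [Finset.disjoint_left]
        intro s hs hsQ
        have h0 : Gam (fun y => f (patch Q u y)) V z S = 0 := by
          unfold Gam
          apply char_zero hs
          intro x
          congr 2
          apply congrArg f
          funext j
          by_cases hjQ : j ∈ Q
          · rw [patch_mem hjQ, patch_mem hjQ]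
          · rw [patch_not hjQ, patch_not hjQ]
            by_cases hjV : j ∈ V
            · rw [patch_mem hjV, patch_mem hjV]
            · rw [patch_not hjV, patch_not hjV, fl_ne]
              rintro rfl
              exact hjQ hsQ
        rw [h0, abs_zero] at hθS
        linarith
      simp only [hG] at hθS hy hcap
      refine ⟨V ∪ Q, patch Q u z, S, ?_, hS, ?_, hθS, ?_, ?_⟩
      · have := Finset.card_union_le V Q
        omega
      · rw [Finset.disjoint_union_right]
        exact ⟨hSV, hSQ⟩
      · intro y hyT hyS hyV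
        rw [Finset.mem_union, not_or] at hyV
        rcases Finset.mem_union.1 hyT with h | h
        · exact hy y h hyS hyV.1
        · exact absurd h hyV.2
      · refine le_trans (Finset.card_le_card ?_) hcap
        intro y hy
        rw [Finset.mem_filter] at hy ⊢
        obtain ⟨h4, h5, h6, h7⟩ := hy
        rw [Finset.mem_union, not_or] at h6
        exact ⟨h4, h5, h6.1, h7⟩
  · intro j hj
    by_cases hjQ : j ∈ Q
    · rw [patch_mem hjQ, patch_mem hjQ]
    · rw [patch_not hjQ, patch_not hjQ]
      rcases Finset.mem_union.1 hj with h | h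
      · exact h3 j h
      · exact absurd h hjQ

/-- The variance increases. -/
theorem energy_gain {κ' : Type*} (P : Finset κ') (w a δ : ℝ) (g : κ' → ℝ) (hw : 0 < w)
    (hP : w * P.card = 1) (ha : w * ∑ A ∈ P, g A = a) {A₀ : κ'} (hA₀ : A₀ ∈ P) (hδ : 0 ≤ δ)
    (hg : g A₀ + δ ≤ a) : a ^ 2 + w * δ ^ 2 ≤ w * ∑ A ∈ P, g A ^ 2 := by
  have h1 : w * ∑ A ∈ P, (g A - a) ^ 2 = w * ∑ A ∈ P, g A ^ 2 - a ^ 2 := by
    have h2 : ∀ A ∈ P, (g A - a) ^ 2 = g A ^ 2 - 2 * a * g A + a ^ 2 := fun A _ => by ring
    rw [Finset.sum_congr rfl h2, Finset.sum_add_distrib, Finset.sum_sub_distrib, ← Finset.mul_sum,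
      Finset.sum_const, nsmul_eq_mul]
    have h3 : w * (∑ A ∈ P, g A ^ 2 - 2 * a * ∑ A ∈ P, g A + P.card * a ^ 2) =
        w * ∑ A ∈ P, g A ^ 2 - 2 * a * (w * ∑ A ∈ P, g A) + (w * P.card) * a ^ 2 := by ring
    rw [h3, ha, hP]
    ring
  have h2 : δ ^ 2 ≤ ∑ A ∈ P, (g A - a) ^ 2 := by
    have h3 : (g A₀ - a) ^ 2 ≤ ∑ A ∈ P, (g A - a) ^ 2 :=
      Finset.single_le_sum (f := fun A => (g A - a) ^ 2) (fun _ _ => by positivity) hA₀
    have h4 : δ ^ 2 ≤ (g A₀ - a) ^ 2 := by
      have h5 : (g A₀ - a) ^ 2 = (a - g A₀) ^ 2 := by ring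
      rw [h5]
      exact pow_le_pow_left₀ hδ (by linarith) 2
    linarith
  have h3 := mul_le_mul_of_nonneg_left h2 hw.le
  linarith

theorem energy_step {κ' : Type*} (P : Finset κ') (w a δ κ X β : ℝ) (g : κ' → ℝ) (hw : 0 < w)
    (hP : w * P.card = 1) (ha : w * ∑ A ∈ P, g A = a) {A₀ : κ'} (hA₀ : A₀ ∈ P) (hδ : 0 ≤ δ)
    (hg : g A₀ + δ ≤ a) (hκ : κ ≤ w * δ ^ 2) (hκ0 : 0 ≤ κ) (hX : 0 ≤ X) :
    w * ∑ A ∈ P, (X * (1 - g A ^ 2) + β) ≤ X * (1 - κ) * (1 - a ^ 2) + β := by
  have h1 := energy_gain P w a δ g hw hP ha hA₀ hδ hg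
  have h2 : ∑ A ∈ P, (X * (1 - g A ^ 2) + β) =
      X * (P.card - ∑ A ∈ P, g A ^ 2) + P.card * β := by
    rw [Finset.sum_add_distrib, ← Finset.mul_sum, Finset.sum_sub_distrib, Finset.sum_const,
      Finset.sum_const, nsmul_eq_mul, nsmul_eq_mul, mul_one]
  rw [h2]
  set G := ∑ A ∈ P, g A ^ 2
  have h3 : w * (X * (P.card - G) + P.card * β) = X * (w * P.card - w * G) + (w * P.card) * β := by
    ring
  rw [h3, hP, one_mul]
  have h4 : 1 - w * G ≤ (1 - κ) * (1 - a ^ 2) := by nlinarith [sq_nonneg a]
  have h5 := mul_le_mul_of_nonneg_left h4 hX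
  linarith

end

/-- The decomposition. -/
theorem energy (c k : ℕ) (hc : 1 ≤ c) (ε β : ℝ) (hε : 0 < ε) (hε1 : ε ≤ 1) (hβ : 0 < β) :
    ∃ D C : ℕ, ∀ N : ℕ, ∀ {n : ℕ} (lam : ℕ), (k : ℝ) * n ^ c * (1 / 2) ^ lam ≤ β / 2 →
    ∀ (f : Cube n → Bool) (W : Finset (Fin n)), (∀ x y, (∀ j, j ∉ W → x j = y j) → f x = f y) →
    Rep c k f → ∃ L : Finset (Finset (Fin n) × Cube n), L.card ≤ 2 ^ ((q0P c k + c) * N) ∧
      (∀ p ∈ L, p.1.card ≤ (q0P c k + c) * N ∧ Disjoint p.1 W) ∧
      Pr (fun x => f x = false ∧ InL L x) ≤ ε ∧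
      Pr (fun x => f x = true ∧ ¬ InL L x ∧ ¬ Found f (D + (q0P c k + c) * N) (rP c k) (lam + C)
        (ε / 8 * (1 / 2) ^ lam) x) ≤
        (1 - (1 / 2) ^ (q0P c k + c) * (ε / 2) ^ 2) ^ N * (1 - Pr (fun x => f x = false) ^ 2) + β := by
  obtain ⟨D, C, hclean⟩ := clean_cover c k hc (ε / 2) β (by positivity) hβ
  refine ⟨D, C, ?_⟩
  set q := q0P c k + c with hq
  set κ : ℝ := (1 / 2) ^ q * (ε / 2) ^ 2 with hκ
  have hκ0 : 0 < κ := by positivity
  have hκ1 : κ ≤ 1 := by
    have h1 : (1 / 2 : ℝ) ^ q ≤ 1 := pow_le_one₀ (by norm_num) (by norm_num)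
    have h2 : (ε / 2) ^ 2 ≤ 1 := pow_le_one₀ (by positivity) (by linarith)
    calc κ ≤ 1 * 1 := mul_le_mul h1 h2 (by positivity) (by norm_num)
      _ = 1 := by norm_num
  have hε8 : ε / 2 / 4 = ε / 8 := by ring
  intro N n lam hlam
  induction N with
  | zero =>
    intro f W hW hrep
    have ha0 := Pr_nonneg (fun x => f x = false)
    have ha1 := Pr_le_one (fun x => f x = false)
    set a := Pr (fun x => f x = false) with ha
    refine ⟨∅, by simp, by simp, ?_, ?_⟩
    · refine le_trans (Pr_mono (Q := fun _ => False) fun x hx => ?_) ?_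
      · obtain ⟨_, p, hp, _⟩ := hx
        simp at hp
      · have : Pr (fun _ : Cube n => False) = 0 := by
          rw [← Ex_ind]
          rw [Ex_congr (h := fun _ => 0) fun x => ind_false not_false, Ex_const]
        rw [this]
        exact hε.le
    · have h1 : Pr (fun x => f x = true ∧ ¬ InL ∅ x ∧ ¬ Found f (D + q * 0) (rP c k) (lam + C)
          (ε / 8 * (1 / 2) ^ lam) x) ≤ Pr (fun x => ¬ f x = false) :=
        Pr_mono fun x hx => by rw [hx.1]; simp
      rw [Pr_not, ← ha] at h1
      rw [pow_zero, one_mul]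
      nlinarith
  | succ N ih =>
    intro f W hW hrep
    have ha0 := Pr_nonneg (fun x => f x = false)
    have ha1 := Pr_le_one (fun x => f x = false)
    set a := Pr (fun x => f x = false) with ha
    have hone : 0 ≤ (1 - κ) ^ (N + 1) * (1 - a ^ 2) := by
      apply mul_nonneg (pow_nonneg (by linarith) _)
      nlinarith
    by_cases hsmall : a < ε
    · -- the function is almost true
      refine ⟨{(∅, fun _ => false)}, ?_, ?_, ?_, ?_⟩
      · rw [Finset.card_singleton]
        exact Nat.one_le_two_pow
      · intro p hp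
        rw [Finset.mem_singleton] at hp
        subst hp
        simp
      · exact (Pr_mono fun x hx => hx.1).trans hsmall.le
      · refine le_trans (Pr_mono (Q := fun _ => False) fun x hx => ?_) ?_
        · exact hx.2.1 ⟨_, Finset.mem_singleton_self _, by simp⟩
        · have : Pr (fun _ : Cube n => False) = 0 := by
            rw [← Ex_ind]
            rw [Ex_congr (h := fun _ => 0) fun x => ind_false not_false, Ex_const]
          rw [this]
          linarith
    push Not at hsmall
    by_cases hcl : ∀ (V : Finset (Fin n)) (z : Cube n), V.card ≤ q →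
        ε / 2 ≤ Pr (fun x => f (patch V z x) = false)
    · -- the function is clean
      have h1 := hclean f hrep hcl lam hlam
      rw [hε8] at h1
      refine ⟨∅, by simp, by simp, ?_, ?_⟩
      · refine le_trans (Pr_mono (Q := fun _ => False) fun x hx => ?_) ?_
        · obtain ⟨_, p, hp, _⟩ := hx
          simp at hp
        · have : Pr (fun _ : Cube n => False) = 0 := by
            rw [← Ex_ind]
            rw [Ex_congr (h := fun _ => 0) fun x => ind_false not_false, Ex_const]
          rw [this]
          exact hε.le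
      · refine le_trans (Pr_mono fun x hx => ⟨hx.1, fun h => hx.2.2 ?_⟩) (h1.trans (by linarith))
        exact h.mono (Nat.le_add_right _ _)
    -- a restriction of few variables is almost true
    push Not at hcl
    obtain ⟨Q', u, hQ', hu'⟩ := hcl
    set Q := Q' \ W with hQ
    have hQc : Q.card ≤ q := (Finset.card_le_card Finset.sdiff_subset).trans hQ'
    have hu : Pr (fun x => f (patch Q u x) = false) < ε / 2 := by
      refine lt_of_le_of_lt (le_of_eq (Pr_congr fun x => ?_)) hu'
      rw [hW (patch Q u x) (patch Q' u x)]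
      intro j hj
      by_cases hjQ : j ∈ Q'
      · rw [patch_mem hjQ, patch_mem (Finset.mem_sdiff.2 ⟨hjQ, hj⟩)]
      · rw [patch_not hjQ, patch_not (fun h => hjQ (Finset.mem_sdiff.1 h).1)]
    have hQW : Disjoint Q W := Finset.sdiff_disjoint
    -- the restrictions
    have hres : ∀ A : Finset (Fin n), ∀ x y : Cube n, (∀ j, j ∉ W ∪ Q → x j = y j) →
        f (patch Q (pt A) x) = f (patch Q (pt A) y) := by
      intro A x y hxy
      apply hW
      intro j hj
      by_cases hjQ : j ∈ Q
      · rw [patch_mem hjQ, patch_mem hjQ]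
      · rw [patch_not hjQ, patch_not hjQ]
        apply hxy
        rw [Finset.mem_union]
        tauto
    have hih := fun A : Finset (Fin n) => ih (fun x => f (patch Q (pt A) x)) (W ∪ Q) (hres A)
      (hrep.res Q (pt A))
    choose LA hL1 hL2 hL3 hL4 using hih
    classical
    set L := Q.powerset.biUnion (fun A => (LA A).image (fun p => (p.1 ∪ Q, patch Q (pt A) p.2)))
      with hL
    have hin : ∀ A ∈ Q.powerset, ∀ x, InL L (patch Q (pt A) x) ↔ InL (LA A) x := by
      intro A hA x
      rw [Finset.mem_powerset] at hA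
      constructor
      · rintro ⟨p, hp, hpx⟩
        rw [hL, Finset.mem_biUnion] at hp
        obtain ⟨A', hA', hp⟩ := hp
        rw [Finset.mem_powerset] at hA'
        obtain ⟨p', hp', rfl⟩ := Finset.mem_image.1 hp
        have hAA : A' = A := by
          ext j
          by_cases hjQ : j ∈ Q
          · have h1 := hpx j (Finset.mem_union_right _ hjQ)
            simp only [patch_mem hjQ] at h1
            unfold pt at h1
            rw [decide_eq_decide] at h1
            exact h1.symm
          · exact ⟨fun h => absurd (hA' h) hjQ, fun h => absurd (hA h) hjQ⟩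
        subst hAA
        refine ⟨p', hp', ?_⟩
        intro j hj
        have hjQ : j ∉ Q := fun h => Finset.disjoint_left.1 (hL2 A' p' hp').2 hj
          (Finset.mem_union_right _ h)
        have h1 := hpx j (Finset.mem_union_left _ hj)
        simp only [patch_not hjQ] at h1
        exact h1
      · rintro ⟨p, hp, hpx⟩
        refine ⟨(p.1 ∪ Q, patch Q (pt A) p.2), ?_, ?_⟩
        · rw [hL, Finset.mem_biUnion]
          exact ⟨A, Finset.mem_powerset.2 hA, Finset.mem_image.2 ⟨p, hp, rfl⟩⟩
        · intro j hj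
          by_cases hjQ : j ∈ Q
          · simp only [patch_mem hjQ]
          · simp only [patch_not hjQ]
            rcases Finset.mem_union.1 hj with h | h
            · exact hpx j h
            · exact absurd h hjQ
    refine ⟨L, ?_, ?_, ?_, ?_⟩
    · -- the number of cylinders
      have h1 : L.card ≤ Q.powerset.card * 2 ^ (q * N) := by
        apply Finset.card_biUnion_le_card_mul
        intro A _
        exact Finset.card_image_le.trans (hL1 A)
      rw [Finset.card_powerset] at h1
      calc L.card ≤ 2 ^ Q.card * 2 ^ (q * N) := h1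
        _ ≤ 2 ^ q * 2 ^ (q * N) :=
            Nat.mul_le_mul_right _ (Nat.pow_le_pow_right (by norm_num) hQc)
        _ = 2 ^ (q * (N + 1)) := by rw [← pow_add]; congr 1; ring
    · intro p hp
      rw [hL, Finset.mem_biUnion] at hp
      obtain ⟨A, _, hp⟩ := hp
      obtain ⟨p', hp', rfl⟩ := Finset.mem_image.1 hp
      obtain ⟨h1, h2⟩ := hL2 A p' hp'
      refine ⟨?_, ?_⟩
      · have h3 := Finset.card_union_le p'.1 Q
        have h4 : q * (N + 1) = q * N + q := by ring
        simp only
        omega
      · rw [Finset.disjoint_union_left]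
        exact ⟨Finset.disjoint_of_subset_right Finset.subset_union_left h2, hQW⟩
    · rw [Pr_avg Q]
      have h1 : ∀ A ∈ Q.powerset, Pr (fun x => f (patch Q (pt A) x) = false ∧
          InL L (patch Q (pt A) x)) ≤ ε := by
        intro A hA
        refine le_trans (le_of_eq (Pr_congr fun x => ?_)) (hL3 A)
        rw [hin A hA]
      refine (mul_le_mul_of_nonneg_left (Finset.sum_le_card_nsmul _ _ _ h1)
        (by positivity)).trans (le_of_eq ?_)
      rw [Finset.card_powerset, nsmul_eq_mul]
      push_cast
      rw [← mul_assoc, ← mul_pow]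
      norm_num
    · rw [Pr_avg Q]
      have h1 : ∀ A ∈ Q.powerset, Pr (fun x => f (patch Q (pt A) x) = true ∧
          ¬ InL L (patch Q (pt A) x) ∧ ¬ Found f (D + q * (N + 1)) (rP c k) (lam + C)
            (ε / 8 * (1 / 2) ^ lam) (patch Q (pt A) x)) ≤
          (1 - κ) ^ N * (1 - Pr (fun x => f (patch Q (pt A) x) = false) ^ 2) + β := by
        intro A hA
        refine le_trans (Pr_mono fun x hx => ?_) (hL4 A)
        refine ⟨hx.1, fun h => hx.2.1 ((hin A hA x).2 h), fun h => hx.2.2 ?_⟩
        have h2 := h.lift (f := f) (by positivity)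
        apply h2.mono
        have h4 : q * (N + 1) = q * N + q := by ring
        omega
      refine (mul_le_mul_of_nonneg_left (Finset.sum_le_sum h1) (by positivity)).trans ?_
      have hw : (1 / 2 : ℝ) ^ Q.card * Q.powerset.card = 1 := by
        rw [Finset.card_powerset]
        push_cast
        rw [← mul_pow]
        norm_num
      have hκQ : κ ≤ (1 / 2) ^ Q.card * (ε / 2) ^ 2 := by
        rw [hκ]
        apply mul_le_mul_of_nonneg_right _ (by positivity)
        exact pow_le_pow_of_le_one (by norm_num) (by norm_num) hQc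
      have e3 : 0 ≤ (1 - κ) ^ N := pow_nonneg (by linarith) _
      have hA0 : Pr (fun x => f (patch Q (pt (Q.filter (fun j => u j = true))) x) = false) +
          ε / 2 ≤ a := by
        have h2 : Pr (fun x => f (patch Q (pt (Q.filter (fun j => u j = true))) x) = false) =
            Pr (fun x => f (patch Q u x) = false) := by
          apply Pr_congr
          intro x
          rw [patch_congr (z := pt (Q.filter (fun j => u j = true))) (z' := u)]
          intro j hj
          unfold pt
          cases huj : u j <;> simp [hj, huj]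
        rw [h2]
        linarith
      have hmem : Q.filter (fun j => u j = true) ∈ Q.powerset :=
        Finset.mem_powerset.2 (Finset.filter_subset _ _)
      have hav : (1 / 2 : ℝ) ^ Q.card * ∑ A ∈ Q.powerset,
          Pr (fun x => f (patch Q (pt A) x) = false) = a := by
        rw [ha]
        exact (Pr_avg Q (fun x => f x = false)).symm
      have hfin := energy_step Q.powerset ((1 / 2) ^ Q.card) a (ε / 2) κ ((1 - κ) ^ N) β
        (fun A => Pr (fun x => f (patch Q (pt A) x) = false)) (by positivity) hw hav hmem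
        (by positivity) hA0 hκQ hκ0.le e3
      rw [pow_succ]
      exact hfin

end Pool.Agent.H687.CD
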