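import Pool.Agent.H687.CD.Corr

/-!
# The error of the learner
-/

set_option linter.unusedSectionVars false

namespace Pool.Agent.H687.CD

open Finset
open Pool.Agent.H685R2.RK
open Pool.Agent.H685R2.VST (tup mem_tup)

/-- The learner is correct on good samples. -/
theorem correct {n m m₁ s d r t cap₀ E : ℕ} {f : Cube n → Bool} {ω : Fin m → Cube n} {θ τ₁ : ℝ}
    (hE : 0 < E) (hm : m₁ ≤ m) (hm0 : 0 < m₁) (hg : Good f ω m₁ s τ₁ (1 / (16 * E)))
    (hτ : 0 < τ₁) (hθ : 10 * τ₁ ≤ (1 / 2) ^ d * θ) (hpat : τ₁ ≤ (1 / 2) ^ (d + r + cap₀))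
    (hcap : 2 ^ (d + r + cap₀) ≤ m₁)
    (hs : (n + 1) ^ d * m₁ + (n + 1) ^ d * (m₁ * ((n + 1) ^ r * (m₁ * m₁))) + t ≤ s)
    (L : Finset (Finset (Fin n) × Cube n)) (hLc : L.card ≤ t) (hLd : ∀ p ∈ L, p.1.card ≤ d)
    (hL1 : Pr (fun x => f x = false ∧ InL L x) ≤ 1 / (8 * E))
    (hL2 : Pr (fun x => f x = true ∧ ¬ InL L x ∧ ¬ Found f d r cap₀ θ x) ≤ 1 / (4 * E)) :
    (E : ℝ) * Pr (fun x => evalD (learnD ((smp f ω).take m₁) d r t E (List.range n)
      (ptsL ((smp f ω).take m₁)) (negL ((smp f ω).take m₁)) (negL (smp f ω)) (smp f ω))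
        (List.ofFn x) ≠ f x) ≤ 1 := by
  classical
  have hsm : (smp f ω).length = m := by
    unfold smp
    rw [List.length_ofFn]
  have hlen : ((smp f ω).take m₁).length = m₁ := by
    rw [List.length_take, hsm]
    omega
  set K := kept ((smp f ω).take m₁) d r (List.range n) (ptsL ((smp f ω).take m₁))
      (negL ((smp f ω).take m₁)) (negL (smp f ω)) with hK
  have hKlen : K.length + t ≤ s := by
    have h1 := kept_length (d := d) (r := r) ((smp f ω).take m₁) (by omega) (List.range n)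
      (ptsL ((smp f ω).take m₁)) (negL ((smp f ω).take m₁)) (negL (smp f ω))
    rw [← hK, List.length_range, hlen] at h1
    have h2 : (ptsL ((smp f ω).take m₁)).length = m₁ := by
      unfold ptsL
      rw [List.length_map, hlen]
    have h3 : (negL ((smp f ω).take m₁)).length ≤ m₁ := by
      unfold negL
      rw [List.length_map]
      exact (List.length_filter_le _ _).trans hlen.le
    rw [h2] at h1
    have h4 : (n + 1) ^ d * ((negL ((smp f ω).take m₁)).length * ((n + 1) ^ r * (m₁ * m₁))) ≤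
        (n + 1) ^ d * (m₁ * ((n + 1) ^ r * (m₁ * m₁))) :=
      Nat.mul_le_mul_left _ (Nat.mul_le_mul_right _ h3)
    omega
  have hKcyl : ∀ t' ∈ K, IsCyl n t' := kept_isCyl _ _ _ _
  have hm' : (0 : ℝ) < m := by exact_mod_cast (lt_of_lt_of_le hm0 hm)
  have hE' : (0 : ℝ) < E := by exact_mod_cast hE
  -- formulas with the kept terms and a tuple
  have hrep : ∀ L' ∈ tup t (cyls d (List.range n) (ptsL ((smp f ω).take m₁))),
      ∃ κ : Fin s → Option (Finset (Fin n) × Cube n),
        ∀ x : Cube n, evalD (K ++ L') (List.ofFn x) = true ↔ Dn κ x := by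
    intro L' hL'
    rw [mem_tup] at hL'
    apply exists_dn
    · rw [List.length_append]
      omega
    · intro t' ht'
      rcases List.mem_append.1 ht' with h | h
      · exact hKcyl t' h
      · exact cyls_isCyl _ t' (hL'.2 t' h)
  obtain ⟨Ls, hLs, hLsx⟩ := exists_tuple (d := d) (r := r) (t := t) (cap₀ := cap₀) hg hpat L hLc hLd
  -- the good choice has a small empirical error
  have hgood : 4 * E * errL (K ++ Ls) (smp f ω) ≤ 3 * (smp f ω).length := by
    obtain ⟨κ, hκ⟩ := hrep Ls hLs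
    have hLsr : ∃ κ' : Fin s → Option (Finset (Fin n) × Cube n),
        ∀ x : Cube n, evalD Ls (List.ofFn x) = true ↔ Dn κ' x := by
      apply exists_dn
      · have := ((mem_tup _ _ _).1 hLs).1
        omega
      · intro t' ht'
        exact cyls_isCyl _ t' (((mem_tup _ _ _).1 hLs).2 t' ht')
    obtain ⟨κ', hκ'⟩ := hLsr
    have h1 := errL_eq f ω hκ
    have h2 : ∑ i, gE f (κ, false) (ω i) ≤ ∑ i, gE f (κ', false) (ω i) := by
      apply Finset.sum_le_sum
      intro i _
      unfold gE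
      apply ind_mono
      simp only
      rintro ⟨h3, h4⟩
      refine ⟨h3, ?_⟩
      have h5 := (hκ (ω i)).2 (h4.2 trivial)
      rw [evalD_append, kept_neg _ _ _ _ h3, Bool.false_or] at h5
      exact iff_of_true ((hκ' (ω i)).1 h5) trivial
    have h3 := (abs_lt.1 (hg.er κ' false)).2
    have h4 := (abs_lt.1 (hg.er κ true)).2
    have h5 : Ex (gE f (κ', false)) ≤ 1 / (8 * E) := by
      refine le_trans (le_of_eq ?_) hL1
      rw [← Ex_ind]
      apply Ex_congr
      intro x
      unfold gE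
      apply ind_congr
      simp only
      apply and_congr_right
      intro _
      rw [← hLsx, hκ']
      simp
    have h6 : Ex (gE f (κ, true)) ≤ 1 / (4 * E) := by
      refine le_trans ?_ hL2
      rw [← Ex_ind]
      apply Ex_mono
      intro x
      unfold gE
      apply ind_mono
      simp only
      rintro ⟨h7, h8⟩
      have h9 : ¬ evalD (K ++ Ls) (List.ofFn x) = true := by
        rw [hκ]
        intro h
        simpa using h8.1 h
      rw [evalD_append, Bool.or_eq_true, not_or] at h9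
      refine ⟨h7, fun h => h9.2 ((hLsx x).2 h), fun h => h9.1 ?_⟩
      exact found_kept _ (by rw [hlen]; exact hcap) hm hm0 hg hτ hθ hpat h
    have h7 : (errL (K ++ Ls) (smp f ω) : ℝ) ≤ m * (1 / (2 * E)) := by
      rw [h1]
      have h8 := mul_le_mul_of_nonneg_left h5 hm'.le
      have h9 := mul_le_mul_of_nonneg_left h6 hm'.le
      have h10 : (m : ℝ) * (1 / (8 * E)) + (m : ℝ) * (1 / (4 * E)) +
          2 * (1 / (16 * E) * m) = m * (1 / (2 * E)) := by
        field_simp
        norm_num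
      linarith
    rw [hsm]
    have h8 : (4 * E * errL (K ++ Ls) (smp f ω) : ℝ) ≤ 2 * m := by
      calc (4 * E * errL (K ++ Ls) (smp f ω) : ℝ) ≤ 4 * E * (m * (1 / (2 * E))) :=
            mul_le_mul_of_nonneg_left h7 (by positivity)
        _ = 2 * m := by field_simp; norm_num
    have h9 : 4 * E * errL (K ++ Ls) (smp f ω) ≤ 2 * m := by exact_mod_cast h8
    omega
  -- the choice of the learner
  set Fl := (tup t (cyls d (List.range n) (ptsL ((smp f ω).take m₁)))).filter
    (fun L' => decide (4 * E * errL (K ++ L') (smp f ω) ≤ 3 * (smp f ω).length)) with hFl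
  have hmem : Ls ∈ Fl := by
    rw [hFl, List.mem_filter, decide_eq_true_eq]
    exact ⟨hLs, hgood⟩
  obtain ⟨L', hL'⟩ : ∃ L', Fl.head? = some L' := by
    cases hF : Fl with
    | nil => rw [hF] at hmem; simp at hmem
    | cons L' tl => exact ⟨L', rfl⟩
  have hL'm : L' ∈ Fl := List.mem_of_mem_head? hL'
  rw [hFl, List.mem_filter, decide_eq_true_eq] at hL'm
  have hlearn : learnD ((smp f ω).take m₁) d r t E (List.range n)
      (ptsL ((smp f ω).take m₁)) (negL ((smp f ω).take m₁)) (negL (smp f ω)) (smp f ω) =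
      K ++ L' := by
    unfold learnD
    rw [← hK, ← hFl, hL']
    rfl
  rw [hlearn]
  obtain ⟨κ, hκ⟩ := hrep L' hL'm.1
  rw [trueErr_eq f hκ]
  have h1 := errL_eq f ω hκ
  have h2 := (abs_lt.1 (hg.er κ false)).1
  have h3 := (abs_lt.1 (hg.er κ true)).1
  have h4 : (4 * E * errL (K ++ L') (smp f ω) : ℝ) ≤ 3 * m := by
    have := hL'm.2
    rw [hsm] at this
    exact_mod_cast this
  have h5 : (m : ℝ) * (Ex (gE f (κ, false)) + Ex (gE f (κ, true))) ≤
      errL (K ++ L') (smp f ω) + 2 * (1 / (16 * E) * m) := by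
    rw [h1]
    linarith
  have h6 : (m : ℝ) * (E * (Ex (gE f (κ, false)) + Ex (gE f (κ, true)))) ≤ m * 1 := by
    have h7 := mul_le_mul_of_nonneg_left h5 hE'.le
    have h8 : (E : ℝ) * (errL (K ++ L') (smp f ω) + 2 * (1 / (16 * E) * m)) =
        E * errL (K ++ L') (smp f ω) + m / 8 := by
      field_simp
      ring
    rw [h8] at h7
    linarith
  exact le_of_mul_le_mul_left h6 hm'

/-- The decomposition with accuracy `1 / E`. -/
theorem decomp (c k : ℕ) (hc : 1 ≤ c) (E : ℕ) (hE : 0 < E) : ∃ d r t C : ℕ, ∀ {n : ℕ} (lam : ℕ),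
    (k : ℝ) * n ^ c * (1 / 2) ^ lam ≤ 1 / (16 * E) → ∀ f : Cube n → Bool, Rep c k f →
    ∃ L : Finset (Finset (Fin n) × Cube n), L.card ≤ t ∧ (∀ p ∈ L, p.1.card ≤ d) ∧
      Pr (fun x => f x = false ∧ InL L x) ≤ 1 / (8 * E) ∧
      Pr (fun x => f x = true ∧ ¬ InL L x ∧
        ¬ Found f d r (lam + C) (1 / (64 * E) * (1 / 2) ^ lam) x) ≤ 1 / (4 * E) := by
  have hE' : (1 : ℝ) ≤ E := by exact_mod_cast hE
  have hε1 : (1 : ℝ) / (8 * E) ≤ 1 := by
    rw [div_le_one (by positivity)]
    linarith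
  obtain ⟨D, C, h⟩ := energy c k hc (1 / (8 * E)) (1 / (8 * E)) (by positivity) hε1 (by positivity)
  set q := q0P c k + c with hq
  set κ : ℝ := (1 / 2) ^ q * (1 / (8 * E) / 2) ^ 2 with hκ
  have hκ0 : 0 < κ := by positivity
  have hκ1 : κ < 1 := by
    have h1 : (1 / 2 : ℝ) ^ q ≤ 1 := pow_le_one₀ (by norm_num) (by norm_num)
    have h2 : (1 / (8 * E : ℝ) / 2) ^ 2 < 1 := pow_lt_one₀ (by positivity) (by linarith) (by norm_num)
    calc κ ≤ 1 * (1 / (8 * E : ℝ) / 2) ^ 2 := mul_le_mul_of_nonneg_right h1 (by positivity)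
      _ < 1 := by rw [one_mul]; exact h2
  obtain ⟨N, hN⟩ := exists_pow_lt_of_lt_one (by positivity : (0 : ℝ) < 1 / (8 * E))
    (by linarith : 1 - κ < 1)
  refine ⟨D + q * N, rP c k, 2 ^ (q * N), C, ?_⟩
  intro n lam hlam f hrep
  have e1 : (1 : ℝ) / (8 * E) / 2 = 1 / (16 * E) := by
    field_simp
    norm_num
  have e2 : (1 : ℝ) / (8 * E) / 8 = 1 / (64 * E) := by
    field_simp
    norm_num
  obtain ⟨L, h1, h2, h3, h4⟩ := h N lam (by rw [e1]; exact hlam) f ∅ (by
    intro x y hxy
    have : x = y := by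
      funext j
      exact hxy j (by simp)
    rw [this]) hrep
  refine ⟨L, h1, fun p hp => (h2 p hp).1.trans (Nat.le_add_left _ _), h3, ?_⟩
  rw [e2] at h4
  refine h4.trans ?_
  have h5 : (1 - κ) ^ N * (1 - Pr (fun x => f x = false) ^ 2) ≤ 1 / (8 * E) * 1 := by
    apply mul_le_mul hN.le _ _ (by positivity)
    · have := sq_nonneg (Pr (fun x => f x = false))
      linarith
    · have h6 := Pr_nonneg (fun x => f x = false)
      have h7 := Pr_le_one (fun x => f x = false)
      nlinarith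
  have h6 : (1 : ℝ) / (8 * E) * 1 + 1 / (8 * E) = 1 / (4 * E) := by
    field_simp
    norm_num
  linarith

end Pool.Agent.H687.CD
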