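import Pool.Agent.H687.CD.Detect

/-!
# The choice of the restriction and of the set for a given term
-/

set_option linter.unusedSectionVars false

namespace Pool.Agent.H687.CD

open Finset
open Pool.Agent.H685R2.RK

/-- The size of the set `S`. -/
def rP (c k : ℕ) : ℕ := (c - 1) * (16 * c * (k * (4 * (16 * c)) ^ c)) + 1

/-- The number of the restricted variables. -/
def q0P (c k : ℕ) : ℕ := k * (4 * (4 * c)) ^ c + k * (rP c k) ^ c

/-- The conditions on the width. -/
structure Wide (c k : ℕ) (η K : ℝ) (w : ℕ) : Prop where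
  h1 : 4 * (4 * c) * c ≤ w
  h2 : c + k * (4 * (4 * c)) ^ c + rP c k ≤ w
  h3 : q0P c k ≤ w / (8 * c)
  h4 : 4 * (16 * c) * c ≤ w / (4 * c)
  h5 : (w : ℝ) * (2 ^ (w / (8 * c) + q0P c k) * (1 / 2) ^ (w / (4 * c))) ≤ η / 2
  h6 : (2 : ℝ) ^ (rP c k + q0P c k) * (K * (4 / 5) ^ (w / (4 * c))) ^ (16 * c) ≤
    η / 32 * (1 / 2) ^ w

theorem wide_exists (c k : ℕ) (hc : 1 ≤ c) {η K : ℝ} (hη : 0 < η) (hK : 0 < K) :
    ∃ L : ℕ, ∀ w ≥ L, Wide c k η K w := by
  obtain ⟨K', hK', hKw⟩ := pg_bound 1 (r := 1 / 2) (s := 3 / 4) (by norm_num) (by norm_num)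
  obtain ⟨L1, hL1⟩ := geo_small (s := 3 / 4) (δ := η / 2) (2 ^ q0P c k * (8 * c * K'))
    (by norm_num) (by norm_num) (by positivity)
  obtain ⟨L2, hL2⟩ := geo_small (s := 512 / 625) (δ := η / 32)
    (2 ^ (rP c k + q0P c k) * K ^ (16 * c) * (5 / 4) ^ (16 * c))
    (by norm_num) (by norm_num) (by positivity)
  refine ⟨4 * (4 * c) * c + (c + k * (4 * (4 * c)) ^ c + rP c k) + 8 * c * q0P c k +
    4 * c * (4 * (16 * c) * c) + 8 * c * L1 + L2, fun w hw => ?_⟩
  have hle : ∀ x y : ℕ, x ≤ w - y → x ≤ w := fun x y h => h.trans (Nat.sub_le _ _)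
  refine ⟨by omega, by omega, ?_, ?_, ?_, ?_⟩
  · rw [Nat.le_div_iff_mul_le (by omega), mul_comm]
    omega
  · rw [Nat.le_div_iff_mul_le (by omega), mul_comm]
    omega
  · set p := w / (8 * c) with hp
    set u := w / (4 * c) with hu
    have hpL : L1 ≤ p := by
      rw [hp, Nat.le_div_iff_mul_le (by omega), mul_comm]
      omega
    have hup : 2 * p ≤ u := by
      rw [hu, Nat.le_div_iff_mul_le (by omega)]
      calc 2 * p * (4 * c) = p * (8 * c) := by ring
        _ ≤ w := Nat.div_mul_le_self _ _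
    have hwp : (w : ℝ) ≤ 8 * c * ((p + 1 : ℕ) : ℝ) := by
      have h1 : w ≤ 8 * c * (p + 1) := by
        have := Nat.lt_div_mul_add (a := w) (b := 8 * c) (by omega)
        calc w ≤ w / (8 * c) * (8 * c) + 8 * c := this.le
          _ = _ := by rw [← hp]; ring
      exact_mod_cast h1
    have h2 : (2 : ℝ) ^ (p + q0P c k) * (1 / 2) ^ u ≤ 2 ^ q0P c k * (1 / 2) ^ p := by
      have h3 : (1 / 2 : ℝ) ^ u ≤ (1 / 2) ^ (2 * p) :=
        pow_le_pow_of_le_one (by norm_num) (by norm_num) hup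
      calc (2 : ℝ) ^ (p + q0P c k) * (1 / 2) ^ u ≤ 2 ^ (p + q0P c k) * (1 / 2) ^ (2 * p) :=
            mul_le_mul_of_nonneg_left h3 (by positivity)
        _ = 2 ^ q0P c k * ((2 * (1 / 2)) ^ p * (1 / 2) ^ p) := by
            rw [pow_add, mul_pow, two_mul p, pow_add]; ring
        _ = _ := by norm_num
    have h3 := hKw p
    rw [pow_one] at h3
    calc (w : ℝ) * (2 ^ (p + q0P c k) * (1 / 2) ^ u) ≤
        (8 * c * ((p + 1 : ℕ) : ℝ)) * (2 ^ q0P c k * (1 / 2) ^ p) :=
          mul_le_mul hwp h2 (by positivity) (by positivity)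
      _ = 2 ^ q0P c k * (8 * c * (((p + 1 : ℕ) : ℝ) * (1 / 2) ^ p)) := by ring
      _ ≤ 2 ^ q0P c k * (8 * c * (K' * (3 / 4) ^ p)) := by
          apply mul_le_mul_of_nonneg_left _ (by positivity)
          exact mul_le_mul_of_nonneg_left h3 (by positivity)
      _ = 2 ^ q0P c k * (8 * c * K') * (3 / 4) ^ p := by ring
      _ ≤ _ := hL1 p hpL
  · set u := w / (4 * c) with hu
    have h1 : 4 * w ≤ u * (16 * c) + 16 * c := by
      have := Nat.lt_div_mul_add (a := w) (b := 4 * c) (by omega)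
      calc 4 * w ≤ 4 * (w / (4 * c) * (4 * c) + 4 * c) := by omega
        _ = _ := by rw [← hu]; ring
    have h2 : (4 / 5 : ℝ) ^ (u * (16 * c)) ≤ (5 / 4) ^ (16 * c) * (256 / 625) ^ w := by
      have h3 : (4 / 5 : ℝ) ^ (u * (16 * c) + 16 * c) ≤ (4 / 5) ^ (4 * w) :=
        pow_le_pow_of_le_one (by norm_num) (by norm_num) h1
      rw [pow_add, pow_mul _ 4 w] at h3
      have h4 : (5 / 4 : ℝ) ^ (16 * c) * (4 / 5) ^ (16 * c) = 1 := by
        rw [← mul_pow]; norm_num
      calc (4 / 5 : ℝ) ^ (u * (16 * c)) =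
          (5 / 4) ^ (16 * c) * ((4 / 5 : ℝ) ^ (u * (16 * c)) * (4 / 5) ^ (16 * c)) := by
            calc (4 / 5 : ℝ) ^ (u * (16 * c)) =
                ((5 / 4) ^ (16 * c) * (4 / 5) ^ (16 * c)) * (4 / 5 : ℝ) ^ (u * (16 * c)) := by
                  rw [h4, one_mul]
              _ = _ := by ring
        _ ≤ (5 / 4) ^ (16 * c) * ((4 / 5) ^ 4) ^ w := mul_le_mul_of_nonneg_left h3 (by positivity)
        _ = _ := by norm_num
    have h5 := hL2 w (by omega)
    calc (2 : ℝ) ^ (rP c k + q0P c k) * (K * (4 / 5) ^ u) ^ (16 * c) =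
        2 ^ (rP c k + q0P c k) * K ^ (16 * c) * (4 / 5) ^ (u * (16 * c)) := by
          rw [mul_pow, ← pow_mul]; ring
      _ ≤ 2 ^ (rP c k + q0P c k) * K ^ (16 * c) * ((5 / 4) ^ (16 * c) * (256 / 625) ^ w) :=
          mul_le_mul_of_nonneg_left h2 (by positivity)
      _ = (2 ^ (rP c k + q0P c k) * K ^ (16 * c) * (5 / 4) ^ (16 * c) * (512 / 625) ^ w) *
          (1 / 2) ^ w := by
          have : (256 / 625 : ℝ) ^ w = (512 / 625) ^ w * (1 / 2) ^ w := by
            rw [← mul_pow]; norm_num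
          rw [this]; ring
      _ ≤ _ := mul_le_mul_of_nonneg_right h5 (by positivity)

/-- Every term of the family has a point at which it is the only true term. -/
def Irr {n : ℕ} {ι : Type} [DecidableEq ι] (F : ι → Finset (Fin n)) (v : ι → Fin n → Bool)
    (I : Finset ι) : Prop :=
  ∀ i ∈ I, ∃ x, Tr F v i x ∧ ∀ i' ∈ I.erase i, ¬ Tr F v i' x

/-- The detection of the good terms. -/
theorem detect (c k : ℕ) (hc : 1 ≤ c) (η : ℝ) (hη : 0 < η) : ∃ L : ℕ, ∀ {n : ℕ} {ι : Type}
    [DecidableEq ι] (F : ι → Finset (Fin n)) (v : ι → Fin n → Bool) (I : Finset ι),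
    CoDeg F I c k → Irr F v I →
    (∀ (V : Finset (Fin n)) (z : Cube n), V.card ≤ q0P c k + c →
      η ≤ Pr (fun x => Sat F v I (patch V z x))) →
    ∀ i ∈ I, L ≤ (F i).card → ¬ Bad F I c i →
    ∃ (V : Finset (Fin n)) (z : Cube n) (S : Finset (Fin n)), V.card ≤ q0P c k ∧
      S.card ≤ rP c k ∧ Disjoint S V ∧
      η / 4 * (1 / 2) ^ (F i).card ≤ |GamI F v I V z S| ∧
      (∀ y ∈ F i, y ∉ S → y ∉ V → 15 / 17 * |GamI F v I V z S| ≤ |GamI F v I V z (insert y S)|) ∧
      ((Finset.univ.filter (fun y => y ∉ S ∧ y ∉ V ∧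
        1 / 3 * |GamI F v I V z S| < |GamI F v I V z (insert y S)|)).card : ℝ) ≤
          (F i).card + 32 / η := by
  obtain ⟨K, hK, hbeta⟩ := beta_num (16 * c) c k (rP c k)
  obtain ⟨L, hL⟩ := wide_exists c k hc hη hK
  refine ⟨L, ?_⟩
  intro n ι _ F v I hcd hirr hclean i hi hw hbad
  classical
  obtain ⟨w1, w2, w3, w4, w5, w6⟩ := hL _ hw
  set w := (F i).card with hwdef
  set u := w / (4 * c) with hu
  set p := w / (8 * c) with hp
  set H := Hv F I u with hH
  have hHnu : ∀ s, s ∉ H → nu F I s ≤ (1 / 2) ^ u := by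
    intro s hs
    rw [hH] at hs
    unfold Hv at hs
    rw [Finset.mem_filter] at hs
    by_contra hcon
    exact hs ⟨Finset.mem_univ _, not_le.1 hcon⟩
  have hbadH : (F i ∩ H).card < c := by
    unfold Bad at hbad
    push Not at hbad
    exact hbad
  obtain ⟨xs, hxs, hxs'⟩ := hirr i hi
  -- the strongly dependent terms
  set N1 := (I.erase i).filter (fun i' => w ≤ 2 * (4 * c) * (F i' ∩ F i).card) with hN1
  have hN1c : N1.card ≤ k * (4 * (4 * c)) ^ c := by
    apply hcd.count_frac (F i) ((Finset.filter_subset _ _).trans (Finset.erase_subset _ _)) w1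
      (by omega)
    intro i' hi'
    exact (Finset.mem_filter.1 hi').2
  set V1 : Finset (Fin n) := N1.biUnion (fun i' =>
    if h : ∃ j ∈ F i', xs j ≠ v i' j then {h.choose} else ∅) with hV1
  have hV1c : V1.card ≤ k * (4 * (4 * c)) ^ c := by
    refine (Finset.card_biUnion_le_card_mul _ _ 1 ?_).trans (by rw [mul_one]; exact hN1c)
    intro i' _
    split_ifs with h
    · simp
    · simp
  have hV1k : ∀ i' ∈ N1, ∃ j ∈ F i', j ∈ V1 ∧ xs j ≠ v i' j := by
    intro i' hi'
    have h1 := hxs' i' (Finset.filter_subset _ _ hi')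
    have h2 : ∃ j ∈ F i', xs j ≠ v i' j := by
      unfold Tr at h1
      push Not at h1
      exact h1
    refine ⟨h2.choose, h2.choose_spec.1, ?_, h2.choose_spec.2⟩
    rw [hV1, Finset.mem_biUnion]
    refine ⟨i', hi', ?_⟩
    rw [dif_pos h2]
    exact Finset.mem_singleton_self _
  -- the set S
  have hroom : rP c k ≤ (F i \ (H ∪ V1)).card := by
    have h1 := Finset.card_sdiff_add_card_inter (F i) (H ∪ V1)
    have h2 : (F i ∩ (H ∪ V1)).card ≤ (F i ∩ H).card + V1.card := by
      rw [Finset.inter_union_distrib_left]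
      refine (Finset.card_union_le _ _).trans ?_
      have := Finset.card_le_card (Finset.inter_subset_right (s₁ := F i) (s₂ := V1))
      omega
    omega
  obtain ⟨S, hS, hSc⟩ := Finset.exists_subset_card_eq hroom
  have hSF : S ⊆ F i := hS.trans Finset.sdiff_subset
  have hSH : ∀ s ∈ S, s ∉ H := fun s hs h =>
    (Finset.mem_sdiff.1 (hS hs)).2 (Finset.mem_union_left _ h)
  have hSV1 : ∀ s ∈ S, s ∉ V1 := fun s hs h =>
    (Finset.mem_sdiff.1 (hS hs)).2 (Finset.mem_union_right _ h)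
  -- the terms with many variables of S
  set K2 := (I.erase i).filter (fun i' => i' ∉ N1 ∧ c ≤ (F i' ∩ S).card) with hK2
  have hK2c : K2.card ≤ k * (rP c k) ^ c := by
    have h1 := hcd.count_ge S (J := K2)
      ((Finset.filter_subset _ _).trans (Finset.erase_subset _ _))
      (fun i' hi' => (Finset.mem_filter.1 hi').2.2)
    rwa [hSc] at h1
  have hover : ∀ i' ∈ I.erase i, i' ∉ N1 → (F i' ∩ F i).card ≤ p := by
    intro i' hi' hN
    have h1 : ¬ w ≤ 2 * (4 * c) * (F i' ∩ F i).card := fun h =>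
      hN (Finset.mem_filter.2 ⟨hi', h⟩)
    rw [hp, Nat.le_div_iff_mul_le (by omega)]
    calc (F i' ∩ F i).card * (8 * c) = 2 * (4 * c) * (F i' ∩ F i).card := by ring
      _ ≤ w := by omega
  have hup : 2 * p ≤ u := by
    rw [hu, Nat.le_div_iff_mul_le (by omega)]
    calc 2 * p * (4 * c) = p * (8 * c) := by ring
      _ ≤ w := Nat.div_mul_le_self _ _
  have hK2w : ∀ i' ∈ K2, K2.card ≤ (F i' \ (F i ∪ V1)).card := by
    intro i' hi'
    rw [hK2, Finset.mem_filter] at hi'
    obtain ⟨hi'I, hN, hci⟩ := hi'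
    have h1 := hover i' hi'I hN
    have h2 : u ≤ (F i').card := by
      obtain ⟨s, hs⟩ : (F i' ∩ S).Nonempty := by
        rw [← Finset.card_pos]; omega
      rw [Finset.mem_inter] at hs
      have h3 : (1 / 2 : ℝ) ^ (F i').card ≤ nu F I s := by
        unfold nu
        exact Finset.single_le_sum (f := fun i => (1 / 2 : ℝ) ^ (F i).card)
          (fun _ _ => by positivity)
          (Finset.mem_filter.2 ⟨Finset.mem_of_mem_erase hi'I, hs.1⟩)
      have h4 := h3.trans (hHnu s (hSH s hs.2))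
      by_contra hcon
      push Not at hcon
      have h5 : (1 / 2 : ℝ) ^ u < (1 / 2) ^ (F i').card :=
        pow_lt_pow_right_of_lt_one₀ (by norm_num) (by norm_num) hcon
      linarith
    have h3 := Finset.card_sdiff_add_card_inter (F i') (F i ∪ V1)
    have h4 : (F i' ∩ (F i ∪ V1)).card ≤ (F i' ∩ F i).card + V1.card := by
      rw [Finset.inter_union_distrib_left]
      refine (Finset.card_union_le _ _).trans ?_
      have := Finset.card_le_card (Finset.inter_subset_right (s₁ := F i') (s₂ := V1))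
      omega
    unfold q0P at w3
    omega
  obtain ⟨V2, z2, hV2d, hV2c, hV2k⟩ := kill F v (F i ∪ V1) K2 hK2w
  set V := V1 ∪ V2 with hV
  set z : Cube n := patch V2 z2 xs with hz
  have hVc : V.card ≤ q0P c k := by
    have h1 : V.card ≤ V1.card + V2.card := by
      rw [hV]
      exact Finset.card_union_le V1 V2
    unfold q0P
    omega
  have hV2F : ∀ j ∈ V2, j ∉ F i := fun j hj h =>
    (Finset.disjoint_left.1 hV2d hj) (Finset.mem_union_left _ h)
  have hV2V1 : ∀ j ∈ V2, j ∉ V1 := fun j hj h =>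
    (Finset.disjoint_left.1 hV2d hj) (Finset.mem_union_right _ h)
  have hal : Alive F v V z i := by
    intro j hj _
    rw [hz, patch_not (fun h => hV2F j h hj)]
    exact hxs j hj
  have hdeadN : ∀ i' ∈ N1, ¬ Alive F v V z i' := by
    intro i' hi' h
    obtain ⟨j, hj, hjV, hne⟩ := hV1k i' hi'
    have h1 := h j hj (Finset.mem_union_left _ hjV)
    rw [hz, patch_not (fun h' => hV2V1 j h' hjV)] at h1
    exact hne h1
  have hdeadK : ∀ i' ∈ K2, ¬ Alive F v V z i' := by
    intro i' hi' h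
    obtain ⟨j, hj, hjV, hne⟩ := hV2k i' hi'
    have h1 := h j hj (Finset.mem_union_right _ hjV)
    rw [hz, patch_mem hjV] at h1
    exact hne h1
  have hSsub : S ⊆ F i \ V := by
    intro s hs
    rw [Finset.mem_sdiff, hV, Finset.mem_union, not_or]
    exact ⟨hSF hs, hSV1 s hs, fun h => hV2F s h (hSF hs)⟩
  -- the signal
  have hsig : η / 2 * (1 / 2) ^ (F i \ V).card ≤ Ex (phi F v I V z i) := by
    apply signal hi hal (H := H) (u := u) (p := p) (q := q0P c k) hHnu
    · apply hclean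
      have := Finset.card_union_le V (F i ∩ H)
      omega
    · intro i' hi' hal'
      exact hover i' hi' (fun h => hdeadN i' h hal')
    · exact hVc
    · exact w5
  have hsig2 : η / 2 * (1 / 2) ^ w ≤ Ex (phi F v I V z i) := by
    refine le_trans ?_ hsig
    apply mul_le_mul_of_nonneg_left _ (by positivity)
    exact pow_le_pow_of_le_one (by norm_num) (by norm_num)
      (Finset.card_le_card Finset.sdiff_subset)
  -- the background
  have hcov : Pr (fun x => ∀ s ∈ S, Cv F v (I.erase i) S V z s x) ≤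
      2 ^ (S.card + V.card) * (K * (4 / 5) ^ u) ^ (16 * c) := by
    apply cov_bound hcd (Finset.erase_subset _ _) (by omega) (u := u) (by positivity)
    · rw [hSc]
      unfold rP
      omega
    · exact w4
    · exact fun s hs => hHnu s (hSH s hs)
    · intro i' hi' hal'
      by_contra hcon
      push Not at hcon
      exact hdeadK i' (Finset.mem_filter.2 ⟨hi', fun h => hdeadN i' h hal', hcon⟩) hal'
    · intro A hA hAS L' hL'
      exact hbeta F I hcd A (hA.trans (Finset.erase_subset _ _)) S u hSc.le hAS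
        (fun s hs => hHnu s (hSH s hs)) L' hL' (by omega)
  have hbg : Pr (fun x => ∀ s ∈ S, Cv F v (I.erase i) S V z s x) ≤
      Ex (phi F v I V z i) / 16 := by
    refine hcov.trans ?_
    have h1 : (2 : ℝ) ^ (S.card + V.card) ≤ 2 ^ (rP c k + q0P c k) :=
      pow_le_pow_right₀ (by norm_num) (by omega)
    have h2 : (2 : ℝ) ^ (S.card + V.card) * (K * (4 / 5) ^ u) ^ (16 * c) ≤
        2 ^ (rP c k + q0P c k) * (K * (4 / 5) ^ u) ^ (16 * c) :=
      mul_le_mul_of_nonneg_right h1 (by positivity)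
    linarith
  have hst := stats hi hal hSsub hη hsig2 hsig hbg
  refine ⟨V, z, S, hVc, hSc.le, ?_, hst⟩
  rw [Finset.disjoint_left]
  intro s hs hsV
  exact (Finset.mem_sdiff.1 (hSsub hs)).2 hsV

end Pool.Agent.H687.CD
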