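import Pool.Agent.H687.CD.Samp

/-!
# From samples to lists
-/

set_option linter.unusedSectionVars false

namespace Pool.Agent.H687.CD

open Finset
open Pool.Agent.H685R2.RK
open Pool.Agent.H685R2.VST (tup mem_tup)

section

variable {n m : ℕ}

theorem fs_cons {y : ℕ} (hy : y < n) (U : List ℕ) : fs n (y :: U) = insert ⟨y, hy⟩ (fs n U) := by
  ext j
  rw [Finset.mem_insert, mem_fs, mem_fs, List.mem_cons, Fin.ext_iff]

theorem chi_pow (x : Cube n) : ∀ U : List ℕ, U.Nodup → (∀ y ∈ U, y < n) →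
    chi (fs n U) x = (-1) ^ (U.filter (fun j => gb (List.ofFn x) j)).length
  | [], _, _ => by
    have : fs n [] = ∅ := by
      ext j
      simp [mem_fs]
    rw [this, chi_empty]
    simp
  | y :: U, hnd, hlt => by
    have hy : y < n := hlt y List.mem_cons_self
    rw [List.nodup_cons] at hnd
    have hyU : (⟨y, hy⟩ : Fin n) ∉ fs n U := by
      rw [mem_fs]
      exact hnd.1
    rw [fs_cons hy, chi_insert hyU, chi_pow x U hnd.2 (fun z hz => hlt z (List.mem_cons_of_mem _ hz)),
      List.filter_cons]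
    have h1 : chi {(⟨y, hy⟩ : Fin n)} x = if x ⟨y, hy⟩ then -1 else 1 := by
      unfold chi
      rw [Finset.prod_singleton]
    have h2 : gb (List.ofFn x) y = x ⟨y, hy⟩ := gb_ofFn x ⟨y, hy⟩
    rw [h1, h2]
    cases x ⟨y, hy⟩ with
    | true =>
      simp only [if_true, List.length_cons, pow_succ]
      ring
    | false => simp

theorem chi_par (x : Cube n) {U : List ℕ} (hnd : U.Nodup) (hlt : ∀ y ∈ U, y < n) :
    chi (fs n U) x = if par U (List.ofFn x) then -1 else 1 := by
  rw [chi_pow x U hnd hlt]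
  unfold par
  rcases Nat.even_or_odd' (U.filter (fun j => gb (List.ofFn x) j)).length with ⟨k, hk | hk⟩
  · rw [hk]
    simp
  · rw [hk]
    have : (2 * k + 1) % 2 = 1 := by omega
    rw [if_pos (by simpa using this), pow_succ, pow_mul]
    simp

/-- The number of examples with a property. -/
theorem count_neg {m₁ : ℕ} (hm : m₁ ≤ m) (f : Cube n → Bool) (ω : Fin m → Cube n)
    (q : List Bool → Bool) :
    (((negL ((smp f ω).take m₁)).filter q).length : ℝ) =
      ∑ i ∈ firstI m m₁, ind (f (ω i) = false ∧ q (List.ofFn (ω i)) = true) := by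
  classical
  unfold negL
  rw [List.filter_map, List.length_map, List.filter_filter]
  unfold smp
  rw [length_filter_take_ofFn hm]
  unfold firstI
  have h1 : ∀ i : Fin m, ind (f (ω i) = false ∧ q (List.ofFn (ω i)) = true) =
      if (f (ω i) = false ∧ q (List.ofFn (ω i)) = true) then (1 : ℝ) else 0 := by
    intro i
    unfold ind
    split_ifs <;> rfl
  rw [Finset.sum_congr rfl (fun i _ => h1 i), Finset.sum_boole]
  congr 2
  ext i
  simp only [Finset.mem_filter, Finset.mem_univ, true_and, Function.comp_apply,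
    Bool.and_eq_true, Bool.not_eq_true']
  tauto

theorem ind_sign (P : Prop) (c : Bool) : ind P * (if c then (-1 : ℝ) else 1) =
    ind (P ∧ c = false) - ind (P ∧ c = true) := by
  cases c with
  | true =>
    rw [ind_false (P := P ∧ true = false) (by simp), ind_congr (P := P ∧ true = true) (Q := P)
      (by simp)]
    simp
  | false =>
    rw [ind_false (P := P ∧ false = true) (by simp), ind_congr (P := P ∧ false = false) (Q := P)
      (by simp)]
    simp

theorem stc_eq {m₁ : ℕ} (hm : m₁ ≤ m) (f : Cube n → Bool) (ω : Fin m → Cube n) (z : Cube n)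
    (V : List ℕ) {U : List ℕ} (hnd : U.Nodup) (hlt : ∀ y ∈ U, y < n) :
    (stc (negL ((smp f ω).take m₁)) (List.ofFn z) V U : ℝ) =
      |∑ i ∈ firstI m m₁, gS f (fs n V, z, fs n U) (ω i)| := by
  have hc : ∀ s : Bool, (cntP (negL ((smp f ω).take m₁)) (List.ofFn z) V U s : ℝ) =
      ∑ i ∈ firstI m m₁, ind ((f (ω i) = false ∧ ∀ j ∈ fs n V, ω i j = z j) ∧
        par U (List.ofFn (ω i)) = s) := by
    intro s
    unfold cntP
    rw [count_neg hm]
    apply Finset.sum_congr rfl
    intro i _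
    apply ind_congr
    rw [Bool.and_eq_true, agr_iff, decide_eq_true_eq, and_assoc]
    apply and_congr_right
    intro _
    apply and_congr_left
    intro _
    constructor
    · intro h j hj
      exact (h j hj).symm
    · intro h j hj
      exact (h j hj).symm
  have hsum : ∑ i ∈ firstI m m₁, gS f (fs n V, z, fs n U) (ω i) =
      (cntP (negL ((smp f ω).take m₁)) (List.ofFn z) V U false : ℝ) -
        cntP (negL ((smp f ω).take m₁)) (List.ofFn z) V U true := by
    rw [hc, hc, ← Finset.sum_sub_distrib]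
    apply Finset.sum_congr rfl
    intro i _
    unfold gS
    simp only
    rw [chi_par (ω i) hnd hlt]
    exact ind_sign _ _
  rw [hsum]
  unfold stc
  set a := cntP (negL ((smp f ω).take m₁)) (List.ofFn z) V U true
  set b := cntP (negL ((smp f ω).take m₁)) (List.ofFn z) V U false
  rcases le_total a b with h | h
  · have h1 : a - b = 0 := Nat.sub_eq_zero_of_le h
    rw [h1, zero_add, Nat.cast_sub h, abs_of_nonneg]
    have : (a : ℝ) ≤ b := by exact_mod_cast h
    linarith
  · have h1 : b - a = 0 := Nat.sub_eq_zero_of_le h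
    rw [h1, add_zero, Nat.cast_sub h, abs_of_nonpos]
    · ring
    · have : (b : ℝ) ≤ a := by exact_mod_cast h
      linarith

theorem mem_neg {m₁ : ℕ} {f : Cube n → Bool} {ω : Fin m → Cube n} {a : List Bool}
    (ha : a ∈ negL ((smp f ω).take m₁)) : ∃ x : Cube n, a = List.ofFn x ∧ f x = false := by
  unfold negL at ha
  obtain ⟨p, hp, rfl⟩ := List.mem_map.1 ha
  rw [List.mem_filter] at hp
  have h1 := List.mem_of_mem_take hp.1
  unfold smp at h1
  rw [List.mem_ofFn] at h1
  obtain ⟨i, rfl⟩ := h1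
  exact ⟨ω i, rfl, by simpa using hp.2⟩

theorem mem_neg_all {f : Cube n → Bool} {ω : Fin m → Cube n} {a : List Bool} :
    a ∈ negL (smp f ω) ↔ ∃ i, a = List.ofFn (ω i) ∧ f (ω i) = false := by
  unfold negL
  rw [List.mem_map]
  constructor
  · rintro ⟨p, hp, rfl⟩
    rw [List.mem_filter] at hp
    have h1 := hp.1
    unfold smp at h1
    rw [List.mem_ofFn] at h1
    obtain ⟨i, rfl⟩ := h1
    exact ⟨i, rfl, by simpa using hp.2⟩
  · rintro ⟨i, rfl, hi⟩
    refine ⟨(List.ofFn (ω i), f (ω i)), List.mem_filter.2 ⟨?_, by simp [hi]⟩, rfl⟩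
    unfold smp
    rw [List.mem_ofFn]
    exact ⟨i, rfl⟩

theorem mem_take_smp {m₁ : ℕ} {f : Cube n → Bool} {ω : Fin m → Cube n} {i : Fin m}
    (hi : i ∈ firstI m m₁) : (List.ofFn (ω i), f (ω i)) ∈ (smp f ω).take m₁ := by
  unfold firstI at hi
  rw [Finset.mem_filter] at hi
  unfold smp
  rw [List.mem_take_iff_getElem]
  refine ⟨i.val, ?_, ?_⟩
  · rw [List.length_ofFn]
    have := i.2
    omega
  · simp

/-- The points of the first part of the sample. -/
def ptsL (s : List (List Bool × Bool)) : List (List Bool) := s.map Prod.fst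

theorem mem_pts {m₁ : ℕ} {f : Cube n → Bool} {ω : Fin m → Cube n} {a : List Bool}
    (ha : a ∈ ptsL ((smp f ω).take m₁)) : ∃ x : Cube n, a = List.ofFn x := by
  unfold ptsL at ha
  obtain ⟨p, hp, rfl⟩ := List.mem_map.1 ha
  have h1 := List.mem_of_mem_take hp
  unfold smp at h1
  rw [List.mem_ofFn] at h1
  obtain ⟨i, rfl⟩ := h1
  exact ⟨ω i, rfl⟩

theorem exists_pts {f : Cube n → Bool} {ω : Fin m → Cube n} {m₁ s : ℕ} {τ₁ τ : ℝ}
    (hg : Good f ω m₁ s τ₁ τ) (G : Finset (Fin n)) (b : Cube n) (h : τ₁ ≤ (1 / 2) ^ G.card) :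
    ∃ x : Cube n, List.ofFn x ∈ ptsL ((smp f ω).take m₁) ∧ ∀ j ∈ G, x j = b j := by
  have h1 := hg.pt G b
  have h2 : Ex (gP (G, b)) = (1 / 2) ^ G.card := by
    unfold gP
    rw [Ex_ind, Pr_pat]
  rw [h2] at h1
  have h3 : 0 < ∑ i ∈ firstI m m₁, gP (G, b) (ω i) := by
    have h4 := (abs_lt.1 h1).1
    have h5 : τ₁ * m₁ ≤ (1 / 2) ^ G.card * m₁ := mul_le_mul_of_nonneg_right h (by positivity)
    linarith
  obtain ⟨i, hi, hpos⟩ := Finset.exists_lt_of_sum_lt (s := firstI m m₁) (f := fun _ => (0 : ℝ))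
    (g := fun i => gP (G, b) (ω i)) (by simpa using h3)
  refine ⟨ω i, ?_, ?_⟩
  · unfold ptsL
    exact List.mem_map.2 ⟨_, mem_take_smp hi, rfl⟩
  · by_contra hcon
    unfold gP at hpos
    simp only at hpos
    rw [ind_false hcon] at hpos
    exact lt_irrefl _ hpos

theorem exists_neg {f : Cube n → Bool} {ω : Fin m → Cube n} {m₁ s : ℕ} {τ₁ τ : ℝ}
    (hg : Good f ω m₁ s τ₁ τ) (G : Finset (Fin n)) (b : Cube n)
    (h : τ₁ ≤ Pr (fun x => f x = false ∧ ∀ j ∈ G, x j = b j)) :
    ∃ x : Cube n, List.ofFn x ∈ negL ((smp f ω).take m₁) ∧ f x = false ∧ ∀ j ∈ G, x j = b j := by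
  have h1 := hg.st G b ∅
  have h2 : Ex (gS f (G, b, ∅)) = Pr (fun x => f x = false ∧ ∀ j ∈ G, x j = b j) := by
    rw [← Ex_ind]
    apply Ex_congr
    intro x
    unfold gS
    simp only
    rw [chi_empty, mul_one]
  rw [h2] at h1
  have h3 : 0 < ∑ i ∈ firstI m m₁, gS f (G, b, ∅) (ω i) := by
    have h4 := (abs_lt.1 h1).1
    have h5 := mul_le_mul_of_nonneg_right h (by positivity : (0 : ℝ) ≤ m₁)
    linarith
  obtain ⟨i, hi, hpos⟩ := Finset.exists_lt_of_sum_lt (s := firstI m m₁) (f := fun _ => (0 : ℝ))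
    (g := fun i => gS f (G, b, ∅) (ω i)) (by simpa using h3)
  have h4 : f (ω i) = false ∧ ∀ j ∈ G, ω i j = b j := by
    by_contra hcon
    unfold gS at hpos
    simp only at hpos
    rw [ind_false hcon, zero_mul] at hpos
    exact lt_irrefl _ hpos
  refine ⟨ω i, ?_, h4.1, h4.2⟩
  unfold negL
  refine List.mem_map.2 ⟨(List.ofFn (ω i), f (ω i)), List.mem_filter.2 ⟨mem_take_smp hi, ?_⟩, rfl⟩
  simp [h4.1]

/-! ### Terms -/

/-- The list of literals is a conjunction of values of distinct variables. -/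
def IsCyl (n : ℕ) (t : List (ℕ × Bool)) : Prop :=
  ∃ (G : Finset (Fin n)) (b : Cube n), ∀ x : Cube n, trL t (List.ofFn x) = true ↔
    ∀ j ∈ G, x j = b j

theorem tr_tm (b x : Cube n) (T : List ℕ) :
    trL (tm (List.ofFn b) T) (List.ofFn x) = true ↔ ∀ j ∈ fs n T, x j = b j := by
  unfold trL tm
  rw [List.all_eq_true]
  constructor
  · intro h j hj
    have h1 := h (j.val, gb (List.ofFn b) j.val) (List.mem_map.2 ⟨j.val, mem_fs.1 hj, rfl⟩)
    rw [decide_eq_true_eq] at h1
    simp only [gb_ofFn] at h1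
    exact h1
  · intro h p hp
    obtain ⟨j, hj, rfl⟩ := List.mem_map.1 hp
    rw [decide_eq_true_eq]
    by_cases hjn : j < n
    · have h1 := gb_ofFn x ⟨j, hjn⟩
      have h2 := gb_ofFn b ⟨j, hjn⟩
      simp only at h1 h2 ⊢
      rw [h1, h2]
      exact h ⟨j, hjn⟩ (mem_fs.2 hj)
    · simp only
      rw [gb_ofFn_ge x (by omega), gb_ofFn_ge b (by omega)]

theorem isCyl_tm (b : Cube n) (T : List ℕ) : IsCyl n (tm (List.ofFn b) T) :=
  ⟨fs n T, b, fun x => tr_tm b x T⟩

/-- A list of terms as a DNF formula with `s` possible terms. -/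
theorem exists_dn {s : ℕ} (h : List (List (ℕ × Bool))) (hl : h.length ≤ s)
    (hc : ∀ t ∈ h, IsCyl n t) : ∃ κ : Fin s → Option (Finset (Fin n) × Cube n),
      ∀ x : Cube n, evalD h (List.ofFn x) = true ↔ Dn κ x := by
  classical
  have hex : ∀ i : Fin s, ∃ o : Option (Finset (Fin n) × Cube n), ∀ x : Cube n,
      (∃ p, o = some p ∧ ∀ j ∈ p.1, x j = p.2 j) ↔
        ∃ (hi : i.val < h.length), trL h[i.val] (List.ofFn x) = true := by
    intro i
    by_cases hi : i.val < h.length
    · obtain ⟨G, b, hG⟩ := hc h[i.val] (List.getElem_mem hi)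
      refine ⟨some (G, b), fun x => ?_⟩
      constructor
      · rintro ⟨p, hp, hpx⟩
        rw [Option.some.injEq] at hp
        subst hp
        exact ⟨hi, (hG x).2 hpx⟩
      · rintro ⟨_, hx⟩
        exact ⟨(G, b), rfl, (hG x).1 hx⟩
    · refine ⟨none, fun x => ?_⟩
      constructor
      · rintro ⟨p, hp, _⟩
        simp at hp
      · rintro ⟨hi', _⟩
        exact absurd hi' hi
  choose κ hκ using hex
  refine ⟨κ, fun x => ?_⟩
  unfold evalD Dn
  rw [List.any_eq_true]
  constructor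
  · rintro ⟨t, ht, hx⟩
    obtain ⟨i, hi, rfl⟩ := List.getElem_of_mem ht
    obtain ⟨p, hp⟩ := (hκ ⟨i, lt_of_lt_of_le hi hl⟩ x).2 ⟨hi, hx⟩
    exact ⟨⟨i, lt_of_lt_of_le hi hl⟩, p, hp⟩
  · rintro ⟨i, p, hp⟩
    obtain ⟨hi, hx⟩ := (hκ i x).1 ⟨p, hp⟩
    exact ⟨_, List.getElem_mem hi, hx⟩

theorem errL_eq {s : ℕ} (f : Cube n → Bool) (ω : Fin m → Cube n) {h : List (List (ℕ × Bool))}
    {κ : Fin s → Option (Finset (Fin n) × Cube n)}
    (hκ : ∀ x : Cube n, evalD h (List.ofFn x) = true ↔ Dn κ x) :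
    (errL h (smp f ω) : ℝ) = ∑ i, gE f (κ, false) (ω i) + ∑ i, gE f (κ, true) (ω i) := by
  classical
  unfold errL smp
  rw [length_filter_ofFn, ← Finset.sum_add_distrib]
  have h1 : ∀ i : Fin m, gE f (κ, false) (ω i) + gE f (κ, true) (ω i) =
      if (!(decide (evalD h (List.ofFn (ω i)) = f (ω i)))) = true then (1 : ℝ) else 0 := by
    intro i
    unfold gE ind
    simp only
    have h2 := hκ (ω i)
    rw [← h2]
    cases f (ω i) <;> cases evalD h (List.ofFn (ω i)) <;> simp
  rw [Finset.sum_congr rfl (fun i _ => h1 i), Finset.sum_boole]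

theorem trueErr_eq {s : ℕ} (f : Cube n → Bool) {h : List (List (ℕ × Bool))}
    {κ : Fin s → Option (Finset (Fin n) × Cube n)}
    (hκ : ∀ x : Cube n, evalD h (List.ofFn x) = true ↔ Dn κ x) :
    Pr (fun x => evalD h (List.ofFn x) ≠ f x) = Ex (gE f (κ, false)) + Ex (gE f (κ, true)) := by
  classical
  rw [← Ex_ind, ← Ex_add]
  apply Ex_congr
  intro x
  unfold gE ind
  simp only
  rw [← hκ x]
  cases f x <;> cases evalD h (List.ofFn x) <;> simp

end

end Pool.Agent.H687.CD
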