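import Pool.Agent.H687.CD.Fin
import Pool.Agent.H687.CD.Defs
import Pool.Graph.R_pool_sql_team_seeded_f0cf7b00.H685R2.RK.Learn

/-!
# DNF formulas with bounded codegree are learnable with constant accuracy
-/

set_option linter.unusedSectionVars false

namespace Pool.Agent.H687.CD

open Finset
open Pool.Agent.H685R2.RK
open Pool.Agent.H685R2.VST (tup mem_tup)

/-- The inverse of the accuracy of the statistics. -/
def qC (c k d r C E n : ℕ) : ℕ := 640 * E * 2 ^ (d + r + C) * (2 * (16 * E * k * (n + 1) ^ c + 1))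

/-- The number of examples of the first part of the sample. -/
def m1C (c k d r C E n D : ℕ) : ℕ := 4 * qC c k d r C E n ^ 2 * (3 * n + 6 * D)

/-- The number of terms of the hypotheses. -/
def sC (c k d r t C E n D : ℕ) : ℕ :=
  (n + 1) ^ d * m1C c k d r C E n D + (n + 1) ^ d * (m1C c k d r C E n D *
    ((n + 1) ^ r * (m1C c k d r C E n D * m1C c k d r C E n D))) + t

/-- The number of examples needed. -/
def mC (c k d r t C E n D : ℕ) : ℕ :=
  m1C c k d r C E n D + 4 * (16 * E) ^ 2 * (1 + sC c k d r t C E n D * (1 + 2 * n) + 6 * D)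

theorem PB_mC (c k d r t C E : ℕ) : PB (fun n _ D => mC c k d r t C E n D) := by
  have hn1 : PB (fun n _ _ => n + 1) := PB.n.add (PB.const 1)
  have hq : PB (fun n _ _ => qC c k d r C E n) := by
    unfold qC
    exact (PB.const _).mul ((PB.const 2).mul (((PB.const _).mul (hn1.pow c)).add (PB.const 1)))
  have hm : PB (fun n _ D => m1C c k d r C E n D) := by
    unfold m1C
    exact ((PB.const 4).mul (hq.pow 2)).mul (((PB.const 3).mul PB.n).add ((PB.const 6).mul PB.D))
  have hs : PB (fun n _ D => sC c k d r t C E n D) := by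
    unfold sC
    exact (((hn1.pow d).mul hm).add ((hn1.pow d).mul (hm.mul ((hn1.pow r).mul (hm.mul hm))))).add
      (PB.const t)
  unfold mC
  exact hm.add ((PB.const _).mul (((PB.const 1).add (hs.mul ((PB.const 1).add
    ((PB.const 2).mul PB.n)))).add ((PB.const 6).mul PB.D)))

theorem two_clog_le {x : ℕ} (hx : 1 ≤ x) : 2 ^ Nat.clog 2 x ≤ 2 * x := by
  rcases Nat.lt_or_ge 1 x with h | h
  · have h5 : 2 ^ (Nat.clog 2 x - 1) < x := Nat.pow_pred_clog_lt_self (by norm_num) h
    have h6 : 0 < Nat.clog 2 x := Nat.clog_pos (by norm_num) h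
    obtain ⟨l, hl⟩ : ∃ l, Nat.clog 2 x = l + 1 := ⟨Nat.clog 2 x - 1, by omega⟩
    rw [hl] at h5 ⊢
    rw [Nat.add_sub_cancel] at h5
    rw [pow_succ]
    omega
  · have : x = 1 := by omega
    subst this
    simp

/-- The learner fails only on few samples. -/
theorem fail_probC (c k : ℕ) (hc : 1 ≤ c) (E : ℕ) (hE : 0 < E) : ∃ d r t C : ℕ,
    ∀ {n D m : ℕ}, 0 < D → mC c k d r t C E n D ≤ m → ∀ f : Cube n → Bool, Rep c k f →
    (D : ℝ) * Ms (fun ω : Fin m → Cube n => ¬ (E : ℝ) * N (fun x => evalD (learnD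
      ((smp f ω).take (m1C c k d r C E n D)) d r t E (List.range n)
      (ptsL ((smp f ω).take (m1C c k d r C E n D)))
      (negL ((smp f ω).take (m1C c k d r C E n D))) (negL (smp f ω)) (smp f ω))
        (List.ofFn x) ≠ f x) ≤ 2 ^ n) ≤ (2 ^ n) ^ m := by
  obtain ⟨d, r, t, C, hdec⟩ := decomp c k hc E hE
  refine ⟨d, r, t, C, ?_⟩
  intro n D m hD hm f hrep
  have hE' : (1 : ℝ) ≤ E := by exact_mod_cast hE
  set Q := 16 * E * k * (n + 1) ^ c + 1 with hQ
  set lam := Nat.clog 2 Q with hlam
  have hlam1 : Q ≤ 2 ^ lam := Nat.le_pow_clog (by norm_num) _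
  have hlam2 : 2 ^ lam ≤ 2 * Q := two_clog_le (by omega)
  set q := qC c k d r C E n with hq
  set m₁ := m1C c k d r C E n D with hm₁
  have hqval : q = 640 * E * 2 ^ (d + r + C) * (2 * Q) := rfl
  have hqlow : 640 * E * 2 ^ (d + r + C) * 2 ^ lam ≤ q := by
    rw [hqval]
    exact Nat.mul_le_mul_left _ hlam2
  have hqlowR : (640 * E * 2 ^ (d + r + C) * 2 ^ lam : ℝ) ≤ q := by exact_mod_cast hqlow
  have hqpos : 0 < q := lt_of_lt_of_le (by positivity) hqlow
  have hq' : (0 : ℝ) < q := by exact_mod_cast hqpos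
  have hm₁val : m₁ = 4 * q ^ 2 * (3 * n + 6 * D) := rfl
  have hqm : q ≤ m₁ := by
    rw [hm₁val]
    have h1 : q ≤ q ^ 2 := by
      rw [pow_two]
      exact Nat.le_mul_of_pos_left _ hqpos
    have h2 : q ^ 2 ≤ 4 * q ^ 2 * (3 * n + 6 * D) := by
      rw [mul_comm 4, mul_assoc]
      exact Nat.le_mul_of_pos_right _ (by omega)
    omega
  have hmm : m₁ ≤ m := le_trans (by rw [hm₁]; unfold mC; omega) hm
  have hpow1 : (1 : ℝ) ≤ 2 ^ lam := one_le_pow₀ (by norm_num)
  have hpow2 : (1 : ℝ) ≤ 2 ^ (r + C) := one_le_pow₀ (by norm_num)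
  -- the decomposition
  have hcond : (k : ℝ) * n ^ c * (1 / 2) ^ lam ≤ 1 / (16 * E) := by
    have h1 : (16 * E * k * (n + 1) ^ c : ℝ) ≤ 2 ^ lam := by
      have h2 : 16 * E * k * (n + 1) ^ c ≤ 2 ^ lam := by omega
      exact_mod_cast h2
    have h2 : (k : ℝ) * n ^ c ≤ k * (n + 1) ^ c := by
      apply mul_le_mul_of_nonneg_left _ (by positivity)
      apply pow_le_pow_left₀ (by positivity)
      linarith
    rw [one_div, inv_pow, ← div_eq_mul_inv, div_le_div_iff₀ (by positivity) (by positivity),
      one_mul]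
    calc (k : ℝ) * n ^ c * (16 * E) ≤ k * (n + 1) ^ c * (16 * E) :=
          mul_le_mul_of_nonneg_right h2 (by positivity)
      _ = 16 * E * k * (n + 1) ^ c := by ring
      _ ≤ _ := h1
  obtain ⟨L, hL1, hL2, hL3, hL4⟩ := hdec lam hcond f hrep
  set s := sC c k d r t C E n D with hs
  have hgood := good_prob' (n := n) (m := m) f (m₁ := m₁) (s := s) (Dl := D) (τ₁ := 1 / q)
    (τ := 1 / (16 * E)) hmm hD (by positivity) (by
      rw [div_le_one hq']
      exact_mod_cast hqpos) (by positivity) (by
      rw [div_le_one (by positivity)]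
      linarith) (by
      have h1 : (m₁ : ℝ) = 4 * q ^ 2 * (3 * n + 6 * D) := by exact_mod_cast hm₁val
      rw [h1]
      apply le_of_eq
      field_simp) (by
      have h1 : (4 * (16 * E) ^ 2 * (1 + s * (1 + 2 * n) + 6 * D) : ℝ) ≤ m := by
        have h2 : 4 * (16 * E) ^ 2 * (1 + s * (1 + 2 * n) + 6 * D) ≤ m := by
          refine le_trans ?_ hm
          unfold mC
          rw [← hs]
          exact Nat.le_add_left _ _
        exact_mod_cast h2
      have h2 : (m : ℝ) * (1 / (16 * E)) ^ 2 / 4 = m / (4 * (16 * E) ^ 2) := by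
        field_simp
      rw [h2, le_div_iff₀ (by positivity)]
      linarith)
  refine le_trans (mul_le_mul_of_nonneg_left (Ms_mono fun ω h => ?_) (by positivity)) hgood
  intro hg
  apply h
  have hcor := correct (d := d) (r := r) (t := t) (cap₀ := lam + C) (E := E)
    (θ := 1 / (64 * E) * (1 / 2) ^ lam) hE hmm (lt_of_lt_of_le hqpos hqm) hg (by positivity) (by
      -- the threshold
      have h1 : (10 : ℝ) * (1 / q) = 10 / q := by ring
      rw [h1, div_le_iff₀ hq']
      have h2 : (1 / 2 : ℝ) ^ d * (1 / (64 * E) * (1 / 2) ^ lam) * (640 * E * 2 ^ (d + r + C) *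
          2 ^ lam) = 10 * 2 ^ (r + C) := by
        have h3 : (2 : ℝ) ^ (d + r + C) = 2 ^ d * 2 ^ (r + C) := by
          rw [← pow_add]; congr 1; ring
        have h4 : (1 / 2 : ℝ) ^ d * 2 ^ d = 1 := by
          rw [← mul_pow]; norm_num
        have h5 : (1 / 2 : ℝ) ^ lam * 2 ^ lam = 1 := by
          rw [← mul_pow]; norm_num
        calc _ = ((1 / 2 : ℝ) ^ d * 2 ^ d) * ((1 / 2 : ℝ) ^ lam * 2 ^ lam) *
              (1 / (64 * E) * (640 * E)) * 2 ^ (r + C) := by rw [h3]; ring
          _ = 10 * 2 ^ (r + C) := by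
              rw [h4, h5]
              have : (1 : ℝ) / (64 * E) * (640 * E) = 10 := by
                field_simp
                norm_num
              rw [this]
              ring
      have h3 := mul_le_mul_of_nonneg_left hqlowR
        (by positivity : (0 : ℝ) ≤ (1 / 2) ^ d * (1 / (64 * E) * (1 / 2) ^ lam))
      rw [h2] at h3
      linarith) (by
      have h1 : (2 : ℝ) ^ (d + r + (lam + C)) ≤ q := by
        refine le_trans ?_ hqlowR
        have h2 : (2 : ℝ) ^ (d + r + (lam + C)) = 2 ^ (d + r + C) * 2 ^ lam := by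
          rw [← pow_add]; congr 1; ring
        rw [h2]
        have h3 : (1 : ℝ) ≤ 640 * E := by linarith
        calc (2 : ℝ) ^ (d + r + C) * 2 ^ lam = 1 * (2 ^ (d + r + C) * 2 ^ lam) := by ring
          _ ≤ (640 * E) * (2 ^ (d + r + C) * 2 ^ lam) :=
              mul_le_mul_of_nonneg_right h3 (by positivity)
          _ = _ := by ring
      rw [one_div_pow]
      exact one_div_le_one_div_of_le (by positivity) h1) (by
      refine le_trans ?_ hqm
      refine le_trans ?_ hqlow
      have h2 : 2 ^ (d + r + (lam + C)) = 2 ^ (d + r + C) * 2 ^ lam := by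
        rw [← pow_add]; congr 1; ring
      rw [h2]
      have h3 : 1 ≤ 640 * E := by omega
      calc 2 ^ (d + r + C) * 2 ^ lam = 1 * (2 ^ (d + r + C) * 2 ^ lam) := by ring
        _ ≤ (640 * E) * (2 ^ (d + r + C) * 2 ^ lam) := Nat.mul_le_mul_right _ h3
        _ = _ := by ring) (le_of_eq rfl) L hL1 hL2 hL3 hL4
  unfold Pr at hcor
  rw [← mul_div_assoc, div_le_one (by positivity)] at hcor
  exact hcor

end Pool.Agent.H687.CD

namespace Pool.Agent.NPC.H687CD

open Pool.Agent.H685R2.RK
open Pool.Agent.H687.CD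
open Pool.Agent.NPC.H685RK

section

variable {α : Type} [TEnc α]

theorem poly_qC (c k d r C E : ℕ) {n : α → ℕ} (hn : Poly n) :
    Poly (fun a => qC c k d r C E (n a)) := by
  have h1 : Poly (fun a => (n a + 1) ^ c) := poly_pow (by fun_prop) c
  unfold qC
  fun_prop

attribute [fun_prop] poly_qC
attribute [local irreducible] qC

theorem poly_m1C (c k d r C E : ℕ) {n D : α → ℕ} (hn : Poly n) (hD : Poly D) :
    Poly (fun a => m1C c k d r C E (n a) (D a)) := by
  have h2 : Poly (fun a => qC c k d r C E (n a) ^ 2) := poly_pow (by fun_prop) 2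
  unfold m1C
  fun_prop

attribute [fun_prop] poly_m1C
attribute [local irreducible] m1C

theorem poly_ptsL {s : α → List (List Bool × Bool)} (hs : Poly s) :
    Poly (fun a => ptsL (s a)) := by
  unfold ptsL
  fun_prop

attribute [fun_prop] poly_ptsL
attribute [local irreducible] ptsL

end

/-- The learner. -/
def learnC (c k d r t C E : ℕ) (a : ℕ × List (List Bool × Bool)) : List (List (ℕ × Bool)) :=
  learnD (a.2.take (m1C c k d r C E (fstL a.2).length a.1)) d r t E (List.range (fstL a.2).length)
    (ptsL (a.2.take (m1C c k d r C E (fstL a.2).length a.1)))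
    (negL (a.2.take (m1C c k d r C E (fstL a.2).length a.1))) (negL a.2) a.2

attribute [fun_prop] poly_learnD poly_negL

theorem poly_learnC (c k d r t C E : ℕ) : Poly (learnC c k d r t C E) := by
  have h1 : Poly (fun a : ℕ × List (List Bool × Bool) => fstL a.2) :=
    poly_fstL.comp (Poly.snd Poly.id)
  have h2 := Poly.range_length h1
  have h3 : Poly (fun a : ℕ × List (List Bool × Bool) => (fstL a.2).length) := by fun_prop
  unfold learnC
  fun_prop

/-- The evaluation of a coded hypothesis. -/
def evalBC (y : List Bool) : Bool :=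
  match unbits (List (List (ℕ × Bool))) (unpair y).1 with
  | none => false
  | some h => evalD h (unpair y).2

theorem poly_evalBC : Poly evalBC := by
  unfold evalBC
  refine (Poly.optCases (g := fun _ => false) (h := fun y h => evalD h (unpair y).2)
    (poly_unbits.comp (Poly.fst poly_unpair)) (Poly.const _)
    (poly_evalD (Poly.snd Poly.id) (Poly.snd (poly_unpair.comp (Poly.fst Poly.id))))).congr
    fun y => ?_
  cases unbits (List (List (ℕ × Bool))) (unpair y).1 <;> rfl

theorem evalBC_pair (h : List (List (ℕ × Bool))) (x : List Bool) :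
    evalBC (pairBits (bits h) x) = evalD h x := by
  unfold evalBC
  rw [unpair_pairBits]
  simp only [unbits_bits]

/-- The learner on bit strings. -/
def learnBC (c k d r t C E : ℕ) (y : List Bool) : List (List (ℕ × Bool)) :=
  match unbits (ℕ × List (List Bool × Bool)) y with
  | none => []
  | some a => learnC c k d r t C E a

theorem poly_learnBC (c k d r t C E : ℕ) : Poly (learnBC c k d r t C E) := by
  unfold learnBC
  refine (Poly.optCases (g := fun _ => ([] : List (List (ℕ × Bool))))
    (h := fun _ a => learnC c k d r t C E a)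
    poly_unbits (Poly.const _) ((poly_learnC c k d r t C E).comp (Poly.snd Poly.id))).congr
    fun y => ?_
  cases unbits (ℕ × List (List Bool × Bool)) y <;> rfl

theorem learnBC_bits (c k d r t C E : ℕ) (a : ℕ × List (List Bool × Bool)) :
    learnBC c k d r t C E (bits a) = learnC c k d r t C E a := by
  unfold learnBC
  simp only [unbits_bits]

theorem learnC_smp (c k d r t C E : ℕ) {n m : ℕ} (hm : 0 < m) (D : ℕ) (f : Cube n → Bool)
    (ω : Fin m → Cube n) : learnC c k d r t C E (D, smp f ω) =
      learnD ((smp f ω).take (m1C c k d r C E n D)) d r t E (List.range n)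
        (ptsL ((smp f ω).take (m1C c k d r C E n D)))
        (negL ((smp f ω).take (m1C c k d r C E n D))) (negL (smp f ω)) (smp f ω) := by
  have h : (fstL (smp f ω)).length = n := by
    obtain ⟨m, rfl⟩ : ∃ m', m = m' + 1 := ⟨m - 1, by omega⟩
    unfold fstL smp
    rw [List.ofFn_succ]
    simp
  unfold learnC
  rw [h]

open Classical in
/-- Formulas with bounded codegree are represented by families with bounded codegree. -/
theorem rep_of_dnf {c k n : ℕ} {φ : DNF n} (hφ : DNFCoDeg c k φ) : Rep (c + 1) k φ.eval := by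
  -- the terms
  let I : Finset (Fin φ.length) := Finset.univ.filter
    (fun i => ∃ x : Cube n, (φ.get i).all (fun p => x p.1 == p.2) = true)
  let F : Fin φ.length → Finset (Fin n) := fun i => ((φ.get i).map Prod.fst).toFinset
  let v : Fin φ.length → Cube n := fun i =>
    if h : ∃ x : Cube n, (φ.get i).all (fun p => x p.1 == p.2) = true then h.choose
    else fun _ => false
  have hTr : ∀ i ∈ I, ∀ x : Cube n, Tr F v i x ↔
      (φ.get i).all (fun p => x p.1 == p.2) = true := by
    intro i hi x
    have hex : ∃ x : Cube n, (φ.get i).all (fun p => x p.1 == p.2) = true :=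
      (Finset.mem_filter.1 hi).2
    have hv : v i = hex.choose := dif_pos hex
    have hv' : (φ.get i).all (fun p => v i p.1 == p.2) = true := by
      rw [hv]
      exact hex.choose_spec
    rw [List.all_eq_true] at hv' ⊢
    unfold Tr
    constructor
    · intro h p hp
      have h1 := h p.1 (List.mem_toFinset.2 (List.mem_map.2 ⟨p, hp, rfl⟩))
      rw [h1]
      exact hv' p hp
    · intro h j hj
      obtain ⟨p, hp, rfl⟩ := List.mem_map.1 (List.mem_toFinset.1 hj)
      have h1 := h p hp
      have h2 := hv' p hp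
      rw [beq_iff_eq] at h1 h2
      rw [h1, h2]
  refine ⟨Fin φ.length, inferInstance, F, v, I, ?_, ?_⟩
  · intro Q hQ
    obtain ⟨Q', hQ', hQc⟩ : ∃ Q' ⊆ Q, Q'.card = c := Finset.exists_subset_card_eq (by omega)
    have h1 := hφ Q' hQc
    have h2 : (φ.filter (fun t => decide (TermContains Q' t))).length =
        (Finset.univ.filter (fun i : Fin φ.length =>
          decide (TermContains Q' (φ.get i)) = true)).card := by
      conv_lhs => rw [← List.ofFn_get φ]
      exact length_filter_ofFn _ _
    rw [h2] at h1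
    refine le_trans (Finset.card_le_card ?_) h1
    intro i hi
    rw [Finset.mem_filter] at hi ⊢
    refine ⟨Finset.mem_univ _, ?_⟩
    rw [decide_eq_true_eq]
    intro j hj
    obtain ⟨p, hp, hpj⟩ := List.mem_map.1 (List.mem_toFinset.1 (hi.2 (hQ' hj)))
    exact ⟨p.2, by rw [← hpj]; exact hp⟩
  · intro x
    unfold DNF.eval
    rw [List.any_eq_true]
    constructor
    · rintro ⟨t, ht, htx⟩
      obtain ⟨i, rfl⟩ := List.get_of_mem ht
      have hi : i ∈ I := Finset.mem_filter.2 ⟨Finset.mem_univ _, x, htx⟩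
      exact ⟨i, hi, (hTr i hi x).2 htx⟩
    · rintro ⟨i, hi, h⟩
      exact ⟨φ.get i, List.get_mem _ _, (hTr i hi x).1 h⟩

/-- DNF formulas in which any `c` variables occur together in at most `k` terms are learnable with
every constant accuracy. -/
theorem learnable_codeg (c k : ℕ) :
    ConstLearnable (fun n => {f | ∃ φ : DNF n, DNFCoDeg c k φ ∧ f = φ.eval}) := by
  intro E hE
  obtain ⟨d, r, t, C, hfail⟩ := fail_probC (c + 1) k (by omega) E hE
  obtain ⟨a, ha⟩ := PB_mC (c + 1) k d r t C E
  refine ⟨a, fun x => bits (learnBC (c + 1) k d r t C E x), fun y => [evalBC y],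
    polyTime_bits (poly_learnBC (c + 1) k d r t C E), polyTime_of_poly poly_evalBC, ?_⟩
  rintro n D hD f ⟨φ, hφ, rfl⟩
  set m := (n + D + 2) ^ a with hm
  have hm0 : 0 < m := by positivity
  have hmC : mC (c + 1) k d r t C E n D ≤ m := by
    have h1 := ha n 0 D
    simp only [add_zero] at h1
    exact h1
  have hmain := hfail (n := n) (D := D) (m := m) hD hmC φ.eval (rep_of_dnf hφ)
  have hset : {ω : Fin m → Fin n → Bool |
      2 ^ n < E * {x : Fin n → Bool | [evalBC (pairBits
        (bits (learnBC (c + 1) k d r t C E (bits (D, examples φ.eval ω)))) (List.ofFn x))] ≠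
          [φ.eval x]}.ncard} =
      {ω : Fin m → Cube n | ¬ (E : ℝ) * N (fun x => evalD (learnD
        ((smp φ.eval ω).take (m1C (c + 1) k d r C E n D)) d r t E (List.range n)
        (ptsL ((smp φ.eval ω).take (m1C (c + 1) k d r C E n D)))
        (negL ((smp φ.eval ω).take (m1C (c + 1) k d r C E n D))) (negL (smp φ.eval ω))
        (smp φ.eval ω)) (List.ofFn x) ≠ φ.eval x) ≤ 2 ^ n} := by
    ext ω
    rw [Set.mem_ofPred_eq, Set.mem_ofPred_eq, not_le, learnBC_bits]
    have h1 : examples φ.eval ω = smp φ.eval ω := rfl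
    rw [h1, learnC_smp _ _ _ _ _ _ _ hm0]
    simp only [evalBC_pair]
    unfold N
    rw [← Nat.cast_lt (α := ℝ)]
    push_cast
    have h2 : ∀ a b : Bool, ([a] ≠ [b]) = (a ≠ b) := by
      intro a b
      simp
    simp only [h2]
  have h3 : (D : ℝ) * ({ω : Fin m → Fin n → Bool |
      2 ^ n < E * {x : Fin n → Bool | [evalBC (pairBits
        (bits (learnBC (c + 1) k d r t C E (bits (D, examples φ.eval ω)))) (List.ofFn x))] ≠
          [φ.eval x]}.ncard}.ncard : ℝ) ≤ (2 ^ n) ^ m := by
    rw [hset]
    exact hmain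
  exact_mod_cast h3

end Pool.Agent.NPC.H687CD
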