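import Pool.Agent.H687.CD.Energy
import Pool.Agent.H687.CD.Alg
import Pool.Graph.R_pool_sql_team_seeded_f0cf7b00.H685R2.RK.Params

/-!
# Good samples
-/

set_option linter.unusedSectionVars false

namespace Pool.Agent.H687.CD

open Finset
open Pool.Agent.H685R2.RK
open Pool.Agent.H685R2.VST (tup mem_tup)

section

variable {n m : ℕ}

theorem Ms_le_all (P : (Fin m → Cube n) → Prop) : Ms P ≤ (2 ^ n) ^ m := by
  unfold Ms
  have h := Set.ncard_le_ncard (Set.subset_univ ({ω | P ω} : Set (Fin m → Cube n)))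
    (Set.toFinite _)
  rw [Set.ncard_univ, Nat.card_eq_fintype_card] at h
  simp only [Fintype.card_fun, Fintype.card_bool, Fintype.card_fin] at h
  exact_mod_cast h

/-- Uniform convergence for a finite family of functions. -/
theorem uc_all {K : Type} [Fintype K] (g : K → Cube n → ℝ) (hg : ∀ κ x, |g κ x| ≤ 1)
    (A : Finset (Fin m)) {τ : ℝ} (h0 : 0 ≤ τ) (h1 : τ ≤ 1) {y : ℝ} {Dl : ℕ} (hD : 0 < Dl)
    (hK : (Fintype.card K : ℝ) ≤ Real.exp y) (hA : y + 6 * Dl ≤ A.card * τ ^ 2 / 4) :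
    Ms (fun ω => ∃ κ, τ * A.card ≤ |∑ i ∈ A, g κ (ω i) - A.card * Ex (g κ)|) ≤
      1 / (3 * Dl) * (2 ^ n) ^ m := by
  have h2 : Ms (fun ω => ∃ κ, τ * A.card ≤ |∑ i ∈ A, g κ (ω i) - A.card * Ex (g κ)|) ≤
      Ms (fun ω => ∃ κ ∈ (Finset.univ : Finset K),
        τ * A.card ≤ |∑ i ∈ A, g κ (ω i) - A.card * ((∑ x, g κ x) / 2 ^ n)|) :=
    Ms_mono fun ω ⟨κ, h⟩ => ⟨κ, Finset.mem_univ _, h⟩
  refine h2.trans ((Ms_exists_le _ _).trans ?_)
  refine (Finset.sum_le_sum fun κ _ => uc_one (g κ) (hg κ) A h0 h1).trans ?_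
  rw [Finset.sum_const, Finset.card_univ, nsmul_eq_mul]
  have hD' : (0 : ℝ) < Dl := by exact_mod_cast hD
  set x := (A.card : ℝ) * τ ^ 2 / 4 with hx
  have h3 : (Fintype.card K : ℝ) * Real.exp (-x) ≤ Real.exp (-(6 * Dl)) := by
    calc (Fintype.card K : ℝ) * Real.exp (-x) ≤ Real.exp y * Real.exp (-x) :=
          mul_le_mul_of_nonneg_right hK (Real.exp_pos _).le
      _ = Real.exp (y - x) := by rw [← Real.exp_add]; congr 1
      _ ≤ _ := Real.exp_le_exp.2 (by linarith)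
  have h4 : Real.exp (-(6 * Dl : ℝ)) ≤ 1 / (6 * Dl) := by
    rw [Real.exp_neg, ← one_div]
    apply one_div_le_one_div_of_le (by positivity)
    have := Real.add_one_le_exp (6 * Dl : ℝ)
    linarith
  calc (Fintype.card K : ℝ) * (2 * ((2 ^ n) ^ m * Real.exp (-x))) =
      2 * ((Fintype.card K : ℝ) * Real.exp (-x)) * (2 ^ n) ^ m := by ring
    _ ≤ 2 * (1 / (6 * Dl)) * (2 ^ n) ^ m := by
        apply mul_le_mul_of_nonneg_right _ (by positivity)
        linarith
    _ = _ := by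
        congr 1
        field_simp
        norm_num

/-- The statistic of a set, as a function of one example. -/
noncomputable def gS (f : Cube n → Bool) (κ : Finset (Fin n) × Cube n × Finset (Fin n))
    (x : Cube n) : ℝ := ind (f x = false ∧ ∀ j ∈ κ.1, x j = κ.2.1 j) * chi κ.2.2 x

/-- The pattern. -/
noncomputable def gP (κ : Finset (Fin n) × Cube n) (x : Cube n) : ℝ :=
  ind (∀ j ∈ κ.1, x j = κ.2 j)

/-- The DNF formula with the given terms is true. -/
def Dn {s : ℕ} (κ : Fin s → Option (Finset (Fin n) × Cube n)) (x : Cube n) : Prop :=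
  ∃ i p, κ i = some p ∧ ∀ j ∈ p.1, x j = p.2 j

/-- The error on the points with label `b`. -/
noncomputable def gE (f : Cube n → Bool) {s : ℕ}
    (κ : (Fin s → Option (Finset (Fin n) × Cube n)) × Bool) (x : Cube n) : ℝ :=
  ind (f x = κ.2 ∧ (Dn κ.1 x ↔ κ.2 = false))

theorem abs_ind_le (P : Prop) : |ind P| ≤ 1 := by
  rw [abs_of_nonneg (ind_nonneg P)]
  exact ind_le_one P

theorem gS_le (f : Cube n → Bool) (κ : Finset (Fin n) × Cube n × Finset (Fin n)) (x : Cube n) :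
    |gS f κ x| ≤ 1 := by
  unfold gS
  rw [abs_mul, abs_chi, mul_one]
  exact abs_ind_le _

/-- The first examples. -/
def firstI (m m₁ : ℕ) : Finset (Fin m) := Finset.univ.filter (fun i => i.val < m₁)

/-- A good sample. -/
structure Good (f : Cube n → Bool) (ω : Fin m → Cube n) (m₁ s : ℕ) (τ₁ τ : ℝ) : Prop where
  st : ∀ V z U, |∑ i ∈ firstI m m₁, gS f (V, z, U) (ω i) - m₁ * Ex (gS f (V, z, U))| < τ₁ * m₁
  pt : ∀ G b, |∑ i ∈ firstI m m₁, gP (G, b) (ω i) - m₁ * Ex (gP (G, b))| < τ₁ * m₁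
  er : ∀ (κ : Fin s → Option (Finset (Fin n) × Cube n)) (b : Bool),
    |∑ i, gE f (κ, b) (ω i) - m * Ex (gE f (κ, b))| < τ * m

theorem exp_two : (4 : ℝ) ≤ Real.exp 2 := by
  have h4 := Real.add_one_le_exp (1 : ℝ)
  have h5 : Real.exp 2 = Real.exp 1 * Real.exp 1 := by
    rw [← Real.exp_add]
    norm_num
  rw [h5]
  nlinarith

theorem exp_one : (2 : ℝ) ≤ Real.exp 1 := by
  have h4 := Real.add_one_le_exp (1 : ℝ)
  linarith

theorem four_pow_le (n : ℕ) : (4 : ℝ) ^ n ≤ Real.exp (2 * n) := by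
  have h4 : Real.exp (2 * n) = (Real.exp 2) ^ n := by
    rw [← Real.exp_nat_mul]
    congr 1
    ring
  rw [h4]
  exact pow_le_pow_left₀ (by norm_num) exp_two n

theorem two_pow_le (n : ℕ) : (2 : ℝ) ^ n ≤ Real.exp n := by
  have h4 : Real.exp (n : ℝ) = (Real.exp 1) ^ n := by
    rw [← Real.exp_nat_mul]
    congr 1
    ring
  rw [h4]
  exact pow_le_pow_left₀ (by norm_num) exp_one n

theorem firstI_card {m₁ : ℕ} (hm : m₁ ≤ m) : (firstI m m₁).card = m₁ := filt_card hm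

/-- Most samples are good. -/
theorem good_prob' (f : Cube n → Bool) {m₁ s Dl : ℕ} {τ₁ τ : ℝ} (hm : m₁ ≤ m) (hD : 0 < Dl)
    (h0 : 0 ≤ τ₁) (h1 : τ₁ ≤ 1) (h0' : 0 ≤ τ) (h1' : τ ≤ 1)
    (hm1 : (3 * n + 6 * Dl : ℝ) ≤ m₁ * τ₁ ^ 2 / 4)
    (hm2 : (1 + s * (1 + 2 * n) + 6 * Dl : ℝ) ≤ m * τ ^ 2 / 4) :
    (Dl : ℝ) * Ms (fun ω : Fin m → Cube n => ¬ Good f ω m₁ s τ₁ τ) ≤ (2 ^ n) ^ m := by
  have hc := firstI_card hm
  have a1 := uc_all (gS f) (gS_le f) (firstI m m₁) h0 h1 (y := 3 * n) hD (by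
    rw [Fintype.card_prod, Fintype.card_prod, Fintype.card_finset, Fintype.card_fun,
      Fintype.card_bool, Fintype.card_fin]
    push_cast
    have h2 : (2 : ℝ) ^ n * (2 ^ n * 2 ^ n) = 2 ^ n * 4 ^ n := by
      rw [← mul_pow]; norm_num
    rw [h2]
    calc (2 : ℝ) ^ n * 4 ^ n ≤ Real.exp n * Real.exp (2 * n) :=
          mul_le_mul (two_pow_le n) (four_pow_le n) (by positivity) (Real.exp_pos _).le
      _ = Real.exp (3 * n) := by rw [← Real.exp_add]; congr 1; ring) (by rw [hc]; exact hm1)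
  have a2 := uc_all (gP (n := n)) (fun κ x => abs_ind_le _) (firstI m m₁) h0 h1 (y := 3 * n) hD (by
    rw [Fintype.card_prod, Fintype.card_finset, Fintype.card_fun,
      Fintype.card_bool, Fintype.card_fin]
    push_cast
    rw [← mul_pow]
    norm_num
    refine (four_pow_le n).trans (Real.exp_le_exp.2 ?_)
    have : (0 : ℝ) ≤ n := by positivity
    linarith) (by rw [hc]; exact hm1)
  have a3 := uc_all (m := m) (gE f (s := s)) (fun κ x => abs_ind_le _) Finset.univ h0' h1'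
    (y := 1 + s * (1 + 2 * n)) hD (by
    rw [Fintype.card_prod, Fintype.card_fun, Fintype.card_option, Fintype.card_prod,
      Fintype.card_finset, Fintype.card_fun, Fintype.card_bool, Fintype.card_fin, Fintype.card_fin]
    push_cast
    have h2 : (2 : ℝ) ^ n * 2 ^ n + 1 ≤ Real.exp (1 + 2 * n) := by
      have h3 : (2 : ℝ) ^ n * 2 ^ n = 4 ^ n := by
        rw [← mul_pow]; norm_num
      have h4 : (1 : ℝ) ≤ 4 ^ n := one_le_pow₀ (by norm_num)
      rw [h3, Real.exp_add]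
      have h5 := four_pow_le n
      have h6 := exp_one
      nlinarith [Real.exp_pos (2 * n : ℝ)]
    calc ((2 : ℝ) ^ n * 2 ^ n + 1) ^ s * 2 ≤ (Real.exp (1 + 2 * n)) ^ s * Real.exp 1 :=
          mul_le_mul (pow_le_pow_left₀ (by positivity) h2 s) exp_one (by norm_num)
            (by positivity)
      _ = Real.exp (1 + s * (1 + 2 * n)) := by
          rw [← Real.exp_nat_mul, ← Real.exp_add]; congr 1; ring) (by
      rw [Finset.card_univ, Fintype.card_fin]
      exact hm2)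
  have h2 : Ms (fun ω : Fin m → Cube n => ¬ Good f ω m₁ s τ₁ τ) ≤
      1 / (3 * Dl) * (2 ^ n) ^ m + (1 / (3 * Dl) * (2 ^ n) ^ m + 1 / (3 * Dl) * (2 ^ n) ^ m) := by
    refine le_trans (Ms_mono fun ω h => ?_) ((Ms_or_le _ _).trans (add_le_add a1
      ((Ms_or_le _ _).trans (add_le_add a2 a3))))
    by_contra hcon
    rw [not_or, not_or] at hcon
    obtain ⟨c1, c2, c3⟩ := hcon
    push Not at c1 c2 c3
    apply h
    refine ⟨?_, ?_, ?_⟩
    · intro V z U
      have := c1 (V, z, U)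
      rwa [hc] at this
    · intro G b
      have := c2 (G, b)
      rwa [hc] at this
    · intro κ b
      have := c3 (κ, b)
      rwa [Finset.card_univ, Fintype.card_fin] at this
  have hD' : (0 : ℝ) < Dl := by exact_mod_cast hD
  calc _ ≤ (Dl : ℝ) * (1 / (3 * Dl) * (2 ^ n) ^ m + (1 / (3 * Dl) * (2 ^ n) ^ m +
        1 / (3 * Dl) * (2 ^ n) ^ m)) := mul_le_mul_of_nonneg_left h2 hD'.le
    _ = _ := by field_simp; ring

end

end Pool.Agent.H687.CD
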