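import Pool.Agent.H687.CD.Bad

/-!
# The total weight is bounded: second moments
-/

set_option linter.unusedSectionVars false

namespace Pool.Agent.H687.CD

open Finset
open Pool.Agent.H685R2.RK

section

variable {n : ℕ} {ι : Type} [DecidableEq ι] {F : ι → Finset (Fin n)} {v : ι → Fin n → Bool}
  {I : Finset ι} {c k : ℕ}

theorem Pr_Tr (i : ι) : Pr (Tr F v i) = (1 / 2) ^ (F i).card := Pr_pat (v i) (F i)

theorem Pr_Tr_and (i j : ι) :
    Pr (fun x => Tr F v i x ∧ Tr F v j x) ≤ (1 / 2) ^ (F i ∪ F j).card := by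
  rw [← Pr_pat (patch (F i) (v i) (v j)) (F i ∪ F j)]
  apply Pr_mono
  rintro x ⟨h1, h2⟩ y hy
  by_cases hyi : y ∈ F i
  · rw [patch_mem hyi]
    exact h1 y hyi
  · rw [patch_not hyi]
    rcases Finset.mem_union.1 hy with h | h
    · exact absurd h hyi
    · exact h2 y h

theorem exists_sub (t : ℝ) (ht : 0 ≤ t) (I : Finset ι) (h : t ≤ Om F I) :
    ∃ J ⊆ I, t ≤ Om F J ∧ Om F J ≤ t + 1 := by
  induction I using Finset.induction with
  | empty =>
    refine ⟨∅, subset_rfl, h, ?_⟩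
    unfold Om
    rw [Finset.sum_empty]
    linarith
  | insert i I hi ih =>
    by_cases h1 : t ≤ Om F I
    · obtain ⟨J, hJ, h2, h3⟩ := ih h1
      exact ⟨J, hJ.trans (Finset.subset_insert _ _), h2, h3⟩
    · refine ⟨insert i I, subset_rfl, h, ?_⟩
      unfold Om at h1 ⊢
      rw [Finset.sum_insert hi]
      have h2 : (1 / 2 : ℝ) ^ (F i).card ≤ 1 := pow_le_one₀ (by norm_num) (by norm_num)
      linarith

/-- Chebyshev's inequality. -/
theorem cheb : Pr (Sat F v I) * (Om F I) ^ 2 ≤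
    ∑ i ∈ I, ∑ j ∈ I.filter (fun j => ¬ Disjoint (F i) (F j)), (1 / 2 : ℝ) ^ (F i ∪ F j).card := by
  classical
  set μ := Om F I with hμ
  have h1 : Pr (Sat F v I) * μ ^ 2 ≤ Ex (fun x => (∑ i ∈ I, ind (Tr F v i x) - μ) ^ 2) := by
    rw [← Ex_ind, mul_comm, ← Ex_mul_left]
    apply Ex_mono
    intro x
    by_cases hx : Sat F v I x
    · rw [ind_true hx]
      have h2 : ∑ i ∈ I, ind (Tr F v i x) = 0 := by
        apply Finset.sum_eq_zero
        intro i hi
        exact ind_false (hx i hi)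
      rw [h2]
      ring_nf
      exact le_rfl
    · rw [ind_false hx, mul_zero]
      positivity
  refine h1.trans ?_
  have h2 : ∀ x, (∑ i ∈ I, ind (Tr F v i x) - μ) ^ 2 =
      (∑ i ∈ I, ∑ j ∈ I, ind (Tr F v i x ∧ Tr F v j x)) - (2 * μ * (∑ i ∈ I, ind (Tr F v i x)) -
        μ ^ 2) := by
    intro x
    simp only [ind_and]
    rw [← Finset.sum_mul_sum]
    ring
  rw [Ex_congr h2, Ex_sub, Ex_sub, Ex_mul_left, Ex_const, Ex_sum, Ex_sum]
  have h3 : ∑ i ∈ I, Ex (fun x => ind (Tr F v i x)) = μ := by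
    rw [hμ]
    unfold Om
    apply Finset.sum_congr rfl
    intro i _
    rw [Ex_ind, Pr_Tr]
  rw [h3]
  have h4 : ∀ i ∈ I, Ex (fun x => ∑ j ∈ I, ind (Tr F v i x ∧ Tr F v j x)) ≤
      (1 / 2) ^ (F i).card * μ +
        ∑ j ∈ I.filter (fun j => ¬ Disjoint (F i) (F j)), (1 / 2 : ℝ) ^ (F i ∪ F j).card := by
    intro i _
    rw [Ex_sum, hμ, Finset.sum_filter]
    unfold Om
    rw [Finset.mul_sum, ← Finset.sum_add_distrib]
    apply Finset.sum_le_sum
    intro j _
    rw [Ex_ind]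
    by_cases hd : Disjoint (F i) (F j)
    · rw [if_neg (by simpa using hd), add_zero]
      refine (Pr_Tr_and i j).trans (le_of_eq ?_)
      rw [Finset.card_union_of_disjoint hd, pow_add]
    · rw [if_pos hd]
      refine (Pr_Tr_and i j).trans ?_
      have : (0 : ℝ) ≤ (1 / 2) ^ (F i).card * (1 / 2) ^ (F j).card := by positivity
      linarith
  have h5 := Finset.sum_le_sum h4
  rw [Finset.sum_add_distrib, ← Finset.sum_mul] at h5
  have h6 : ∑ i ∈ I, (1 / 2 : ℝ) ^ (F i).card = μ := rfl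
  rw [h6] at h5
  nlinarith

/-- The variance. -/
theorem variance_le (hcd : CoDeg F I c k) :
    ∑ i ∈ I, ∑ j ∈ I.filter (fun j => ¬ Disjoint (F i) (F j)), (1 / 2 : ℝ) ^ (F i ∪ F j).card ≤
      2 * (k * Kc c * Om F I) +
        2 ^ c * ∑ i ∈ I, (1 / 2) ^ (F i).card * ∑ x ∈ F i, nu F I x := by
  classical
  let A : ι → ι → ℝ := fun i j =>
    2 ^ c * ((1 / 2) ^ (F i).card * (((F j ∩ F i).card : ℝ) * (1 / 2) ^ (F j).card))
  let B : ι → ι → ℝ := fun i j =>
    if (F i).card ≤ (F j).card ∧ c ≤ (F j ∩ F i).card then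
      (1 / 2) ^ (F i).card * (1 / 2) ^ (F j \ F i).card else 0
  have hB0 : ∀ i j, 0 ≤ B i j := by
    intro i j
    simp only [B]
    split_ifs
    · positivity
    · exact le_rfl
  have hA0 : ∀ i j, 0 ≤ A i j := by
    intro i j
    simp only [A]
    positivity
  have h1 : ∀ i ∈ I, ∑ j ∈ I.filter (fun j => ¬ Disjoint (F i) (F j)),
      (1 / 2 : ℝ) ^ (F i ∪ F j).card ≤ ∑ j ∈ I, (A i j + (B i j + B j i)) := by
    intro i _
    rw [Finset.sum_filter]
    apply Finset.sum_le_sum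
    intro j _
    by_cases hd : Disjoint (F i) (F j)
    · rw [if_neg (by simpa using hd)]
      have := hA0 i j
      have := hB0 i j
      have := hB0 j i
      linarith
    · rw [if_pos hd]
      have hint : 1 ≤ (F j ∩ F i).card := by
        rw [Nat.one_le_iff_ne_zero, Finset.card_ne_zero]
        rw [Finset.not_disjoint_iff] at hd
        obtain ⟨x, hx, hx'⟩ := hd
        exact ⟨x, Finset.mem_inter.2 ⟨hx', hx⟩⟩
      have hsymm : (F i ∩ F j).card = (F j ∩ F i).card := by rw [Finset.inter_comm]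
      have hu := Finset.card_union_add_card_inter (F i) (F j)
      by_cases hc : c ≤ (F j ∩ F i).card
      · have h2 : (1 / 2 : ℝ) ^ (F i ∪ F j).card ≤ B i j + B j i := by
          rcases le_total (F i).card (F j).card with h3 | h3
          · have h4 : B i j = (1 / 2) ^ (F i).card * (1 / 2) ^ (F j \ F i).card := if_pos ⟨h3, hc⟩
            have h5 := hB0 j i
            rw [h4, ← pow_add]
            have h6 := Finset.card_sdiff_add_card_inter (F j) (F i)
            have h7 : (F i).card + (F j \ F i).card = (F i ∪ F j).card := by omega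
            rw [h7]
            linarith
          · have h4 : B j i = (1 / 2) ^ (F j).card * (1 / 2) ^ (F i \ F j).card :=
              if_pos ⟨h3, by rw [hsymm]; exact hc⟩
            have h5 := hB0 i j
            rw [h4, ← pow_add]
            have h6 := Finset.card_sdiff_add_card_inter (F i) (F j)
            have h7 : (F j).card + (F i \ F j).card = (F i ∪ F j).card := by omega
            rw [h7]
            linarith
        have := hA0 i j
        linarith
      · have h2 : (1 / 2 : ℝ) ^ (F i ∪ F j).card ≤ A i j := by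
          simp only [A]
          have h3 : (F i).card + (F j).card ≤ (F i ∪ F j).card + c := by omega
          have h4 : (1 / 2 : ℝ) ^ (F i ∪ F j).card ≤ 2 ^ c * (1 / 2) ^ ((F i).card + (F j).card) := by
            have h5 : (1 / 2 : ℝ) ^ ((F i ∪ F j).card + c) ≤ (1 / 2) ^ ((F i).card + (F j).card) :=
              pow_le_pow_of_le_one (by norm_num) (by norm_num) h3
            rw [pow_add] at h5
            have h6 : (2 : ℝ) ^ c * (1 / 2) ^ c = 1 := by
              rw [← mul_pow]; norm_num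
            calc (1 / 2 : ℝ) ^ (F i ∪ F j).card =
                2 ^ c * ((1 / 2 : ℝ) ^ (F i ∪ F j).card * (1 / 2) ^ c) := by
                  rw [mul_comm ((1 / 2 : ℝ) ^ (F i ∪ F j).card), ← mul_assoc, h6, one_mul]
              _ ≤ _ := mul_le_mul_of_nonneg_left h5 (by positivity)
          refine h4.trans ?_
          rw [pow_add]
          apply mul_le_mul_of_nonneg_left _ (by positivity)
          apply mul_le_mul_of_nonneg_left _ (by positivity)
          have h7 : (1 : ℝ) ≤ (F j ∩ F i).card := by exact_mod_cast hint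
          have h8 : (0 : ℝ) < (1 / 2) ^ (F j).card := by positivity
          nlinarith
        have := hB0 i j
        have := hB0 j i
        linarith
  refine (Finset.sum_le_sum h1).trans ?_
  have h2 : ∑ i ∈ I, ∑ j ∈ I, (A i j + (B i j + B j i)) =
      ∑ i ∈ I, ∑ j ∈ I, A i j + (∑ i ∈ I, ∑ j ∈ I, B i j + ∑ i ∈ I, ∑ j ∈ I, B j i) := by
    simp only [Finset.sum_add_distrib]
  have h3 : ∑ i ∈ I, ∑ j ∈ I, B j i = ∑ i ∈ I, ∑ j ∈ I, B i j := Finset.sum_comm
  have h4 : ∑ i ∈ I, ∑ j ∈ I, B i j ≤ k * Kc c * Om F I := by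
    unfold Om
    rw [Finset.mul_sum]
    apply Finset.sum_le_sum
    intro i _
    have h5 := hcd.overlap (F i)
    simp only [B]
    rw [← Finset.sum_filter, ← Finset.mul_sum, mul_comm]
    exact mul_le_mul_of_nonneg_right h5 (by positivity)
  have h5 : ∑ i ∈ I, ∑ j ∈ I, A i j = 2 ^ c * ∑ i ∈ I, (1 / 2) ^ (F i).card *
      ∑ x ∈ F i, nu F I x := by
    rw [Finset.mul_sum]
    apply Finset.sum_congr rfl
    intro i _
    rw [sum_nu]
    simp only [A]
    rw [← Finset.mul_sum, ← Finset.mul_sum]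
  rw [h2, h3, h5]
  linarith

end

theorem lin_geo (c : ℕ) : ∃ K : ℝ, 0 < K ∧ ∀ w : ℕ, (w : ℝ) * (1 / 2) ^ (w / (4 * c)) ≤
    if 0 < c then K else w := by
  obtain ⟨K, hK, hKw⟩ := pg_bound 1 (r := 1 / 2) (s := 1) (by norm_num) (by norm_num)
  refine ⟨4 * c * K + 1, by positivity, fun w => ?_⟩
  split_ifs with hc
  · have h1 := hKw (w / (4 * c))
    rw [one_pow, mul_one, pow_one] at h1
    have h2 : w ≤ 4 * c * (w / (4 * c) + 1) := by
      have := Nat.lt_div_mul_add (a := w) (b := 4 * c) (by omega)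
      calc w ≤ w / (4 * c) * (4 * c) + 4 * c := this.le
        _ = _ := by ring
    have h3 : (w : ℝ) ≤ 4 * c * ((w / (4 * c) + 1 : ℕ) : ℝ) := by exact_mod_cast h2
    have h4 : (0 : ℝ) < (1 / 2) ^ (w / (4 * c)) := by positivity
    calc (w : ℝ) * (1 / 2) ^ (w / (4 * c)) ≤
        4 * c * ((w / (4 * c) + 1 : ℕ) : ℝ) * (1 / 2) ^ (w / (4 * c)) :=
          mul_le_mul_of_nonneg_right h3 h4.le
      _ = 4 * c * (((w / (4 * c) + 1 : ℕ) : ℝ) * (1 / 2) ^ (w / (4 * c))) := by ring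
      _ ≤ 4 * c * K := mul_le_mul_of_nonneg_left h1 (by positivity)
      _ ≤ _ := by linarith
  · have h4 : (1 / 2 : ℝ) ^ (w / (4 * c)) ≤ 1 := pow_le_one₀ (by norm_num) (by norm_num)
    have h5 : (0 : ℝ) ≤ w := by positivity
    nlinarith

/-- If the formula is not almost true and the variables have bounded weight, then the total weight
is bounded. -/
theorem second_moment (c k : ℕ) (hc : 1 ≤ c) (B η : ℝ) (hB : 0 ≤ B) (hη : 0 < η) :
    ∃ M : ℝ, 0 ≤ M ∧ ∀ {n : ℕ} {ι : Type} [DecidableEq ι] (F : ι → Finset (Fin n))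
      (v : ι → Fin n → Bool) (I : Finset ι), CoDeg F I c k → (∀ x, nu F I x ≤ B) →
      η ≤ Pr (Sat F v I) → Om F I ≤ M := by
  obtain ⟨K, L, hK, hbad⟩ := bad_weight c k
  obtain ⟨C2, hC2, hlin⟩ := lin_geo c
  set C3 : ℝ := 4 * (k * Kc c) + 2 ^ c * (2 * (B + c * B + C2) + B * K) with hC3
  have hC3n : 0 ≤ C3 := by
    have := Kc_nonneg c
    positivity
  set ℓ : ℕ := max (L + 1) (⌈C3 / η⌉₊ + 1) with hℓ
  have hℓ1 : L + 1 ≤ ℓ := le_max_left _ _
  have hℓ2 : C3 < η * ℓ := by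
    have h1 : C3 / η ≤ ⌈C3 / η⌉₊ := Nat.le_ceil _
    have h2 : ((⌈C3 / η⌉₊ + 1 : ℕ) : ℝ) ≤ ℓ := by exact_mod_cast le_max_right _ _
    push_cast at h2
    have h3 : C3 / η < ℓ := by linarith
    rw [div_lt_iff₀ hη] at h3
    linarith
  refine ⟨(ℓ : ℝ) ^ 2, by positivity, ?_⟩
  intro n ι _ F v I hcd hnu hPr
  by_contra hcon
  push Not at hcon
  obtain ⟨J, hJ, hJ1, hJ2⟩ := exists_sub ((ℓ : ℝ) ^ 2) (by positivity) I hcon.le
  have hcdJ := hcd.mono hJ
  have hnuJ : ∀ x, nu F J x ≤ B := fun x => (nu_mono hJ x).trans (hnu x)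
  have hPrJ : η ≤ Pr (Sat F v J) := hPr.trans (Pr_mono fun x hx i hi => hx i (hJ hi))
  have hch := (cheb (F := F) (v := v) (I := J)).trans (variance_le hcdJ)
  have hℓpos : (1 : ℝ) ≤ ℓ := by
    have : 1 ≤ ℓ := by omega
    exact_mod_cast this
  -- the sums over the terms
  have hS : ∀ i ∈ J, (1 / 2 : ℝ) ^ (F i).card * ∑ x ∈ F i, nu F J x ≤
      (1 / 2) ^ (F i).card * (ℓ * B + c * B + C2) +
        B * (ind (ℓ ≤ (F i).card ∧ Bad F J c i) * ((F i).card * (1 / 2) ^ (F i).card)) := by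
    intro i _
    have hwt : (0 : ℝ) < (1 / 2) ^ (F i).card := by positivity
    have htriv : ∑ x ∈ F i, nu F J x ≤ (F i).card * B := by
      refine (Finset.sum_le_card_nsmul _ _ _ (fun x _ => hnuJ x)).trans (le_of_eq ?_)
      rw [nsmul_eq_mul]
    have hcB : 0 ≤ (c : ℝ) * B := by positivity
    by_cases h1 : (F i).card < ℓ
    · have h2 : ((F i).card : ℝ) ≤ ℓ := by exact_mod_cast h1.le
      have h3 : ((F i).card : ℝ) * B ≤ ℓ * B := mul_le_mul_of_nonneg_right h2 hB
      have h4 := mul_le_mul_of_nonneg_left (htriv.trans h3) hwt.le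
      rw [ind_false (by omega)]
      have h5 := mul_nonneg hwt.le hcB
      have h6 := mul_nonneg hwt.le hC2.le
      nlinarith
    · push Not at h1
      by_cases h2 : Bad F J c i
      · rw [ind_true ⟨h1, h2⟩, one_mul]
        have h4 := mul_le_mul_of_nonneg_left htriv hwt.le
        have h5 := mul_nonneg hwt.le hcB
        have h6 := mul_nonneg hwt.le hC2.le
        have h7 : 0 ≤ (1 / 2 : ℝ) ^ (F i).card * (ℓ * B) := by positivity
        nlinarith
      · rw [ind_false (fun h => h2 h.2), zero_mul, mul_zero, add_zero]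
        apply mul_le_mul_of_nonneg_left _ hwt.le
        unfold Bad at h2
        push Not at h2
        set H := Hv F J ((F i).card / (4 * c)) with hH
        have h3 : ∑ x ∈ F i, nu F J x = ∑ x ∈ F i ∩ H, nu F J x + ∑ x ∈ F i \ H, nu F J x := by
          rw [Finset.sum_inter_add_sum_sdiff]
        rw [h3]
        have h4 : ∑ x ∈ F i ∩ H, nu F J x ≤ c * B := by
          refine (Finset.sum_le_card_nsmul _ _ _ (fun x _ => hnuJ x)).trans ?_
          rw [nsmul_eq_mul]
          apply mul_le_mul_of_nonneg_right _ hB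
          exact_mod_cast h2.le
        have h5 : ∑ x ∈ F i \ H, nu F J x ≤ C2 := by
          have h6 : ∀ x ∈ F i \ H, nu F J x ≤ (1 / 2) ^ ((F i).card / (4 * c)) := by
            intro x hx
            rw [Finset.mem_sdiff, hH] at hx
            unfold Hv at hx
            rw [Finset.mem_filter] at hx
            have h7 := hx.2
            simp only [Finset.mem_univ, true_and, not_lt] at h7
            exact h7
          refine (Finset.sum_le_card_nsmul _ _ _ h6).trans ?_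
          rw [nsmul_eq_mul]
          have h7 := hlin (F i).card
          rw [if_pos (by omega)] at h7
          refine le_trans ?_ h7
          apply mul_le_mul_of_nonneg_right _ (by positivity)
          exact_mod_cast Finset.card_le_card Finset.sdiff_subset
        have h8 : 0 ≤ (ℓ : ℝ) * B := by positivity
        linarith
  have hS2 := Finset.sum_le_sum hS
  rw [Finset.sum_add_distrib, ← Finset.sum_mul, ← Finset.mul_sum] at hS2
  have hOm : ∑ i ∈ J, (1 / 2 : ℝ) ^ (F i).card = Om F J := rfl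
  rw [hOm] at hS2
  have hbadJ : ∑ i ∈ J, ind (ℓ ≤ (F i).card ∧ Bad F J c i) * ((F i).card * (1 / 2 : ℝ) ^ (F i).card) ≤
      K := by
    classical
    have h1 : ∑ i ∈ J, ind (ℓ ≤ (F i).card ∧ Bad F J c i) * ((F i).card * (1 / 2 : ℝ) ^ (F i).card) =
        ∑ i ∈ J.filter (fun i => ℓ ≤ (F i).card ∧ Bad F J c i),
          ((F i).card : ℝ) * (1 / 2) ^ (F i).card := by
      rw [Finset.sum_filter]
      apply Finset.sum_congr rfl
      intro i _
      unfold ind
      split_ifs <;> simp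
    rw [h1]
    have h2 := hbad F J hcdJ ℓ (by omega) hJ2
      (J.filter (fun i => ℓ ≤ (F i).card ∧ Bad F J c i)) (Finset.filter_subset _ _)
      (fun i hi => (Finset.mem_filter.1 hi).2)
    refine h2.trans ?_
    have h3 : (2 / 3 : ℝ) ^ ℓ ≤ 1 := pow_le_one₀ (by norm_num) (by norm_num)
    nlinarith
  -- the final estimate
  have hOm0 : 0 ≤ Om F J := Om_nonneg
  have hcb : 0 ≤ (ℓ : ℝ) * B + c * B + C2 := by positivity
  have e1 : Om F J ≤ 2 * (ℓ : ℝ) ^ 2 := by nlinarith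
  have e2 : ∑ i ∈ J, (1 / 2 : ℝ) ^ (F i).card * ∑ x ∈ F i, nu F J x ≤
      2 * (ℓ : ℝ) ^ 2 * (ℓ * B + c * B + C2) + B * K := by
    refine hS2.trans ?_
    have h1 := mul_le_mul_of_nonneg_right e1 hcb
    have h2 := mul_le_mul_of_nonneg_left hbadJ hB
    linarith
  have hkc : 0 ≤ (k : ℝ) * Kc c := mul_nonneg (by positivity) (Kc_nonneg c)
  have e3 : Pr (Sat F v J) * (Om F J) ^ 2 ≤ C3 * (ℓ : ℝ) ^ 3 := by
    refine hch.trans ?_
    have h1 := mul_le_mul_of_nonneg_left e1 hkc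
    have h2 := mul_le_mul_of_nonneg_left e2 (by positivity : (0 : ℝ) ≤ 2 ^ c)
    have hl2 : (ℓ : ℝ) ^ 2 ≤ (ℓ : ℝ) ^ 3 := pow_le_pow_right₀ hℓpos (by norm_num)
    have hl0 : (1 : ℝ) ≤ (ℓ : ℝ) ^ 3 := one_le_pow₀ hℓpos
    have h3 : 2 * (k * Kc c * Om F J) ≤ 4 * (k * Kc c) * (ℓ : ℝ) ^ 3 := by
      have h8 := mul_le_mul_of_nonneg_left hl2 hkc
      linarith
    have h4 : 2 * (ℓ : ℝ) ^ 2 * (ℓ * B + c * B + C2) + B * K ≤
        (2 * (B + c * B + C2) + B * K) * (ℓ : ℝ) ^ 3 := by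
      have h5 : 2 * (ℓ : ℝ) ^ 2 * (ℓ * B + c * B + C2) =
          2 * (B * (ℓ : ℝ) ^ 3) + 2 * ((c * B + C2) * (ℓ : ℝ) ^ 2) := by ring
      have h6 : (c * B + C2) * (ℓ : ℝ) ^ 2 ≤ (c * B + C2) * (ℓ : ℝ) ^ 3 :=
        mul_le_mul_of_nonneg_left hl2 (by positivity)
      have h7 : B * K * 1 ≤ B * K * (ℓ : ℝ) ^ 3 := mul_le_mul_of_nonneg_left hl0 (by positivity)
      have h8 : (2 * (B + c * B + C2) + B * K) * (ℓ : ℝ) ^ 3 =
          2 * (B * (ℓ : ℝ) ^ 3) + 2 * ((c * B + C2) * (ℓ : ℝ) ^ 3) + B * K * (ℓ : ℝ) ^ 3 := by ring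
      rw [h5, h8]
      linarith
    have h5 := mul_le_mul_of_nonneg_left h4 (by positivity : (0 : ℝ) ≤ 2 ^ c)
    have h6 : C3 * (ℓ : ℝ) ^ 3 = 4 * (k * Kc c) * (ℓ : ℝ) ^ 3 +
        2 ^ c * ((2 * (B + c * B + C2) + B * K) * (ℓ : ℝ) ^ 3) := by rw [hC3]; ring
    rw [h6]
    linarith
  have e4 : η * (ℓ : ℝ) ^ 4 ≤ Pr (Sat F v J) * (Om F J) ^ 2 := by
    have h1 : (ℓ : ℝ) ^ 4 ≤ (Om F J) ^ 2 := by
      calc (ℓ : ℝ) ^ 4 = ((ℓ : ℝ) ^ 2) ^ 2 := by ring
        _ ≤ _ := pow_le_pow_left₀ (by positivity) hJ1 2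
    exact mul_le_mul hPrJ h1 (by positivity) (hη.le.trans hPrJ)
  have e5 : η * ℓ * (ℓ : ℝ) ^ 3 ≤ C3 * (ℓ : ℝ) ^ 3 := by
    calc η * ℓ * (ℓ : ℝ) ^ 3 = η * (ℓ : ℝ) ^ 4 := by ring
      _ ≤ _ := e4
      _ ≤ _ := e3
  have e6 := le_of_mul_le_mul_right e5 (by positivity)
  linarith

end Pool.Agent.H687.CD
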