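import Pool.Agent.H687.CD.Second

/-!
# The total weight is bounded if no restriction of few variables is almost true
-/

set_option linter.unusedSectionVars false

namespace Pool.Agent.H687.CD

open Finset
open Pool.Agent.H685R2.RK

theorem weight_bounded (η : ℝ) (hη : 0 < η) (k : ℕ) : ∀ c : ℕ,
    ∃ M : ℝ, 0 ≤ M ∧ ∀ {n : ℕ} {ι : Type} [DecidableEq ι] (F : ι → Finset (Fin n))
      (v : ι → Fin n → Bool) (I : Finset ι), CoDeg F I c k →
      (∀ (V : Finset (Fin n)) (z : Cube n), V.card < c →
        η ≤ Pr (fun x => Sat F v I (patch V z x))) → Om F I ≤ M := by
  intro c
  induction c with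
  | zero =>
    refine ⟨k, by positivity, ?_⟩
    intro n ι _ F v I hcd _
    have h1 := hcd ∅ rfl
    have h2 : I.filter (fun i => ∅ ⊆ F i) = I := by
      apply Finset.filter_true_of_mem
      intro i _
      exact Finset.empty_subset _
    rw [h2] at h1
    unfold Om
    have h3 : ∀ i ∈ I, (1 / 2 : ℝ) ^ (F i).card ≤ 1 := fun i _ =>
      pow_le_one₀ (by norm_num) (by norm_num)
    refine (Finset.sum_le_card_nsmul _ _ _ h3).trans ?_
    rw [nsmul_eq_mul, mul_one]
    exact_mod_cast h1
  | succ c ih =>
    obtain ⟨M, hM, ih⟩ := ih
    obtain ⟨M', hM', h⟩ := second_moment (c + 1) k (by omega) M η hM hη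
    refine ⟨M', hM', ?_⟩
    intro n ι _ F v I hcd hP
    apply h F v I hcd
    · intro x
      -- the links
      have hlink : ∀ b : Bool, Om (fun i => F i \ {x})
          (I.filter (fun i => x ∈ F i ∧ v i x = b)) ≤ M := by
        intro b
        apply ih _ v
        · intro Q hQ
          by_cases hx : x ∈ Q
          · have : ((I.filter (fun i => x ∈ F i ∧ v i x = b)).filter
                (fun i => Q ⊆ F i \ {x})) = ∅ := by
              apply Finset.filter_false_of_mem
              intro i _ hsub
              have := hsub hx
              simp at this
            rw [this, Finset.card_empty]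
            exact Nat.zero_le _
          · refine le_trans (Finset.card_le_card ?_) (hcd (insert x Q) (by
              rw [Finset.card_insert_of_notMem hx, hQ]))
            intro i hi
            rw [Finset.mem_filter, Finset.mem_filter] at hi
            rw [Finset.mem_filter]
            refine ⟨hi.1.1, ?_⟩
            intro y hy
            rcases Finset.mem_insert.1 hy with rfl | hy
            · exact hi.1.2.1
            · exact (Finset.mem_sdiff.1 (hi.2 hy)).1
        · intro V z hV
          refine (hP (insert x V) (fun j => if j = x then b else z j) ?_).trans ?_
          · have := Finset.card_insert_le x V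
            omega
          · apply Pr_mono
            intro y hy i hi hT
            rw [Finset.mem_filter] at hi
            apply hy i hi.1
            intro j hj
            by_cases hjx : j = x
            · subst hjx
              rw [patch_mem (Finset.mem_insert_self _ _), if_pos rfl]
              exact hi.2.2.symm
            · have h1 := hT j (Finset.mem_sdiff.2 ⟨hj, by simpa using hjx⟩)
              rw [← h1]
              by_cases hjV : j ∈ V
              · rw [patch_mem (Finset.mem_insert_of_mem hjV), if_neg hjx, patch_mem hjV]
              · rw [patch_not hjV, patch_not]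
                rw [Finset.mem_insert]
                tauto
      have hsum : nu F I x = 1 / 2 * Om (fun i => F i \ {x})
          (I.filter (fun i => x ∈ F i ∧ v i x = true)) + 1 / 2 * Om (fun i => F i \ {x})
          (I.filter (fun i => x ∈ F i ∧ v i x = false)) := by
        unfold nu Om
        rw [Finset.mul_sum, Finset.mul_sum]
        have h1 : I.filter (fun i => x ∈ F i) = I.filter (fun i => x ∈ F i ∧ v i x = true) ∪
            I.filter (fun i => x ∈ F i ∧ v i x = false) := by
          ext i
          simp only [Finset.mem_filter, Finset.mem_union]
          cases v i x <;> simp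
        have h2 : Disjoint (I.filter (fun i => x ∈ F i ∧ v i x = true))
            (I.filter (fun i => x ∈ F i ∧ v i x = false)) := by
          rw [Finset.disjoint_left]
          intro i hi hi'
          rw [Finset.mem_filter] at hi hi'
          rw [hi.2.2] at hi'
          simp at hi'
        rw [h1, Finset.sum_union h2]
        have h3 : ∀ i : ι, x ∈ F i → (1 / 2 : ℝ) ^ (F i).card =
            1 / 2 * (1 / 2) ^ (F i \ {x}).card := by
          intro i hi
          rw [← pow_succ']
          congr 1
          rw [Finset.sdiff_singleton_eq_erase, Finset.card_erase_add_one hi]
        congr 1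
        · exact Finset.sum_congr rfl fun i hi => h3 i (Finset.mem_filter.1 hi).2.1
        · exact Finset.sum_congr rfl fun i hi => h3 i (Finset.mem_filter.1 hi).2.1
      have h1 := hlink true
      have h2 := hlink false
      rw [hsum]
      linarith
    · have h1 := hP ∅ (fun _ => false) (by simp)
      refine h1.trans (le_of_eq ?_)
      apply Pr_congr
      intro x
      rw [patch_empty]

end Pool.Agent.H687.CD
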